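import Pool.Agent.Lib.MP_d439b2_co.BT.FF
import Pool.Agent.Lib.MP_d439b2_co.FT.T10

/-!
# MP_d439b2_co, BT: the fact `FF10` (helper85)

From the certified table of helper32 (`FT/T10.lean`); `FF2` and `NoSp` are in `BT/FF.lean` (helper32).
-/

set_option autoImplicit false

namespace Pool.Agent.MPd439b2.BT

open Pool.Agent.MPd439b2 Pool.Agent.MPd439b2.FT

variable {V : Type}

/-! ### trees with bounded indices -/

/-- the indices of the tree are smaller than `L` -/
def wfT (L : ℕ) : Tr → Bool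
  | Tr.lf _ _ => true
  | Tr.xx i j => Nat.blt i L && Nat.blt j L
  | Tr.cf => true
  | Tr.bt _ t u => wfT L t && wfT L u
  | Tr.cn i j t u => Nat.blt i L && Nat.blt j L && wfT L t && wfT L u
  | Tr.st i j t u w => Nat.blt i L && Nat.blt j L && wfT L t && wfT L u && wfT L w

/-- `FT.Hy` for indices smaller than `L` -/
structure HyL (L A B : ℕ) (F : ℕ → Bool) : Prop where
  cn : ∀ i < L, ∀ j < L, A.testBit (16 * i + j) = true →
    F (16 * i + j) = F (16 * j + i) ∧ F (256 + 16 * i + j) = F (16 * i + j)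
  st : ∀ i < L, ∀ j < L, B.testBit (16 * i + j) = true →
    (F (16 * i + j) = true ∧ F (16 * j + i) = false) ∨ (F (16 * i + j) = false ∧ F (16 * j + i) = true) ∨
    (F (16 * i + j) = true ∧ F (16 * j + i) = true ∧ F (256 + 16 * i + j) = false ∧
      F (17 * i) ≠ F (17 * j))

/-- **a tree refutes the rails** -/
theorem tr_falseL {G : SimpleGraph V} {L A B : ℕ} {x : ℕ → ℕ → V} {F : ℕ → Bool} (h : HR G L 16 x F)
    {lib : List (ℕ × ℕ × ℕ)} (hlib : ∀ c ∈ lib, NG G c.1 c.2.1 c.2.2) (hL : L ≤ 16) (hy : HyL L A B F) :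
    ∀ (t : Tr) (P N : ℕ), wfT L t = true → Mt P N F → chkT lib L A B t P N = true → False := by
  intro t
  induction t with
  | lf g s =>
    intro P N _ hM hc
    simp only [chkT, Bool.and_eq_true] at hc
    obtain ⟨⟨h1, h2⟩, h3⟩ := hc
    have h1' := Nat.le_of_ble_eq_true h1
    have hg : g < lib.length := by
      by_contra hcon
      rw [List.getD_eq_default _ _ (not_lt.1 hcon)] at h1'
      dsimp only at h1'
      omega
    have hmem : lib.getD g (0, 0, 17) ∈ lib := by
      rw [List.getD_eq_getElem _ _ hg]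
      exact List.getElem_mem hg
    refine hlib _ hmem _ _ (h.shift h1') (Mt.shift (s := 17 * s) (hM.sub (Nat.eq_of_beq_eq_true h2)
      (Nat.eq_of_beq_eq_true h3)))
  | xx i j =>
    intro P N hw hM hc
    simp only [wfT, Bool.and_eq_true, Nat.blt_eq] at hw
    simp only [chkT, Bool.and_eq_true, Bool.or_eq_true] at hc
    obtain ⟨⟨⟨h1, h2⟩, h3⟩, h4⟩ := hc
    have h5 := hM.1 _ h2
    have h6 := hM.1 _ h3
    rcases hy.st i hw.1 j hw.2 h1 with h7 | h7 | h7
    · rw [h7.2] at h6
      exact absurd h6 (by decide)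
    · rw [h7.1] at h5
      exact absurd h5 (by decide)
    · rcases h4 with h4 | h4
      · exact h7.2.2.2 ((hM.1 _ h4.1).trans (hM.1 _ h4.2).symm)
      · exact h7.2.2.2 ((hM.2 _ h4.1).trans (hM.2 _ h4.2).symm)
  | cf =>
    intro P N _ hM hc
    simp only [chkT, cf_false hM] at hc
    exact absurd hc (by decide)
  | bt b t u iht ihu =>
    intro P N hw hM hc
    simp only [wfT, Bool.and_eq_true] at hw
    simp only [chkT, Bool.and_eq_true] at hc
    rcases hb : F b with _ | _
    · have := hM.or (Mt.nil hb)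
      rw [Nat.or_zero] at this
      exact iht _ _ hw.1 this hc.1
    · have := hM.or (Mt.one hb)
      rw [Nat.or_zero] at this
      exact ihu _ _ hw.2 this hc.2
  | cn i j t u iht ihu =>
    intro P N hw hM hc
    simp only [wfT, Bool.and_eq_true, Nat.blt_eq] at hw
    simp only [chkT, Bool.and_eq_true] at hc
    obtain ⟨⟨h1, h2⟩, h3⟩ := hc
    obtain ⟨h4, h5⟩ := hy.cn i hw.1.1.1 j hw.1.1.2 h1
    rcases hb : F (16 * i + j) with _ | _
    · rw [hb] at h4 h5
      have := hM.or (((Mt.nil hb).or (Mt.nil h4.symm)).or (Mt.nil h5))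
      simp only [Nat.or_zero] at this
      exact iht _ _ hw.1.2 this h2
    · rw [hb] at h4 h5
      have := hM.or (((Mt.one hb).or (Mt.one h4.symm)).or (Mt.one h5))
      simp only [Nat.or_zero] at this
      exact ihu _ _ hw.2 this h3
  | st i j t u w iht ihu ihw =>
    intro P N hw hM hc
    simp only [wfT, Bool.and_eq_true, Nat.blt_eq] at hw
    simp only [chkT, Bool.and_eq_true] at hc
    obtain ⟨⟨⟨h1, h2⟩, h3⟩, h4⟩ := hc
    rcases hy.st i hw.1.1.1.1 j hw.1.1.1.2 h1 with h5 | h5 | h5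
    · have := (hM.or (Mt.one h5.1)).or (Mt.nil h5.2)
      simp only [Nat.or_zero] at this
      exact iht _ _ hw.1.1.2 this h2
    · have := (hM.or (Mt.one h5.2)).or (Mt.nil h5.1)
      simp only [Nat.or_zero] at this
      exact ihu _ _ hw.1.2 this h3
    · have := (hM.or ((Mt.one h5.1).or (Mt.one h5.2.1))).or (Mt.nil h5.2.2.1)
      simp only [Nat.or_zero] at this
      exact ihw _ _ hw.2 this h4

/-! ### the facts -/

theorem wf10 : wfT 10 T10.tree = true := by decide +kernel

theorem mA : ∀ i < 10, ∀ j < 10, T10.A.testBit (16 * i + j) = true → i + 2 ≤ j := by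
  decide +kernel

theorem mB : ∀ i < 10, ∀ j < 10, T10.B.testBit (16 * i + j) = true → j = i + 1 := by
  decide +kernel

/-- **`FF10`** -/
theorem pFF10 {G : SimpleGraph V} (hH : ¬ IMS (KA 3 3 ![{0}, {1}, {0, 2}]) G Set.univ)
    (hJ : ¬ IMS (F9.JS ![0, 1, 1] 2) G Set.univ) : FF10 G := by
  intro x F h h1 h2
  refine tr_falseL (A := T10.A) (B := T10.B) h.hr (lib_ok hH hJ T10.ok) (by norm_num) ⟨fun i hi j hj ht => ?_,
    fun i hi j hj ht => ?_⟩ T10.tree 0 0 wf10 (Mt.zero F) T10.okT
  · exact h1 i j (mA i hi j hj ht) hj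
  · have h3 := mB i hi j hj ht
    subst h3
    obtain ⟨a1, a2, a3, a4⟩ := h2 i (by omega)
    exact Or.inr (Or.inr ⟨a1, a2, a3, a4⟩)

end Pool.Agent.MPd439b2.BT
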