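import Pool.Agent.Lib.MP_d439b2_co.BT.SpecA

/-! # MP_d439b2_co, BT, A16: alternating sequences on the line cross the boundary -/

set_option autoImplicit false

namespace Pool.Agent.MPd439b2.BT

open Pool.Agent.MPd439b2 Pool.Agent.MPd439b2.X2 Pool.Agent.MPd439b2.VX

private theorem cyc {V : Type} {n : ℕ} {S : St V n} {i j : Fin n} (hij : i ≠ j)
    {y u w : Nod S} (h1 : y = u ∨ Bef S i j y.1 u.1) (h2 : Bef S i j u.1 w.1)
    (h3 : y = w ∨ Bef S i j w.1 y.1) : False := by
  rcases h1 with rfl | h1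
  · rcases h3 with rfl | h3
    · exact bef_irrefl hij _ h2
    · exact bef_irrefl hij _ (bef_trans hij h2 h3)
  · rcases h3 with rfl | h3
    · exact bef_irrefl hij _ (bef_trans hij h1 h2)
    · exact bef_irrefl hij _ (bef_trans hij (bef_trans hij h1 h2) h3)

private theorem cardI {α : Type} [DecidableEq α] {B : Finset α} {I : Finset ℕ}
    (y : ∀ k, k ∈ I → α) (h1 : ∀ k hk, y k hk ∈ B)
    (h2 : ∀ k hk l hl, k < l → y k hk ≠ y l hl) : I.card ≤ B.card := by
  rw [← Finset.card_attach]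
  refine Finset.card_le_card_of_injOn (fun k => y k.1 k.2) (fun k _ => h1 k.1 k.2) ?_
  intro k _ l _ hkl
  rcases lt_trichotomy k.1 l.1 with h | h | h
  · exact absurd hkl (h2 _ _ _ _ h)
  · exact Subtype.ext h
  · exact absurd hkl.symm (h2 _ _ _ _ h)

theorem alt (h1 : S_Line) : S_Alt := by
  intro V _ n S G _ _ F i j N I z a e hij hF hN hI hadj
  refine le_trans ?_ hN
  cases e with
  | true =>
    have hk : ∀ k, k ∈ I → ∃ y ∈ bd ((BGr S G).Ed Finset.univ) F,
        (y = z k ∨ Bef S i j (z k).1 y.1) ∧ (y = a k ∨ Bef S i j y.1 (a k).1) := by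
      intro k hk
      obtain ⟨hz, ha, hzF, haF⟩ := hI k hk
      exact h1 V n S G F i j (z k) (a k) hij hF hzF haF (Or.inl hz) (Or.inr ha)
        (Or.inr (Or.inr (Or.inr (Or.inl ⟨hz, ha, (hadj k hk k hk).2 (by simp)⟩))))
    choose y hy using hk
    refine cardI y (fun k hk => (hy k hk).1) ?_
    intro k hk l hl hkl heq
    have hb : Bef S i j (a k).1 (z l).1 := by
      refine Or.inr (Or.inr (Or.inr ⟨(hI k hk).2.1, (hI l hl).1, fun hA => ?_⟩))
      have := ((hadj l hl k hk).1 hA).2 rfl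
      omega
    have e1 := (hy k hk).2.2
    have e2 := (hy l hl).2.1
    rw [← heq] at e2
    exact cyc hij e1 hb e2
  | false =>
    have hk : ∀ k, k ∈ I → ∃ y ∈ bd ((BGr S G).Ed Finset.univ) F,
        (y = z k ∨ Bef S j i (z k).1 y.1) ∧ (y = a k ∨ Bef S j i y.1 (a k).1) := by
      intro k hk
      obtain ⟨hz, ha, hzF, haF⟩ := hI k hk
      refine h1 V n S G F j i (z k) (a k) hij.symm hF hzF haF (Or.inr hz) (Or.inl ha)
        (Or.inr ((bef_symm S i j _ _).2 (Or.inr (Or.inr (Or.inr ⟨ha, hz, fun hA => ?_⟩)))))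
      have := ((hadj k hk k hk).1 hA).1 le_rfl
      exact absurd this (by simp)
    choose y hy using hk
    refine cardI y (fun k hk => (hy k hk).1) ?_
    intro k hk l hl hkl heq
    have hb : Bef S j i (a k).1 (z l).1 := by
      refine (bef_symm S i j _ _).2 (Or.inr (Or.inr (Or.inl ⟨(hI l hl).1, (hI k hk).2.1, ?_⟩)))
      refine (hadj l hl k hk).2 ⟨fun h => ?_, fun h => ?_⟩
      · omega
      · exact absurd h (by simp)
    have e1 := (hy k hk).2.2
    have e2 := (hy l hl).2.1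
    rw [← heq] at e2
    exact cyc hij.symm e1 hb e2

end Pool.Agent.MPd439b2.BT
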