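import Pool.Agent.Lib.MP_d439b2_co.BT.SpecB

/-!
# MP_d439b2_co, BT, Arc: good arcs are small or big (helper69)
-/

set_option autoImplicit false

namespace Pool.Agent.MPd439b2.BT

open Pool.Agent.MPd439b2
open Pool.Agent.MPd439b2.VX

theorem arc (h1 : S_SubT) : S_Arc := by
  intro α _ _ n G i S m₀ R M AA hC a b hAA ha hb hab
  by_contra hcon
  rw [not_or, not_lt, not_lt] at hcon
  obtain ⟨hin, hout⟩ := hcon
  classical
  set J : Finset α := Finset.univ.filter fun x => G.c x = i ∧ G.ρ a ≤ G.ρ x ∧ G.ρ x ≤ G.ρ b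
    with hJ
  have hmem : ∀ x, x ∈ J ↔ G.c x = i ∧ G.ρ a ≤ G.ρ x ∧ G.ρ x ≤ G.ρ b := by
    intro x
    rw [hJ, Finset.mem_filter]
    exact ⟨fun h => h.2, fun h => ⟨Finset.mem_univ _, h⟩⟩
  have haJ : a ∈ J := (hmem a).mpr ⟨ha, le_refl _, hab.le⟩
  have hbJ : b ∈ J := (hmem b).mpr ⟨hb, hab.le, le_refl _⟩
  obtain ⟨r, A, B, χ, hr, hRb, hL⟩ := hC.bal J (fun x hx => ((hmem x).mp hx).1) (by
    intro x hx z hz y hc hxy hyz
    rw [hmem] at hx hz ⊢
    exact ⟨hc.trans hx.1, by omega, by omega⟩) (by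
    refine le_trans hin (Finset.card_le_card ?_)
    intro x hx
    rw [Finset.mem_filter] at hx
    rw [Finset.mem_inter, hmem]
    exact ⟨hx.1, hC.cS x hx.1, hx.2⟩) (by
    refine le_trans hout (Finset.card_le_card ?_)
    intro x hx
    rw [Finset.mem_filter] at hx
    rw [Finset.mem_sdiff, hmem]
    exact ⟨hx.1, fun h => hx.2 h.2⟩)
  have hsub := ((h1 α n G i (2 * m₀ + 2) m₀ r A B χ (fun k => k + 1)
    (fun k hk => by omega)).2 (fun k l hkl _ => by omega)).2 hRb
  rcases hL with hL | hL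
  · refine hC.fct.crR i r _ _ χ hr hsub a b hAA ha hb ?_
    intro k hk
    have e0 := (hmem _).mp (hL 0 (by omega)).1
    have e1 := (hRb.mon 0 (k + 1) (by omega) (by omega)).1
    have e2 := (hRb.mon (k + 1) (k + 2) (by omega) (by omega)).1
    have e3 := (hmem _).mp (hL (k + 2) (by omega)).1
    have e4 := (hL (k + 1) (by omega)).2 b hbJ
    refine ⟨?_, ?_, ?_⟩
    · change G.ρ a < G.ρ (A (k + 1) 0)
      omega
    · change G.ρ (A (k + 1) 0) < G.ρ b
      omega
    · exact e4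
  · refine hC.fct.crL i r _ _ χ hr hsub a b hAA ha hb ?_
    intro k hk
    have e0 := (hmem _).mp (hL 0 (by omega)).1
    have e1 := (hRb.mon 0 (k + 1) (by omega) (by omega)).2
    have e2 := (hRb.mon (k + 1) (k + 2) (by omega) (by omega)).2
    have e3 := (hmem _).mp (hL (k + 2) (by omega)).1
    have e4 := (hL (k + 1) (by omega)).2 a haJ
    refine ⟨?_, ?_, ?_⟩
    · exact e4
    · change G.ρ a < G.ρ (A (k + 1) r)
      omega
    · change G.ρ (A (k + 1) r) < G.ρ b
      omega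

end Pool.Agent.MPd439b2.BT
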