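import Pool.Agent.Lib.MP_d439b2_co.BT.SpecA

/-! # MP_d439b2_co, BT, A15: few exceptional pairs between two blocks -/

set_option autoImplicit false

namespace Pool.Agent.MPd439b2.BT

open Pool.Agent.MPd439b2 Pool.Agent.MPd439b2.X2 Pool.Agent.MPd439b2.VX

private theorem adjBlk {V : Type} {n : ℕ} {S : St V n} {G : SimpleGraph V} {x x' y : V}
    (h : bl S x = bl S x') (hx : y ≠ x) (hx' : y ≠ x') (he : ¬ Exc S G x y)
    (he' : ¬ Exc S G x' y) (ha : G.Adj x y) : G.Adj x' y := by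
  unfold Exc at he he'
  rw [not_not] at he he'
  rw [← he']
  rw [← he] at ha
  have ht := tw_of_bl h
  by_cases hc : S.c y = S.c x
  · rw [S.typ x y hx.symm hc.symm] at ha
    rw [S.typ x' y hx'.symm (ht.1.symm.trans hc.symm), ← ht.1]
    exact ha
  · exact (ht.2 y hc).1 ha

private theorem typB {V : Type} [Finite V] {n : ℕ} {S : St V n} {G : SimpleGraph V} {c : ℕ}
    {𝓑 X : Set V} (h𝓑 : 𝓑.ncard ≤ c) (hX : ∀ x ∈ X, bl S x ∈ 𝓑)
    (hcl : ∀ x ∈ X, ∀ y, Exc S G x y → y ∈ X) : (Types G X).encard ≤ (c : ℕ∞) := by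
  have hsub : Types G X ⊆ (fun P => {y | y ∉ X ∧ ∃ x ∈ X, bl S x = P ∧ G.Adj x y}) '' 𝓑 := by
    rintro T ⟨-, a, ha, rfl⟩
    refine ⟨bl S a, hX a ha, ?_⟩
    ext y
    constructor
    · rintro ⟨hy, x, hx, hbl, hadj⟩
      refine ⟨?_, hy⟩
      refine adjBlk hbl (fun h => hy (h ▸ hx)) (fun h => hy (h ▸ ha)) (fun h => hy (hcl x hx y h))
        (fun h => hy (hcl a ha y h)) hadj
    · rintro ⟨hadj, hy⟩
      exact ⟨hy, a, ha, rfl, hadj⟩
  calc (Types G X).encard ≤ _ := Set.encard_le_encard hsub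
    _ ≤ 𝓑.encard := Set.encard_image_le _ _
    _ = (𝓑.ncard : ℕ∞) := (Set.Finite.cast_ncard_eq (Set.toFinite _)).symm
    _ ≤ (c : ℕ∞) := by exact_mod_cast h𝓑

private theorem unionB {V : Type} [Finite V] {f : V → Set V} {A : Set V} {k s : ℕ}
    (hf : ∀ v, (f v).ncard ≤ k) (hA : A.ncard = s) : (⋃ v ∈ A, f v).ncard ≤ s * k := by
  classical
  have h1 : (⋃ v ∈ A, f v) = ⋃ v ∈ (Set.toFinite A).toFinset, f v := by
    ext u
    simp
  rw [h1]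
  refine (Finset.set_ncard_biUnion_le _ _).trans ?_
  calc ∑ v ∈ (Set.toFinite A).toFinset, (f v).ncard
      ≤ ∑ v ∈ (Set.toFinite A).toFinset, k := Finset.sum_le_sum fun v _ => hf v
    _ = s * k := by
        rw [Finset.sum_const, smul_eq_mul, ← Set.ncard_eq_toFinset_card _ (Set.toFinite _), hA]

theorem bbm (h1 : S_BallB) (h2 : S_Geo) : S_BBm := by
  intro n b m β
  obtain ⟨c, hc⟩ := h1 n b m 9
  obtain ⟨d, hd⟩ := h2 n b m c
  refine ⟨c, c + d + (β c + 1) * (b + 1) ^ 8 + β c, ?_⟩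
  intro V _ S G hcr hE hF2 hF10 hNS hLk p q
  by_contra hcon
  push Not at hcon
  obtain ⟨𝓑, X, h𝓑, hXc, hball⟩ := hc V S G p q hE hF2 hNS
  have hK1 : {v | v ∈ Zp S G p q \ X ∧ Bll S G 9 v ≠ Bll S G 8 v}.ncard ≤ d :=
    hd V S G 𝓑 _ hE hF10 hNS h𝓑 (fun v hv u hu => hball v hv.1.1 hv.1.2 u hu)
      (fun v hv => hv.2)
  set K := Zp S G p q \ X with hK
  set K₁ := {v | v ∈ K ∧ Bll S G 9 v ≠ Bll S G 8 v} with hK₁
  have hn1 : (Zp S G p q).ncard ≤ K.ncard + X.ncard := Set.ncard_le_ncard_sdiff_add_ncard _ _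
  have hn2 : K.ncard ≤ (K \ K₁).ncard + K₁.ncard := Set.ncard_le_ncard_sdiff_add_ncard _ _
  have hn3 : β c + 1 ≤ (K \ K₁).ncard := by
    have : 0 ≤ (β c + 1) * (b + 1) ^ 8 := Nat.zero_le _
    have h8 : 1 ≤ (b + 1) ^ 8 := Nat.one_le_pow _ _ (Nat.succ_pos b)
    have : 1 ≤ (β c + 1) * (b + 1) ^ 8 := Nat.one_le_iff_ne_zero.2 (by positivity)
    omega
  obtain ⟨A, hAK, hAc⟩ := Set.exists_subset_card_eq hn3
  have hA8 : ∀ v ∈ A, v ∈ K ∧ Bll S G 9 v = Bll S G 8 v := by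
    intro v hv
    have h := hAK hv
    refine ⟨h.1, ?_⟩
    by_contra hne
    exact h.2 ⟨h.1, hne⟩
  set X' : Set V := ⋃ v ∈ A, Bll S G 8 v with hX'
  have hX'c : X'.ncard ≤ (β c + 1) * (b + 1) ^ 8 := unionB (fun v => bll_card hE 8 v) hAc
  have hAX' : A ⊆ X' := by
    intro v hv
    rw [hX', Set.mem_iUnion₂]
    exact ⟨v, hv, bll_mono (Nat.zero_le 8) v rfl⟩
  have hcl : ∀ x ∈ X', ∀ y, Exc S G x y → y ∈ X' := by
    intro x hx y he
    rw [hX', Set.mem_iUnion₂] at hx ⊢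
    obtain ⟨v, hv, hxv⟩ := hx
    refine ⟨v, hv, ?_⟩
    rw [← (hA8 v hv).2]
    exact bll_step hxv he
  have hblk : ∀ x ∈ X', bl S x ∈ 𝓑 := by
    intro x hx
    rw [hX', Set.mem_iUnion₂] at hx
    obtain ⟨v, hv, hxv⟩ := hx
    have hvK := (hA8 v hv).1
    exact hball v hvK.1 hvK.2 x (bll_mono (Nat.le_succ 8) v hxv)
  rcases hLk c le_rfl X' (hcr X' c (typB h𝓑 hblk hcl)) with h | h
  · have := Set.ncard_le_ncard hAX' (Set.toFinite _)
    omega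
  · have h5 : (K \ K₁).ncard ≤ ((K \ K₁) \ X').ncard + X'.ncard :=
      Set.ncard_le_ncard_sdiff_add_ncard _ _
    have h6 : ((K \ K₁) \ X').ncard ≤ X'ᶜ.ncard :=
      Set.ncard_le_ncard (fun v hv => hv.2) (Set.toFinite _)
    omega

end Pool.Agent.MPd439b2.BT
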