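import Pool.Agent.Lib.MP_d439b2_co.BT.SpecA

/-!
# MP_d439b2_co, BT: the balls of the vertices of `Zp p q` are in few blocks
-/

set_option autoImplicit false

namespace Pool.Agent.MPd439b2.BT

open Pool.Agent.MPd439b2 Pool.Agent.MPd439b2.X2

private theorem ncard_bu {V : Type} [Finite V] (A : Set V) (f : V → Set V) (a k : ℕ)
    (hA : A.ncard ≤ a) (hf : ∀ x ∈ A, (f x).ncard ≤ k) : (⋃ x ∈ A, f x).ncard ≤ a * k := by
  classical
  have e : (⋃ x ∈ A, f x) = ⋃ x ∈ (Set.toFinite A).toFinset, f x := by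
    ext y
    simp only [Set.mem_iUnion, Set.Finite.mem_toFinset]
  rw [e]
  refine (Finset.set_ncard_biUnion_le _ _).trans ?_
  calc ∑ x ∈ (Set.toFinite A).toFinset, (f x).ncard
      ≤ ∑ x ∈ (Set.toFinite A).toFinset, k :=
        Finset.sum_le_sum fun x hx => hf x ((Set.Finite.mem_toFinset _).1 hx)
    _ = A.ncard * k := by
        rw [Finset.sum_const, smul_eq_mul, Set.ncard_eq_toFinset_card _ (Set.toFinite _)]
    _ ≤ a * k := Nat.mul_le_mul_right _ hA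

/-- the statement of `S_BallB` for one radius -/
private def BallR (n b m r : ℕ) : Prop := ∃ c : ℕ, ∀ (V : Type) [Finite V] (S : St V n)
  (G : SimpleGraph V) (p q : V), ExcB S G b → FF2 G → NoSp G m →
  ∃ 𝓑 X : Set V, 𝓑.ncard ≤ c ∧ X.ncard ≤ c ∧
    ∀ v ∈ Zp S G p q, v ∉ X → ∀ u ∈ Bll S G r v, bl S u ∈ 𝓑

private theorem ballR_one (h1 : S_FanB) (n b m : ℕ) : BallR n b m 1 := by
  obtain ⟨c₁, hc⟩ := h1 n b m
  refine ⟨c₁ + 1, ?_⟩
  intro V _ S G p q hb hf hs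
  obtain ⟨𝓑, X, hB, hX, h⟩ := hc V S G p q hb hf hs
  refine ⟨insert p 𝓑, X, (Set.ncard_insert_le _ _).trans (Nat.add_le_add_right hB 1),
    hX.trans (Nat.le_succ _), ?_⟩
  intro v hv hvX u hu
  obtain ⟨w, hw, hu'⟩ := hu
  have hwv : w = v := hw
  rcases hu' with hu' | hu'
  · rw [hu', hwv, hv.1]
    exact Set.mem_insert _ _
  · rw [hwv] at hu'
    exact Set.mem_insert_of_mem _ (h v hv hvX u hu')

private theorem ballR_succ (h1 : S_FanB) (n b m r : ℕ) (ih : BallR n b m (r + 1)) :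
    BallR n b m (r + 1 + 1) := by
  obtain ⟨c₁, hc⟩ := h1 n b m
  obtain ⟨c, hr⟩ := ih
  refine ⟨c + c * (c * (c₁ * (b + 1) ^ (r + 1))), ?_⟩
  intro V _ S G p q hb hf hs
  obtain ⟨𝓑', X', hB', hX', h'⟩ := hr V S G p q hb hf hs
  have hc' : ∀ p' q' : V, ∃ 𝓑 X : Set V, 𝓑.ncard ≤ c₁ ∧ X.ncard ≤ c₁ ∧
      ∀ v ∈ Zp S G p' q', v ∉ X → ∀ z, Exc S G v z → bl S z ∈ 𝓑 := fun p' q' =>
    hc V S G p' q' hb hf hs
  choose 𝓑₀ X₀ hB₀ hX₀ h₀ using hc'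
  have hpow : 1 ≤ (b + 1) ^ (r + 1) := Nat.one_le_pow _ _ (Nat.succ_pos b)
  refine ⟨𝓑' ∪ ⋃ p' ∈ 𝓑', ⋃ q' ∈ 𝓑', 𝓑₀ p' q',
    X' ∪ ⋃ p' ∈ 𝓑', ⋃ q' ∈ 𝓑', ⋃ u ∈ X₀ p' q', Bll S G (r + 1) u, ?_, ?_, ?_⟩
  · refine (Set.ncard_union_le _ _).trans (Nat.add_le_add hB' ?_)
    refine ncard_bu 𝓑' _ c _ hB' fun p' _ => ncard_bu 𝓑' _ c _ hB' fun q' _ => ?_
    calc (𝓑₀ p' q').ncard ≤ c₁ := hB₀ p' q'
      _ = c₁ * 1 := (Nat.mul_one _).symm
      _ ≤ c₁ * (b + 1) ^ (r + 1) := Nat.mul_le_mul_left _ hpow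
  · refine (Set.ncard_union_le _ _).trans (Nat.add_le_add hX' ?_)
    exact ncard_bu 𝓑' _ c _ hB' fun p' _ => ncard_bu 𝓑' _ c _ hB' fun q' _ =>
      ncard_bu (X₀ p' q') _ c₁ _ (hX₀ p' q') fun u _ => bll_card hb (r + 1) u
  · intro v hv hvX u hu
    by_cases hu1 : u ∈ Bll S G (r + 1) v
    · exact Or.inl (h' v hv (fun h => hvX (Or.inl h)) u hu1)
    · right
      have hvX' : v ∉ X' := fun h => hvX (Or.inl h)
      obtain ⟨w, hw, hwu⟩ := hu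
      rcases hwu with hwu | hwu
      · exact absurd (by rw [hwu]; exact hw) hu1
      have hw1 : w ∉ Bll S G r v := fun h => hu1 (bll_step h hwu)
      obtain ⟨t, ht, htw⟩ := hw
      rcases htw with htw | htw
      · exact absurd (by rw [htw]; exact ht) hw1
      have hwB : bl S w ∈ 𝓑' := h' v hv hvX' w ⟨t, ht, Or.inr htw⟩
      have htB : bl S t ∈ 𝓑' := h' v hv hvX' t (bll_mono (Nat.le_succ r) v ht)
      have hwZ : w ∈ Zp S G (bl S w) (bl S t) := ⟨rfl, t, rfl, htw.symm⟩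
      have hwX : w ∉ X₀ (bl S w) (bl S t) := by
        intro h
        refine hvX (Or.inr ?_)
        rw [Set.mem_iUnion₂]
        refine ⟨bl S w, hwB, ?_⟩
        rw [Set.mem_iUnion₂]
        refine ⟨bl S t, htB, ?_⟩
        rw [Set.mem_iUnion₂]
        exact ⟨w, h, bll_symm (bll_step ht htw)⟩
      rw [Set.mem_iUnion₂]
      refine ⟨bl S w, hwB, ?_⟩
      rw [Set.mem_iUnion₂]
      exact ⟨bl S t, htB, h₀ _ _ w hwZ hwX u hwu⟩

private theorem ballR_all (h1 : S_FanB) (n b m r : ℕ) : BallR n b m (r + 1) := by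
  induction r with
  | zero => exact ballR_one h1 n b m
  | succ r ih => exact ballR_succ h1 n b m r ih

theorem ballB (h1 : S_FanB) : S_BallB := by
  intro n b m r
  obtain ⟨c, hc⟩ := ballR_all h1 n b m r
  refine ⟨c, ?_⟩
  intro V _ S G p q hb hf hs
  obtain ⟨𝓑, X, hB, hX, h⟩ := hc V S G p q hb hf hs
  exact ⟨𝓑, X, hB, hX, fun v hv hvX u hu => h v hv hvX u (bll_mono (Nat.le_succ r) v hu)⟩

end Pool.Agent.MPd439b2.BT
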