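import Pool.Agent.Lib.MP_d439b2_co.BT.SpecG

/-!
# MP_d439b2_co, BT, BunT: bundles from linked sets, in the restricted block graph (helper74)
-/

set_option autoImplicit false

namespace Pool.Agent.MPd439b2.BT

open Pool.Agent.MPd439b2
open Pool.Agent.MPd439b2.VX

theorem bunT (h1 : S_Res) (h2 : VX.S_Bun) (h3 : S_MonB) (_h4 : S_SubT) : S_BunT := by
  intro n g m q hg
  obtain ⟨M₁, hM₁⟩ := h3 m
  obtain ⟨M₂, hM₂⟩ := h2 n g M₁
  refine ⟨max 1 (q * M₂), le_max_left _ _, ?_⟩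
  intro α _ _ G T i S J _hi hC hL hJ hInt ha hb
  obtain ⟨ν, p, hLk⟩ := hL J M₂ ((le_max_right _ _).trans ha) ((le_max_right _ _).trans hb)
  obtain ⟨r1, r2, -⟩ := h1 α n G T
  have hfil : (J.filter fun x => (res G T).c x = i) = J := Finset.filter_true_of_mem hJ
  have hE := r2 (T.erase i) (Finset.erase_subset _ _)
  have hG := r1 T (Finset.Subset.refl _)
  obtain ⟨r, A, B, χ, hr, hV, hAJ, halt⟩ := hM₂ α (res G T) T i J ν p hg
    (by rw [hE]; exact hC) (by rw [hfil]; exact hInt) (by rw [hG]; exact hLk)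
  have key := hM₁ α n (res G T) i r A B χ J hV (fun k hk => (hAJ k hk).1) (by
    rcases halt with halt | halt
    · exact Or.inl fun k hk x hx => halt k hk x hx (hJ x hx)
    · exact Or.inr fun k hk x hx => halt k hk x hx (hJ x hx))
  rcases key with ⟨A', B', χ', hPs⟩ | ⟨A', B', χ', hRb, hLv⟩
  · exact ⟨r, A', B', χ', hr, Or.inl hPs⟩
  · exact ⟨r, A', B', χ', hr, Or.inr ⟨hRb, hLv⟩⟩

end Pool.Agent.MPd439b2.BT
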