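import Pool.Agent.Lib.MP_d439b2_co.BT.SpecB

/-! # MP_d439b2_co, BT, module CarvB (helper51) -/

set_option autoImplicit false

namespace Pool.Agent.MPd439b2.BT

open Pool.Agent.MPd439b2
open Pool.Agent.MPd439b2.VX

/-- **Branch decompositions of bounded width.** -/
theorem carvB (h1 : VX.S_Sys) (h2 : S_CtxB) (h3 : S_Core) : S_CarvB := by
  intro n m₀
  have hM : ∀ g : ℕ, ∃ M : ℕ, 2 ≤ g → ∀ (α : Type) [Fintype α] [DecidableEq α]
      (G : BG α n) (T : Finset (Fin n)) (i : Fin n) (S : Finset α) (AA : Fin n → α → α → Prop),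
      i ∈ T → Carv (G.Ed (T.erase i)) g (G.Ed (T.erase i)) → (∀ x ∈ S, G.c x = i) →
      WL (G.Ed T) S → Fct G (m₀ (n + 4 * g + 1)) (n + 4 * g + 1) AA →
      Ctx G i S (m₀ (n + 4 * g + 1)) (n + 4 * g + 1) M AA := by
    intro g
    by_cases hg : 2 ≤ g
    · obtain ⟨M, hM⟩ := h2 n g (m₀ (n + 4 * g + 1)) hg
      exact ⟨M, fun _ => hM⟩
    · exact ⟨0, fun h => absurd h hg⟩
  choose M hM using hM
  obtain ⟨N, hN⟩ := h1 n (fun g => 8 * M g)
  refine ⟨N, ?_⟩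
  intro α _ _ G AA hF
  rcases hN α G with h | ⟨T, i, g, S, hi, hg, -, hC, hS, hcard, hW⟩
  · exact h
  · exfalso
    have hctx := hM g hg α G T i S (AA (n + 4 * g + 1)) hi hC hS hW (hF (n + 4 * g + 1))
    exact absurd (h3 α n G i S _ _ _ _ hctx) (not_lt.mpr hcard)

end Pool.Agent.MPd439b2.BT
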