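import Pool.Agent.Lib.MP_d439b2_co.BT.SpecG

/-!
# MP_d439b2_co, BT, G6: branch decompositions of bounded width, with good intervals
-/

set_option autoImplicit false

namespace Pool.Agent.MPd439b2.BT

open Pool.Agent.MPd439b2
open Pool.Agent.MPd439b2.VX

namespace CarvGAux

variable {α : Type} {n : ℕ}

theorem subR (h6 : S_SubT) {G : BG α n} {i : Fin n} {M m r : ℕ} {A B : ℕ → ℕ → α}
    {χ : ℕ → Fin n} (hmM : m ≤ M) (h : Rb G i M r A B χ) : Rb G i m r A B χ :=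
  ((h6 α n G i M m r A B χ (fun k => k) (fun _ hk => lt_of_lt_of_le hk hmM)).2
    (fun _ _ hkl _ => hkl)).2 h

theorem subP (h6 : S_SubT) {G : BG α n} {i : Fin n} {M m r : ℕ} {A B : ℕ → ℕ → α}
    {χ : ℕ → Fin n} (hmM : m ≤ M) (h : Ps G i M r A B χ) : Ps G i m r A B χ :=
  ((h6 α n G i M m r A B χ (fun k => k) (fun _ hk => lt_of_lt_of_le hk hmM)).2
    (fun _ _ hkl _ => hkl)).1 h

theorem subL {G : BG α n} {J : Finset α} {M m r : ℕ} {A : ℕ → ℕ → α}
    (hmM : m ≤ M) (h : Leav G J M r A) : Leav G J m r A := by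
  rcases h with h | h
  · exact Or.inl fun k hk => h k (lt_of_lt_of_le hk hmM)
  · exact Or.inr fun k hk => h k (lt_of_lt_of_le hk hmM)

end CarvGAux

open CarvGAux

/-- **Branch decompositions of bounded width** with good intervals. -/
theorem carvG (h1 : S_Res) (h2 : S_ResF) (h3 : S_BunT) (h4 : S_CoreG) (h5 : S_Thr)
    (h6 : S_SubT) : S_CarvG := by
  intro q hSys n m₁ m₂
  have hM : ∀ g : ℕ, ∃ M : ℕ, 2 ≤ g → 1 ≤ M ∧ ∀ (α : Type) [Fintype α]
      [DecidableEq α] (G : BG α n) (T : Finset (Fin n)) (i : Fin n) (S J : Finset α), i ∈ T →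
      Carv (G.Ed (T.erase i)) g (G.Ed (T.erase i)) → LkS G T i S q → (∀ x ∈ J, G.c x = i) →
      G.Int J → M ≤ (S ∩ J).card → M ≤ (S \ J).card →
      ∃ r A B χ, r ≤ n + 4 * g + 1 ∧
        (Ps (res G T) i (m₁ (n + 4 * g + 1) + m₂ (n + 4 * g + 1) + 1) r A B χ ∨
        (Rb (res G T) i (m₁ (n + 4 * g + 1) + m₂ (n + 4 * g + 1) + 1) r A B χ ∧
          Leav (res G T) J (m₁ (n + 4 * g + 1) + m₂ (n + 4 * g + 1) + 1) r A)) := by
    intro g
    by_cases hg : 2 ≤ g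
    · obtain ⟨M, hM1, hM⟩ := h3 n g (m₁ (n + 4 * g + 1) + m₂ (n + 4 * g + 1) + 1) q hg
      exact ⟨M, fun _ => ⟨hM1, hM⟩⟩
    · exact ⟨0, fun h => absurd h hg⟩
  choose M hM using hM
  obtain ⟨N, hN⟩ := hSys n (fun g => 8 * M g)
  refine ⟨N, ?_⟩
  intro α _ _ G st hF hst
  rcases hN α G st with h | ⟨T, i, g, S, hi, hg, -, hC, hS, hcard, hL, hs⟩
  · exact h
  exfalso
  obtain ⟨hM1, hMg⟩ := hM g hg
  by_cases hsi : st i
  · have hFG : FG (res G T) i (m₁ (n + 4 * g + 1)) (m₂ (n + 4 * g + 1)) (n + 4 * g + 1) :=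
      h2 α n G T i _ _ _ (hF (n + 4 * g + 1) i hsi)
    have hctx : CtG (res G T) i S (m₁ (n + 4 * g + 1)) (m₂ (n + 4 * g + 1)) (n + 4 * g + 1)
        (M g) := by
      refine ⟨hFG, hM1, hS, ?_⟩
      intro J hJ hJI hin hout
      obtain ⟨r, A, B, χ, hr, hPR⟩ := hMg α G T i S J hi hC hL hJ hJI hin hout
      rcases hPR with hP | ⟨hR, hLv⟩
      · exact absurd (subP h6 (by omega) hP) (hFG.prs r A B χ hr)
      · exact ⟨r, A, B, χ, hr, subR h6 (by omega) hR, subL (by omega) hLv⟩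
    exact absurd (h4 α n (res G T) i S _ _ _ _ hctx) (not_lt.mpr hcard)
  · have hcard' : 8 * M g ≤ S.card := hcard
    have hnT : ∀ j ∈ T, ¬ st j := fun j hj hj' => hsi (hs ⟨j, hj, hj'⟩)
    obtain ⟨t, ht⟩ := h5 α n G i S (M g) hS hM1 (by omega)
    have hSJ : S ∩ (Finset.univ.filter fun x => G.c x = i ∧ G.ρ x ≤ t) =
        S.filter fun x => G.ρ x ≤ t := by
      ext x
      simp only [Finset.mem_inter, Finset.mem_filter, Finset.mem_univ, true_and]
      constructor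
      · rintro ⟨hx, -, hxt⟩
        exact ⟨hx, hxt⟩
      · rintro ⟨hx, hxt⟩
        exact ⟨hx, hS x hx, hxt⟩
    have hin : (S ∩ (Finset.univ.filter fun x => G.c x = i ∧ G.ρ x ≤ t)).card = M g := by
      rw [hSJ, ht]
    have hout := Finset.card_sdiff_add_card_inter S
      (Finset.univ.filter fun x => G.c x = i ∧ G.ρ x ≤ t)
    obtain ⟨r, A, B, χ, hr, hPR⟩ := hMg α G T i S
      (Finset.univ.filter fun x => G.c x = i ∧ G.ρ x ≤ t) hi hC hL
      (fun x hx => ((Finset.mem_filter.mp hx).2).1) (by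
        intro x hx z hz y hyx _ hyz
        simp only [Finset.mem_filter, Finset.mem_univ, true_and] at hx hz ⊢
        exact ⟨hyx.trans hx.1, hyz.trans hz.2⟩) hin.ge (by omega)
    have htr : VTr (res G T) i (m₁ (n + 4 * g + 1) + m₂ (n + 4 * g + 1) + 1) r A B χ := by
      rcases hPR with hP | ⟨hR, -⟩
      · exact hP.tr
      · exact hR.tr
    obtain ⟨hG, hT⟩ := (h1 α n G T).2.2 i _ r A B χ htr
    have hχ : ∀ j ≤ r, ¬ st (χ j) := fun j hj => hnT _ (hT (by omega) j hj)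
    obtain ⟨hnP, hnR⟩ := hst (n + 4 * g + 1) i r A B χ hr hχ
    rcases hPR with hP | ⟨hR, -⟩
    · exact hnP (subP h6 (by omega) (⟨hG, hP.mon, hP.bet⟩ : Ps G i _ r A B χ))
    · exact hnR (subR h6 (by omega) (⟨hG, hR.mon, hR.bet⟩ : Rb G i _ r A B χ))

end Pool.Agent.MPd439b2.BT
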