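import Pool.Agent.Lib.MP_d439b2_co.BT.SpecA

/-!
# MP_d439b2_co, BT/Cat: caterpillar layouts (helper7)
-/

set_option autoImplicit false

namespace Pool.Agent.MPd439b2.BT

open Pool.Agent.MPd439b2

theorem cat : S_Cat := by
  intro V _ G A K hK hA
  have h : ∀ B : Set V, B ⊆ A → Lay G K B := by
    intro B
    refine Set.Finite.induction_on B (Set.toFinite B) (fun _ => Lay.empty) ?_
    intro a s has _ ih hs
    exact Lay.insert hK (ih ((Set.subset_insert a s).trans hs)) has (hA _ hs)
  exact h A subset_rfl

end Pool.Agent.MPd439b2.BT
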