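import Pool.Agent.Lib.MP_d439b2_co.BT.SpecA

/-!
# MP_d439b2_co, BT: exchange of half relations at a twin rail
-/

set_option autoImplicit false

namespace Pool.Agent.MPd439b2.BT

open Pool.Agent.MPd439b2 Pool.Agent.MPd439b2.X2

private theorem cfg_bool {a b : Bool} {P Q : Prop} (h1 : P ↔ a = true) (h2 : Q ↔ b = true)
    (h : ¬ (P ↔ Q)) : a ≠ b := by
  rintro rfl
  exact h (h1.trans h2.symm)

/-- A twin rail `v` with an exceptional matching to `z` is a co-matching. -/
private theorem cfg_com {V : Type} {n b m M : ℕ} {S : St V n} {G : SimpleGraph V} {p : V} {i : Fin n}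
    (z v : ℕ → V) (f1 f2 f3 f4 f5 : Bool) (hb : ExcB S G b) (hs : NoSp G m) (hM : m + 3 ≤ M)
    (hp : ∀ k < M, bl S (v k) = p) (hi : ∀ k < M, S.c (z k) = i)
    (he : ∀ k < M, Exc S G (v k) (z k)) (hne : ∀ k < M, ∀ l < M, k ≠ l → ¬ Exc S G (v k) (z l))
    (hv : ∀ k < M, ∀ l < M, k ≠ l → v k ≠ v l) (hz : ∀ k < M, ∀ l < M, k ≠ l → z k ≠ z l)
    (hvz : ∀ k < M, ∀ l < M, v k ≠ z l)
    (h1 : ∀ k l, k < l → l < M → (G.Adj (z k) (v l) ↔ f1 = true))
    (h2 : ∀ k l, k < l → l < M → (G.Adj (v k) (z l) ↔ f2 = true))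
    (h3 : ∀ k < M, (G.Adj (z k) (v k) ↔ f3 = true))
    (h4 : ∀ k l, k < l → l < M → (G.Adj (z k) (z l) ↔ f4 = true))
    (h5 : ∀ k l, k < l → l < M → (G.Adj (v k) (v l) ↔ f5 = true)) :
    f1 = true ∧ f2 = true ∧ f3 = false ∧ f4 ≠ f5 := by
  have hcls : ∀ k < M, ∀ l < M, S.c (v k) ≠ S.c (z l) := by
    intro k hk l hl
    have e1 : S.c (v k) = S.c (v 0) := by
      rw [← c_bl S (v k), ← c_bl S (v 0), hp k hk, hp 0 (by omega)]
    have e2 : S.c (v 0) ≠ S.c (z 0) := hb.cls (he 0 (by omega))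
    rw [e1, hi l hl, ← hi 0 (by omega)]
    exact e2
  -- the adjacency in `S.G` does not depend on the element of the twin rail
  have hS : ∀ k < M, ∀ l < M, (S.G.Adj (v k) (z l) ↔ S.G.Adj p (z l)) := by
    intro k hk l hl
    rw [← adj_bl_left (hcls k hk l hl), hp k hk]
  have hG : ∀ k < M, ∀ l < M, k ≠ l → (G.Adj (v k) (z l) ↔ S.G.Adj p (z l)) := by
    intro k hk l hl hkl
    rw [← hS k hk l hl]
    exact (not_not.1 (hne k hk l hl hkl)).symm
  have hD : ∀ k < M, ¬ (G.Adj (v k) (z k) ↔ S.G.Adj p (z k)) := by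
    intro k hk h
    refine he k hk ?_
    rw [hS k hk k hk, h]
  have a1 : (S.G.Adj p (z 1) ↔ f2 = true) := by
    rw [← hG 0 (by omega) 1 (by omega) (by omega)]
    exact h2 0 1 (by omega) (by omega)
  have a2 : (S.G.Adj p (z 1) ↔ f1 = true) := by
    rw [← hG 2 (by omega) 1 (by omega) (by omega), SimpleGraph.adj_comm]
    exact h1 1 2 (by omega) (by omega)
  have a3 : ¬ (f3 = true ↔ f2 = true) := by
    rw [← a1, ← h3 1 (by omega), SimpleGraph.adj_comm]
    exact hD 1 (by omega)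
  have a4 : (f1 = true ↔ f2 = true) := a2.symm.trans a1
  -- types
  have t4 : (S.t (S.c (z 0)) = true ↔ f4 = true) := by
    rw [← h4 0 1 (by omega) (by omega), ← S.typ (z 0) (z 1) (hz 0 (by omega) 1 (by omega) (by omega))
      ((hi 0 (by omega)).trans (hi 1 (by omega)).symm)]
    by_contra hcon
    exact hb.cls (x := z 0) (y := z 1) hcon ((hi 0 (by omega)).trans (hi 1 (by omega)).symm)
  have cv : S.c (v 0) = S.c (v 1) := by
    rw [← c_bl S (v 0), ← c_bl S (v 1), hp 0 (by omega), hp 1 (by omega)]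
  have t5 : (S.t (S.c (v 0)) = true ↔ f5 = true) := by
    rw [← h5 0 1 (by omega) (by omega),
      ← S.typ (v 0) (v 1) (hv 0 (by omega) 1 (by omega) (by omega)) cv]
    by_contra hcon
    exact hb.cls (x := v 0) (y := v 1) hcon cv
  have h45 : f4 ≠ f5 := by
    rintro rfl
    refine hb.typ (v 0) (z 0) (he 0 (by omega)) ?_
    have := t5.trans t4.symm
    cases hc1 : S.t (S.c (v 0)) <;> cases hc2 : S.t (S.c (z 0)) <;> simp_all
  have hf2 : f2 = true := by
    by_contra hf2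
    have hf2' : f2 = false := by simpa using hf2
    have hf1 : f1 = false := by
      rw [hf2'] at a4
      simpa using a4
    have hf3 : f3 = true := by
      rw [hf2'] at a3
      simpa using a3
    have k1 : ∀ k < m, ∀ l < m, k ≠ l → (G.Adj (z k) (z l) ↔ f4 = true) := by
      intro k hk l hl hkl
      rcases lt_or_gt_of_ne hkl with h | h
      · exact h4 k l h (by omega)
      · rw [SimpleGraph.adj_comm]
        exact h4 l k h (by omega)
    have k2 : ∀ k < m, ∀ l < m, k ≠ l → (G.Adj (v k) (v l) ↔ f5 = true) := by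
      intro k hk l hl hkl
      rcases lt_or_gt_of_ne hkl with h | h
      · exact h5 k l h (by omega)
      · rw [SimpleGraph.adj_comm]
        exact h5 l k h (by omega)
    have k3 : ∀ k < m, ∀ l < m, (G.Adj (v k) (z l) ↔ k = l) := by
      intro k hk l hl
      rcases lt_trichotomy k l with h | h | h
      · rw [h2 k l h (by omega), hf2']
        simp [h.ne]
      · subst h
        rw [SimpleGraph.adj_comm, h3 k (by omega), hf3]
        simp
      · rw [SimpleGraph.adj_comm, h1 l k h (by omega), hf1]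
        simp [h.ne']
    cases hc : f4
    · have hc5 : f5 = true := by
        cases h5' : f5
        · exact absurd (hc.trans h5'.symm) h45
        · rfl
      refine hs v z ⟨fun k hk l hl => hvz k (by omega) l (by omega), fun k hk l hl hkl =>
        ⟨hv k (by omega) l (by omega) hkl, hz k (by omega) l (by omega) hkl⟩,
        fun k hk l hl hkl => ⟨(k2 k hk l hl hkl).2 hc5, fun h => ?_⟩, k3⟩
      have := (k1 k hk l hl hkl).1 h
      rw [hc] at this
      exact absurd this (by decide)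
    · have hc5 : f5 = false := by
        cases h5' : f5
        · rfl
        · exact absurd (hc.trans h5'.symm) h45
      refine hs z v ⟨fun k hk l hl => (hvz l (by omega) k (by omega)).symm, fun k hk l hl hkl =>
        ⟨hz k (by omega) l (by omega) hkl, hv k (by omega) l (by omega) hkl⟩,
        fun k hk l hl hkl => ⟨(k1 k hk l hl hkl).2 hc, fun h => ?_⟩, fun k hk l hl => ?_⟩
      · have := (k2 k hk l hl hkl).1 h
        rw [hc5] at this
        exact absurd this (by decide)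
      · rw [SimpleGraph.adj_comm, k3 l hl k hk]
        exact eq_comm
  refine ⟨a4.2 hf2, hf2, ?_, h45⟩
  rw [hf2] at a3
  simpa using a3

/-- The new rails and their bits. -/
private theorem cfg_hra {V : Type} {n M : ℕ} {S : St V n} {G : SimpleGraph V} {X : ℕ → ℕ → V}
    {F : ℕ → Bool} (h : HM S G 4 (2 * M + 2) X F)
    (hd : ∀ k < 2 * M + 2, X 0 k ≠ X 1 k ∧ X 1 k ≠ X 2 k ∧ X 0 k ≠ X 2 k) :
    HRa G 4 M (fun i k => X i (2 * k + if i = 3 then 1 else 0))
      (fun c => if 256 ≤ c ∧ c % 16 = 3 then F (c - 256) else F c) where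
  dis := by
    intro i hi j hj k hk l hl hor
    by_cases hkl : k = l
    · subst hkl
      have hij : i ≠ j := by
        rcases hor with h' | h'
        · exact h'
        · exact absurd rfl h'
      by_cases h3 : i = 3 ∨ j = 3
      · refine h.ne i hi j hj _ ?_ _ ?_ ?_ <;> split_ifs <;> omega
      · push Not at h3
        simp only [if_neg h3.1, if_neg h3.2]
        obtain ⟨g1, g2, g3⟩ := hd (2 * k + 0) (by omega)
        have hi' : i = 0 ∨ i = 1 ∨ i = 2 := by omega
        have hj' : j = 0 ∨ j = 1 ∨ j = 2 := by omega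
        rcases hi' with rfl | rfl | rfl <;> rcases hj' with rfl | rfl | rfl
        · exact absurd rfl hij
        · exact g1
        · exact g3
        · exact g1.symm
        · exact absurd rfl hij
        · exact g2
        · exact g3.symm
        · exact g2.symm
        · exact absurd rfl hij
    · refine h.ne i hi j hj _ ?_ _ ?_ ?_ <;> split_ifs <;> omega
  rel := by
    intro i hi j hj k l hkl hl
    have e1 : (if 256 ≤ 16 * i + j ∧ (16 * i + j) % 16 = 3 then F (16 * i + j - 256)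
        else F (16 * i + j)) = F (16 * i + j) := if_neg (by omega)
    rw [e1]
    refine h.rel i hi j hj _ _ ?_ ?_ <;> split_ifs <;> omega
  dg := by
    intro i hi j hj hij k hk
    by_cases h3 : j = 3
    · subst h3
      have e0 : 256 + 16 * i + 3 - 256 = 16 * i + 3 := by omega
      have e1 : (if 256 ≤ 256 + 16 * i + 3 ∧ (256 + 16 * i + 3) % 16 = 3 then
          F (256 + 16 * i + 3 - 256) else F (256 + 16 * i + 3)) = F (16 * i + 3) := by
        rw [if_pos (by omega), e0]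
      rw [e1]
      refine h.rel i hi 3 hj _ _ ?_ ?_ <;> split_ifs <;> omega
    · have e1 : (if 256 ≤ 256 + 16 * i + j ∧ (256 + 16 * i + j) % 16 = 3 then
          F (256 + 16 * i + j - 256) else F (256 + 16 * i + j)) = F (256 + 16 * i + j) :=
        if_neg (by omega)
      rw [e1]
      have hi3 : i ≠ 3 := by omega
      simp only [if_neg h3, if_neg hi3]
      exact h.dg i hi j hj hij _ (by omega)

/-- The core of the argument, for homogeneous rails. -/
private theorem cfg_core {V : Type} {n b m M : ℕ} {S : St V n} {G : SimpleGraph V}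
    {X : ℕ → ℕ → V} {F : ℕ → Bool} {p : V} {i i' j : Fin n} (hb : ExcB S G b) (hf : FF2 G)
    (hs : NoSp G m) (hM : m + 16 ≤ M) (h : HM S G 4 (2 * M + 2) X F)
    (h1 : ∀ k < 2 * M + 2, bl S (X 1 k) = p ∧ Exc S G (X 1 k) (X 2 k) ∧ Exc S G (X 1 k) (X 0 k) ∧
      X 0 k ≠ X 2 k)
    (h0 : ∀ k < 2 * M + 2, S.c (X 0 k) = i ∧ S.c (X 2 k) = i' ∧ S.c (X 3 k) = j)
    (ha : ∀ k < 2 * M + 2, ∀ l < 2 * M + 2, (S.G.Adj (X 0 k) (X 3 l) ↔ (k ≤ l ↔ S.s i j = true))) :
    i' ≠ j ∧ ∀ k < M, ∀ l < M,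
      (S.G.Adj (X 2 (2 * k)) (X 3 (2 * l + 1)) ↔ (k ≤ l ↔ S.s i j = true)) := by
  have hd : ∀ k < 2 * M + 2, X 0 k ≠ X 1 k ∧ X 1 k ≠ X 2 k ∧ X 0 k ≠ X 2 k := by
    intro k hk
    obtain ⟨g1, g2, g3, g4⟩ := h1 k hk
    refine ⟨fun h' => hb.cls g3 (by rw [h']), fun h' => hb.cls g2 (by rw [← h']), g4⟩
  have hR := cfg_hra h hd
  have hex : ∀ i < 4, ∀ j < 4, ∀ k < 2 * M + 2, ∀ l < 2 * M + 2, k ≠ l →
      (S.G.Adj (X i k) (X j l) ↔ G.Adj (X i k) (X j l)) := fun i hi j hj k hk l hl hkl =>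
    not_not.1 (h.ex i hi j hj k hk l hl hkl)
  obtain ⟨u1, u2, u3, u4⟩ := cfg_com (i := i) (X 0) (X 1) (F 1) (F 16) (F 257) (F 0) (F 17) hb hs
    (by omega : m + 3 ≤ 2 * M + 2) (fun k hk => (h1 k hk).1) (fun k hk => (h0 k hk).1)
    (fun k hk => (h1 k hk).2.2.1)
    (fun k hk l hl hkl => h.ex 1 (by omega) 0 (by omega) k hk l hl hkl)
    (fun k hk l hl hkl => h.ne 1 (by omega) 1 (by omega) k hk l hl hkl)
    (fun k hk l hl hkl => h.ne 0 (by omega) 0 (by omega) k hk l hl hkl)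
    (fun k hk l hl => by
      by_cases hkl : k = l
      · subst hkl
        exact (hd k hk).1.symm
      · exact h.ne 1 (by omega) 0 (by omega) k hk l hl hkl)
    (fun k l hkl hl => h.rel 0 (by omega) 1 (by omega) k l hkl hl)
    (fun k l hkl hl => h.rel 1 (by omega) 0 (by omega) k l hkl hl)
    (fun k hk => h.dg 0 (by omega) 1 (by omega) (by omega) k hk)
    (fun k l hkl hl => h.rel 0 (by omega) 0 (by omega) k l hkl hl)
    (fun k l hkl hl => h.rel 1 (by omega) 1 (by omega) k l hkl hl)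
  obtain ⟨w1, w2, w3, w4⟩ := cfg_com (i := i') (X 2) (X 1) (F 33) (F 18) (F 274) (F 34) (F 17) hb hs
    (by omega : m + 3 ≤ 2 * M + 2) (fun k hk => (h1 k hk).1) (fun k hk => (h0 k hk).2.1)
    (fun k hk => (h1 k hk).2.1)
    (fun k hk l hl hkl => h.ex 1 (by omega) 2 (by omega) k hk l hl hkl)
    (fun k hk l hl hkl => h.ne 1 (by omega) 1 (by omega) k hk l hl hkl)
    (fun k hk l hl hkl => h.ne 2 (by omega) 2 (by omega) k hk l hl hkl)
    (fun k hk l hl => by
      by_cases hkl : k = l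
      · subst hkl
        exact (hd k hk).2.1
      · exact h.ne 1 (by omega) 2 (by omega) k hk l hl hkl)
    (fun k l hkl hl => h.rel 2 (by omega) 1 (by omega) k l hkl hl)
    (fun k l hkl hl => h.rel 1 (by omega) 2 (by omega) k l hkl hl)
    (fun k hk => by
      rw [SimpleGraph.adj_comm]
      exact h.dg 1 (by omega) 2 (by omega) (by omega) k hk)
    (fun k l hkl hl => h.rel 2 (by omega) 2 (by omega) k l hkl hl)
    (fun k l hkl hl => h.rel 1 (by omega) 1 (by omega) k l hkl hl)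
  -- the bits of the half relation
  have b3 : F 3 = true ↔ S.s i j = true := by
    rw [← h.rel 0 (by omega) 3 (by omega) 0 1 (by omega) (by omega),
      ← hex 0 (by omega) 3 (by omega) 0 (by omega) 1 (by omega) (by omega),
      ha 0 (by omega) 1 (by omega)]
    simp
  have b48 : F 48 = true ↔ ¬ S.s i j = true := by
    rw [← h.rel 3 (by omega) 0 (by omega) 0 1 (by omega) (by omega), SimpleGraph.adj_comm,
      ← hex 0 (by omega) 3 (by omega) 1 (by omega) 0 (by omega) (by omega),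
      ha 1 (by omega) 0 (by omega)]
    simp
  have hne : F 3 ≠ F 48 := by
    intro h'
    rw [h', b48] at b3
    exact not_iff_self b3
  have hR16 : HRa G 4 16 (fun i k => X i (2 * k + if i = 3 then 1 else 0))
      (fun c => if 256 ≤ c ∧ c % 16 = 3 then F (c - 256) else F c) :=
    ⟨fun i hi j hj k hk l hl => hR.dis i hi j hj k (by omega) l (by omega),
      fun i hi j hj k l hkl hl => hR.rel i hi j hj k l hkl (by omega),
      fun i hi j hj hij k hk => hR.dg i hi j hj hij k (by omega)⟩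
  obtain ⟨q1, q2⟩ := hf _ _ hR16 ⟨u1, u2, u3, u4⟩ ⟨w2, w1, w3, w4.symm⟩ hne
  have q1' : F 35 = F 3 := q1
  have q2' : F 50 = F 48 := q2
  have hgw : ∀ k < M, ∀ l < M,
      (S.G.Adj (X 2 (2 * k)) (X 3 (2 * l + 1)) ↔ (k ≤ l ↔ S.s i j = true)) := by
    intro k hk l hl
    rw [hex 2 (by omega) 3 (by omega) (2 * k) (by omega) (2 * l + 1) (by omega) (by omega)]
    by_cases hkl : k ≤ l
    · rw [h.rel 2 (by omega) 3 (by omega) (2 * k) (2 * l + 1) (by omega) (by omega)]
      have e1 : F (16 * 2 + 3) = F 3 := q1'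
      rw [e1, b3]
      simp [hkl]
    · rw [SimpleGraph.adj_comm,
        h.rel 3 (by omega) 2 (by omega) (2 * l + 1) (2 * k) (by omega) (by omega)]
      have e1 : F (16 * 3 + 2) = F 48 := q2'
      rw [e1, b48]
      simp [hkl]
  refine ⟨?_, hgw⟩
  rintro rfl
  have c1 : ∀ k < M, ∀ l < M, (S.G.Adj (X 2 (2 * k)) (X 3 (2 * l + 1)) ↔ S.t i' = true) := by
    intro k hk l hl
    rw [S.typ _ _ (h.ne 2 (by omega) 3 (by omega) (2 * k) (by omega) (2 * l + 1) (by omega)
      (by omega)) (by rw [(h0 _ (by omega)).2.1, (h0 _ (by omega)).2.2]),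
      (h0 _ (by omega)).2.1]
  have d1 := (hgw 0 (by omega) 0 (by omega)).symm.trans (c1 0 (by omega) 0 (by omega))
  have d2 := (hgw 1 (by omega) 0 (by omega)).symm.trans (c1 1 (by omega) 0 (by omega))
  have d3 := d1.trans d2.symm
  revert d3
  cases S.s i i' <;> simp

theorem cfg (hH : S_Hom) (hS : S_Sep) : S_Cfg := by
  classical
  intro n b m m'
  obtain ⟨M₂, hM₂⟩ := hH 4 (2 * (m' + m + 16) + 2) b (by omega)
  obtain ⟨M₁, hM₁⟩ := hS n M₂
  refine ⟨n * n * M₁ + 1, ?_⟩
  intro V _ S G p v w z hb hf hs h1 h2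
  -- pigeonhole
  obtain ⟨y, _, hy⟩ := Finset.exists_lt_card_fiber_of_mul_lt_card_of_maps_to
    (s := Finset.range (n * n * M₁ + 1)) (t := (Finset.univ : Finset (Fin n × Fin n)))
    (f := fun k => (S.c (z k), S.c (w k))) (n := M₁) (fun k _ => Finset.mem_univ _)
    (by
      rw [Finset.card_univ, Fintype.card_prod, Fintype.card_fin, Finset.card_range]
      omega)
  obtain ⟨i, i'⟩ := y
  set I := (Finset.range (n * n * M₁ + 1)).filter fun k => (S.c (z k), S.c (w k)) = (i, i') with hI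
  have hκ₁ : ∃ κ : ℕ → ℕ, (∀ k < M₁, κ k ∈ I) ∧ ∀ k < M₁, ∀ l < M₁, k ≠ l → κ k ≠ κ l := by
    refine ⟨fun k => if hk : k < I.card then (I.equivFin.symm ⟨k, hk⟩ : ℕ) else 0, ?_, ?_⟩
    · intro k hk
      have hk' : k < I.card := by omega
      simp only [dif_pos hk']
      exact (I.equivFin.symm ⟨k, hk'⟩).2
    · intro k hk l hl hkl he
      have hk' : k < I.card := by omega
      have hl' : l < I.card := by omega
      simp only [dif_pos hk', dif_pos hl'] at he
      have h3 := I.equivFin.symm.injective (Subtype.ext he)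
      exact hkl (congrArg Fin.val h3)
  obtain ⟨κ₁, hκ₁I, hκ₁inj⟩ := hκ₁
  have hκ₁' : ∀ k < M₁, κ₁ k < n * n * M₁ + 1 ∧ S.c (z (κ₁ k)) = i ∧ S.c (w (κ₁ k)) = i' := by
    intro k hk
    have h3 := hκ₁I k hk
    rw [hI, Finset.mem_filter, Finset.mem_range, Prod.mk.injEq] at h3
    exact h3
  -- separators
  obtain ⟨κ₂, a, j, hji, g1, g2, g3, g4⟩ := hM₁ V S i (fun k => z (κ₁ k))
    (fun k hk => (hκ₁' k hk).2.1)
    (fun k hk l hl hkl => (h2 _ (hκ₁' k hk).1 _ (hκ₁' l hl).1 (hκ₁inj k hk l hl hkl)).2.2)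
  have hainj : ∀ k l, k < l → l < M₂ → a k ≠ a l := by
    intro k l hkl hl he
    have e1 := g4 l hl k (by omega)
    have e2 := g4 l hl l hl
    rw [he, e2] at e1
    have e3 : ¬ l ≤ k := by omega
    revert e1
    cases S.s i j <;> simp [e3]
  -- homogeneous rails
  obtain ⟨x, hx⟩ : ∃ x : ℕ → ℕ → V, x = fun r k => if r = 0 then z (κ₁ (κ₂ k)) else
    if r = 1 then v (κ₁ (κ₂ k)) else if r = 2 then w (κ₁ (κ₂ k)) else a k := ⟨_, rfl⟩
  have x0 : ∀ k, x 0 k = z (κ₁ (κ₂ k)) := fun k => by rw [hx]; rfl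
  have x1 : ∀ k, x 1 k = v (κ₁ (κ₂ k)) := fun k => by rw [hx]; rfl
  have x2 : ∀ k, x 2 k = w (κ₁ (κ₂ k)) := fun k => by rw [hx]; rfl
  have x3 : ∀ k, x 3 k = a k := fun k => by rw [hx]; rfl
  have hK : ∀ k < M₂, κ₁ (κ₂ k) < n * n * M₁ + 1 := fun k hk => (hκ₁' _ (g1 k hk)).1
  have hKinj : ∀ k < M₂, ∀ l < M₂, k ≠ l → κ₁ (κ₂ k) ≠ κ₁ (κ₂ l) := fun k hk l hl hkl =>
    hκ₁inj _ (g1 k hk) _ (g1 l hl) (g2 k hk l hl hkl)
  obtain ⟨κ₃, F, g5, g6, g7⟩ := hM₂ V n S G x hb (by
    intro r hr k hk l hl hkl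
    obtain ⟨q1, q2, q3⟩ := h2 _ (hK k hk) _ (hK l hl) (hKinj k hk l hl hkl)
    have hr' : r = 0 ∨ r = 1 ∨ r = 2 ∨ r = 3 := by omega
    rcases hr' with rfl | rfl | rfl | rfl
    · rw [x0, x0]
      exact fun he => q3 (by rw [he])
    · rw [x1, x1]
      exact q1
    · rw [x2, x2]
      exact q2
    · rw [x3, x3]
      rcases lt_or_gt_of_ne hkl with h' | h'
      · exact hainj k l h' hl
      · exact (hainj l k h' hk).symm)
  have hle : ∀ k < 2 * (m' + m + 16) + 2, ∀ l < 2 * (m' + m + 16) + 2, (κ₃ k ≤ κ₃ l ↔ k ≤ l) := by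
    intro k hk l hl
    constructor
    · intro h3
      by_contra hcon
      have := g5 l k (by omega) hk
      omega
    · intro h3
      rcases Nat.lt_or_ge k l with h4 | h4
      · exact (g5 k l h4 hl).le
      · have : k = l := by omega
        rw [this]
  obtain ⟨r1, r2⟩ := cfg_core (M := m' + m + 16) (p := p) (i := i) (i' := i') (j := j) hb hf hs
    (by omega) g7
    (fun k hk => by
      have h3 := h1 _ (hK _ (g6 k hk))
      simp only [x0, x1, x2]
      exact ⟨h3.1, h3.2.1, h3.2.2.1, h3.2.2.2⟩)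
    (fun k hk => by
      have h3 := hκ₁' _ (g1 _ (g6 k hk))
      simp only [x0, x2, x3]
      exact ⟨h3.2.1, h3.2.2, g3 _ (g6 k hk)⟩)
    (fun k hk l hl => by
      simp only [x0, x3]
      rw [g4 _ (g6 k hk) _ (g6 l hl), hle k hk l hl])
  refine ⟨fun k => κ₁ (κ₂ (κ₃ (2 * k))), fun k => a (κ₃ (2 * k + 1)), i, i', j, hji.symm, r1,
    fun k hk => hK _ (g6 _ (by omega)), fun k hk => ?_, fun k hk l hl => ⟨?_, ?_⟩⟩
  · have h3 := hκ₁' _ (g1 _ (g6 (2 * k) (by omega)))
    exact ⟨h3.2.1, h3.2.2, g3 _ (g6 _ (by omega))⟩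
  · have h3 := g4 _ (g6 (2 * k) (by omega)) _ (g6 (2 * l + 1) (by omega))
    refine h3.trans ?_
    rw [hle _ (by omega) _ (by omega)]
    have e1 : 2 * k ≤ 2 * l + 1 ↔ k ≤ l := by omega
    rw [e1]
  · have h3 := r2 k (by omega) l (by omega)
    simp only [x2, x3] at h3
    exact h3

end Pool.Agent.MPd439b2.BT
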