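import Pool.Agent.Lib.MP_d439b2_co.BT.SpecB

/-!
# MP_d439b2_co, BT, Core: the core argument (helper69)
-/

set_option autoImplicit false

namespace Pool.Agent.MPd439b2.BT

open Pool.Agent.MPd439b2
open Pool.Agent.MPd439b2.VX

/-- The largest right end of a small good arc which starts before `t`. -/
private theorem core_top {α : Type} [Fintype α] [DecidableEq α] {n : ℕ} (G : BG α n) (i : Fin n)
    (S : Finset α) (M : ℕ) (AA : Fin n → α → α → Prop) (t : ℕ) :
    ∃ t', t ≤ t' ∧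
      (t' = t ∨ ∃ a b, G.c a = i ∧ G.c b = i ∧ AA i a b ∧ G.ρ a ≤ t ∧ G.ρ b = t' ∧
        (S.filter fun x => G.ρ a ≤ G.ρ x ∧ G.ρ x ≤ G.ρ b).card < M) ∧
      ∀ a b, G.c a = i → G.c b = i → AA i a b → G.ρ a ≤ t → t < G.ρ b →
        (S.filter fun x => G.ρ a ≤ G.ρ x ∧ G.ρ x ≤ G.ρ b).card < M → G.ρ b ≤ t' := by
  classical
  set U : Finset ℕ := insert t ((Finset.univ.filter fun p : α × α =>
    G.c p.1 = i ∧ G.c p.2 = i ∧ AA i p.1 p.2 ∧ G.ρ p.1 ≤ t ∧ t < G.ρ p.2 ∧
      (S.filter fun x => G.ρ p.1 ≤ G.ρ x ∧ G.ρ x ≤ G.ρ p.2).card < M).image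
        fun p => G.ρ p.2) with hU
  have hne : U.Nonempty := ⟨t, Finset.mem_insert_self _ _⟩
  obtain ⟨w, hw⟩ : ∃ w, w = U.max' hne := ⟨_, rfl⟩
  have hwU : w ∈ U := hw ▸ Finset.max'_mem U hne
  have hmax : ∀ u ∈ U, u ≤ w := fun u hu => hw ▸ Finset.le_max' U u hu
  refine ⟨w, hmax t (Finset.mem_insert_self _ _), ?_, ?_⟩
  · rw [hU, Finset.mem_insert, Finset.mem_image] at hwU
    rcases hwU with h | ⟨p, hp, hpe⟩
    · exact Or.inl h
    · rw [Finset.mem_filter] at hp
      obtain ⟨-, q1, q2, q3, q4, -, q6⟩ := hp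
      exact Or.inr ⟨p.1, p.2, q1, q2, q3, q4, hpe, q6⟩
  · intro a b ha hb hAA hat htb hc
    apply hmax
    rw [hU, Finset.mem_insert, Finset.mem_image]
    refine Or.inr ⟨(a, b), ?_, rfl⟩
    rw [Finset.mem_filter]
    exact ⟨Finset.mem_univ _, ha, hb, hAA, hat, htb, hc⟩

/-- Few elements between `t` and the top. -/
private theorem core_few {α : Type} {n : ℕ} (G : BG α n) (i : Fin n)
    (S : Finset α) (M : ℕ) (AA : Fin n → α → α → Prop) (t t' : ℕ) (hM : 1 ≤ M)
    (h : t' = t ∨ ∃ a b, G.c a = i ∧ G.c b = i ∧ AA i a b ∧ G.ρ a ≤ t ∧ G.ρ b = t' ∧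
        (S.filter fun x => G.ρ a ≤ G.ρ x ∧ G.ρ x ≤ G.ρ b).card < M) :
    (S.filter fun x => t < G.ρ x ∧ G.ρ x ≤ t').card < M := by
  rcases h with h | ⟨a, b, -, -, -, h1, h2, h3⟩
  · have e : (S.filter fun x => t < G.ρ x ∧ G.ρ x ≤ t') = ∅ := by
      apply Finset.filter_false_of_mem
      intro x _ hx
      omega
    rw [e, Finset.card_empty]
    omega
  · refine lt_of_le_of_lt (Finset.card_le_card ?_) h3
    intro x hx
    rw [Finset.mem_filter] at hx ⊢
    exact ⟨hx.1, by omega, by omega⟩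

theorem core (h1 : S_SubT) (h2 : S_Arc) (h3 : S_Thr) : S_Core := by
  intro α _ _ n G i S m₀ R M AA hC
  by_contra hcon
  push Not at hcon
  have hM := hC.pos
  obtain ⟨p, hp⟩ := h3 α n G i S (2 * M) hC.cS (by omega) (by omega)
  obtain ⟨q, hq⟩ := h3 α n G i S (6 * M) hC.cS (by omega) (by omega)
  obtain ⟨p', hpp', hpt, hpm⟩ := core_top G i S M AA p
  obtain ⟨q', hqq', hqt, hqm⟩ := core_top G i S M AA q
  have fp := core_few G i S M AA p p' hM hpt
  have fq := core_few G i S M AA q q' hM hqt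
  classical
  have hpq : p < q := by
    by_contra h
    push Not at h
    have h4 : (S.filter fun x => G.ρ x ≤ q).card ≤ (S.filter fun x => G.ρ x ≤ p).card := by
      apply Finset.card_le_card
      intro x hx
      rw [Finset.mem_filter] at hx ⊢
      exact ⟨hx.1, by omega⟩
    omega
  set J : Finset α := Finset.univ.filter fun x => G.c x = i ∧ p' < G.ρ x ∧ G.ρ x ≤ q' with hJ
  have hmem : ∀ x, x ∈ J ↔ G.c x = i ∧ p' < G.ρ x ∧ G.ρ x ≤ q' := by
    intro x
    rw [hJ, Finset.mem_filter]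
    exact ⟨fun h => h.2, fun h => ⟨Finset.mem_univ _, h⟩⟩
  have hin : M ≤ (S ∩ J).card := by
    have h4 : (S.filter fun x => G.ρ x ≤ q) ⊆ (S.filter fun x => G.ρ x ≤ p) ∪
        ((S.filter fun x => p < G.ρ x ∧ G.ρ x ≤ p') ∪ (S ∩ J)) := by
      intro x hx
      rw [Finset.mem_filter] at hx
      rw [Finset.mem_union, Finset.mem_union, Finset.mem_filter, Finset.mem_filter,
        Finset.mem_inter, hmem]
      by_cases c1 : G.ρ x ≤ p
      · exact Or.inl ⟨hx.1, c1⟩
      · by_cases c2 : G.ρ x ≤ p'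
        · exact Or.inr (Or.inl ⟨hx.1, by omega, c2⟩)
        · exact Or.inr (Or.inr ⟨hx.1, hC.cS x hx.1, by omega, by omega⟩)
    have h5 := Finset.card_le_card h4
    have h6 := Finset.card_union_le (S.filter fun x => G.ρ x ≤ p)
      ((S.filter fun x => p < G.ρ x ∧ G.ρ x ≤ p') ∪ (S ∩ J))
    have h7 := Finset.card_union_le (S.filter fun x => p < G.ρ x ∧ G.ρ x ≤ p') (S ∩ J)
    omega
  have hout : M ≤ (S \ J).card := by
    have h4 : (S.filter fun x => G.ρ x ≤ p) ⊆ S \ J := by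
      intro x hx
      rw [Finset.mem_filter] at hx
      rw [Finset.mem_sdiff, hmem]
      exact ⟨hx.1, fun h => by omega⟩
    have h5 := Finset.card_le_card h4
    omega
  have hlarge : M ≤ (S.filter fun x => q' < G.ρ x).card := by
    have h4 : S ⊆ (S.filter fun x => G.ρ x ≤ q) ∪
        ((S.filter fun x => q < G.ρ x ∧ G.ρ x ≤ q') ∪ (S.filter fun x => q' < G.ρ x)) := by
      intro x hx
      rw [Finset.mem_union, Finset.mem_union, Finset.mem_filter, Finset.mem_filter,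
        Finset.mem_filter]
      by_cases c1 : G.ρ x ≤ q
      · exact Or.inl ⟨hx, c1⟩
      · by_cases c2 : G.ρ x ≤ q'
        · exact Or.inr (Or.inl ⟨hx, by omega, c2⟩)
        · exact Or.inr (Or.inr ⟨hx, by omega⟩)
    have h5 := Finset.card_le_card h4
    have h6 := Finset.card_union_le (S.filter fun x => G.ρ x ≤ q)
      ((S.filter fun x => q < G.ρ x ∧ G.ρ x ≤ q') ∪ (S.filter fun x => q' < G.ρ x))
    have h7 := Finset.card_union_le (S.filter fun x => q < G.ρ x ∧ G.ρ x ≤ q')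
      (S.filter fun x => q' < G.ρ x)
    omega
  obtain ⟨r, A, B, χ, hr, hRb, hL⟩ := hC.bal J (fun x hx => ((hmem x).mp hx).1) (by
    intro x hx z hz y hc hxy hyz
    rw [hmem] at hx hz ⊢
    exact ⟨hc.trans hx.1, by omega, by omega⟩) hin hout
  have hc0 : ∀ k < 2 * m₀ + 2, G.c (A k 0) = i := fun k hk =>
    (hRb.tr.cA k hk 0 (Nat.zero_le _)).trans hRb.tr.ch0
  have hcr : ∀ k < 2 * m₀ + 2, G.c (A k r) = i := fun k hk =>
    (hRb.tr.cA k hk r (le_refl _)).trans hRb.tr.chr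
  have hfirst := ((h1 α n G i (2 * m₀ + 2) m₀ r A B χ (fun k => k)
    (fun k hk => by omega)).2 (fun k l hkl _ => hkl)).2 hRb
  have hsecond := ((h1 α n G i (2 * m₀ + 2) m₀ r A B χ (fun k => m₀ + k)
    (fun k hk => by omega)).2 (fun k l hkl _ => by omega)).2 hRb
  -- the crossing argument
  have hcross : ∀ t t', t ≤ t' →
      (t' = t ∨ ∃ a b, G.c a = i ∧ G.c b = i ∧ AA i a b ∧ G.ρ a ≤ t ∧ G.ρ b = t' ∧
        (S.filter fun x => G.ρ a ≤ G.ρ x ∧ G.ρ x ≤ G.ρ b).card < M) →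
      (∀ k < 2 * m₀ + 2, G.ρ (A k 0) ≤ t' ∧ t' < G.ρ (A k r)) →
      (∀ k < m₀, G.ρ (A k 0) ≤ t) := by
    intro t t' _ ht hA
    by_contra hno
    push Not at hno
    obtain ⟨k₀, hk₀, hk₀'⟩ := hno
    have hA0 := (hA k₀ (by omega)).1
    rcases ht with ht | ⟨a, b, ha, hb, hAA, hat, hbt, -⟩
    · omega
    · refine hC.fct.crR i r _ _ χ hr hsecond a b hAA ha hb ?_
      intro k hk
      have e1 := (hRb.mon k₀ (m₀ + k) (by omega) (by omega)).1
      have e2 := (hRb.mon (m₀ + k) (m₀ + k + 1) (by omega) (by omega)).1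
      have e3 := (hA (m₀ + k + 1) (by omega)).1
      have e4 := (hA (m₀ + k) (by omega)).2
      refine ⟨?_, ?_, ?_⟩
      · change G.ρ a < G.ρ (A (m₀ + k) 0)
        omega
      · change G.ρ (A (m₀ + k) 0) < G.ρ b
        omega
      · change G.ρ b < G.ρ (A (m₀ + k) r)
        omega
  obtain ⟨k, hk, hgood⟩ := hC.fct.good i r _ _ χ hr hfirst
  have hk' : k < 2 * m₀ + 2 := by omega
  have harc := h2 α n G i S m₀ R M AA hC (A k 0) (A k r) hgood (hc0 k hk') (hcr k hk')
    (hRb.bet k hk' k hk')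
  rcases hL with hL | hL
  · -- to the right
    have hA : ∀ k < 2 * m₀ + 2, G.ρ (A k 0) ≤ q' ∧ q' < G.ρ (A k r) := by
      intro k hk
      have e1 := (hmem _).mp (hL k hk).1
      refine ⟨e1.2.2, ?_⟩
      by_contra hno
      push Not at hno
      have e2 := hRb.bet k hk k hk
      have e3 : A k r ∈ J := (hmem _).mpr ⟨hcr k hk, by omega, hno⟩
      exact lt_irrefl _ ((hL k hk).2 _ e3)
    have hle := hcross q q' hqq' hqt hA k hk
    rcases harc with harc | harc
    · have e4 := hqm (A k 0) (A k r) (hc0 k hk') (hcr k hk') hgood hle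
        (by have := (hA k hk').2; omega) harc
      have := (hA k hk').2
      omega
    · have e4 : (S.filter fun x => G.ρ x ≤ p).card ≤
          (S.filter fun x => ¬ (G.ρ (A k 0) ≤ G.ρ x ∧ G.ρ x ≤ G.ρ (A k r))).card := by
        apply Finset.card_le_card
        intro x hx
        rw [Finset.mem_filter] at hx ⊢
        refine ⟨hx.1, fun h => ?_⟩
        have e1 := (hmem _).mp (hL k hk').1
        omega
      omega
  · -- to the left
    have hA : ∀ k < 2 * m₀ + 2, G.ρ (A k 0) ≤ p' ∧ p' < G.ρ (A k r) := by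
      intro k hk
      have e1 := (hmem _).mp (hL k hk).1
      refine ⟨?_, e1.2.1⟩
      by_contra hno
      push Not at hno
      have e2 := hRb.bet k hk k hk
      have e3 : A k 0 ∈ J := (hmem _).mpr ⟨hc0 k hk, hno, by omega⟩
      exact lt_irrefl _ ((hL k hk).2 _ e3)
    have hle := hcross p p' hpp' hpt hA k hk
    rcases harc with harc | harc
    · have e4 := hpm (A k 0) (A k r) (hc0 k hk') (hcr k hk') hgood hle
        (by have := (hA k hk').2; omega) harc
      have := (hA k hk').2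
      omega
    · have e4 : (S.filter fun x => q' < G.ρ x).card ≤
          (S.filter fun x => ¬ (G.ρ (A k 0) ≤ G.ρ x ∧ G.ρ x ≤ G.ρ (A k r))).card := by
        apply Finset.card_le_card
        intro x hx
        rw [Finset.mem_filter] at hx ⊢
        refine ⟨hx.1, fun h => ?_⟩
        have e1 := (hmem _).mp (hL k hk').1
        omega
      omega

end Pool.Agent.MPd439b2.BT
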