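import Pool.Agent.Lib.MP_d439b2_co.BT.SpecG

/-!
# MP_d439b2_co, BT, CoreG: the core argument with good intervals (helper74, after BT/Core.lean)
-/

set_option autoImplicit false

namespace Pool.Agent.MPd439b2.BT

open Pool.Agent.MPd439b2
open Pool.Agent.MPd439b2.VX

/-- The largest right end of a small good interval which starts at or before `t`. -/
private theorem coreG_top {α : Type} {n : ℕ} (G : BG α n) (i : Fin n)
    (S : Finset α) (m R M Q t : ℕ) (htQ : t ≤ Q) :
    ∃ t', t ≤ t' ∧ t' ≤ Q ∧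
      (t' = t ∨ ∃ l, l ≤ t ∧ Gd G i m R l t' ∧
        (S.filter fun x => l ≤ G.ρ x ∧ G.ρ x < t').card < M) ∧
      ∀ l u, l ≤ t → t < u → u ≤ Q → Gd G i m R l u →
        (S.filter fun x => l ≤ G.ρ x ∧ G.ρ x < u).card < M → u ≤ t' := by
  classical
  set U : Finset ℕ := (Finset.range (Q + 1)).filter fun u => u = t ∨ (t < u ∧ ∃ l, l ≤ t ∧
    Gd G i m R l u ∧ (S.filter fun x => l ≤ G.ρ x ∧ G.ρ x < u).card < M) with hU
  have htU : t ∈ U := by
    rw [hU, Finset.mem_filter, Finset.mem_range]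
    exact ⟨by omega, Or.inl rfl⟩
  have hne : U.Nonempty := ⟨t, htU⟩
  obtain ⟨w, hw⟩ : ∃ w, w = U.max' hne := ⟨_, rfl⟩
  have hwU : w ∈ U := hw ▸ Finset.max'_mem U hne
  have hmax : ∀ u ∈ U, u ≤ w := fun u hu => hw ▸ Finset.le_max' U u hu
  refine ⟨w, hmax t htU, ?_, ?_, ?_⟩
  · rw [hU, Finset.mem_filter, Finset.mem_range] at hwU
    omega
  · rw [hU, Finset.mem_filter] at hwU
    rcases hwU.2 with h | ⟨-, l, q1, q2, q3⟩
    · exact Or.inl h
    · exact Or.inr ⟨l, q1, q2, q3⟩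
  · intro l u hl htu huQ hg hc
    apply hmax
    rw [hU, Finset.mem_filter, Finset.mem_range]
    exact ⟨by omega, Or.inr ⟨htu, l, hl, hg, hc⟩⟩

/-- Few elements between `t` and the top. -/
private theorem coreG_few {α : Type} {n : ℕ} (G : BG α n) (i : Fin n)
    (S : Finset α) (m R M t t' : ℕ) (hM : 1 ≤ M)
    (h : t' = t ∨ ∃ l, l ≤ t ∧ Gd G i m R l t' ∧
        (S.filter fun x => l ≤ G.ρ x ∧ G.ρ x < t').card < M) :
    (S.filter fun x => t ≤ G.ρ x ∧ G.ρ x < t').card < M := by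
  rcases h with h | ⟨l, h1, -, h3⟩
  · have e : (S.filter fun x => t ≤ G.ρ x ∧ G.ρ x < t') = ∅ := by
      apply Finset.filter_false_of_mem
      intro x _ hx
      omega
    rw [e, Finset.card_empty]
    omega
  · refine lt_of_le_of_lt (Finset.card_le_card ?_) h3
    intro x hx
    rw [Finset.mem_filter] at hx ⊢
    exact ⟨hx.1, by omega, by omega⟩

/-- Thresholds with strict inequalities. -/
private theorem coreG_thr (h3 : S_Thr) {α : Type} [DecidableEq α] {n : ℕ} (G : BG α n) (i : Fin n)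
    (S : Finset α) (k : ℕ) (hS : ∀ x ∈ S, G.c x = i) (hk : 1 ≤ k) (hkS : k ≤ S.card) :
    ∃ p : ℕ, (S.filter fun x => G.ρ x < p).card = k := by
  obtain ⟨t, ht⟩ := h3 α n G i S k hS hk hkS
  refine ⟨t + 1, ?_⟩
  rw [← ht]
  congr 1
  ext x
  rw [Finset.mem_filter, Finset.mem_filter]
  constructor
  · rintro ⟨a, b⟩
    exact ⟨a, by omega⟩
  · rintro ⟨a, b⟩
    exact ⟨a, by omega⟩

theorem coreG (h1 : S_SubT) (h3 : S_Thr) (h2 : S_Dich) : S_CoreG := by
  intro α _ _ n G i S m₁ m₂ R M hC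
  by_contra hcon
  push Not at hcon
  have hM := hC.pos
  obtain ⟨p, hp⟩ := coreG_thr h3 G i S (2 * M) hC.cS (by omega) (by omega)
  obtain ⟨q, hq⟩ := coreG_thr h3 G i S (6 * M) hC.cS (by omega) (by omega)
  obtain ⟨Q, hQ, hpQ, hqQ⟩ : ∃ Q, (∀ x, G.ρ x ≤ Q) ∧ p ≤ Q ∧ q ≤ Q := by
    refine ⟨Finset.univ.sup G.ρ + p + q, ?_, by omega, by omega⟩
    intro x
    have := Finset.le_sup (f := G.ρ) (Finset.mem_univ x)
    omega
  obtain ⟨p', hpp', hp'Q, hpt, hpm⟩ := coreG_top G i S m₁ R M Q p hpQ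
  obtain ⟨q', hqq', hq'Q, hqt, hqm⟩ := coreG_top G i S m₁ R M Q q hqQ
  have fp := coreG_few G i S m₁ R M p p' hM hpt
  have fq := coreG_few G i S m₁ R M q q' hM hqt
  have hpq : p < q := by
    by_contra h
    push Not at h
    have h4 : (S.filter fun x => G.ρ x < q).card ≤ (S.filter fun x => G.ρ x < p).card := by
      apply Finset.card_le_card
      intro x hx
      rw [Finset.mem_filter] at hx ⊢
      exact ⟨hx.1, by omega⟩
    omega
  set J : Finset α := Finset.univ.filter fun x => G.c x = i ∧ p' ≤ G.ρ x ∧ G.ρ x < q' with hJ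
  have hmem : ∀ x, x ∈ J ↔ G.c x = i ∧ p' ≤ G.ρ x ∧ G.ρ x < q' := by
    intro x
    rw [hJ, Finset.mem_filter]
    exact ⟨fun h => h.2, fun h => ⟨Finset.mem_univ _, h⟩⟩
  have hin : M ≤ (S ∩ J).card := by
    have h4 : (S.filter fun x => G.ρ x < q) ⊆ (S.filter fun x => G.ρ x < p) ∪
        ((S.filter fun x => p ≤ G.ρ x ∧ G.ρ x < p') ∪ (S ∩ J)) := by
      intro x hx
      rw [Finset.mem_filter] at hx
      rw [Finset.mem_union, Finset.mem_union, Finset.mem_filter, Finset.mem_filter,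
        Finset.mem_inter, hmem]
      by_cases c1 : G.ρ x < p
      · exact Or.inl ⟨hx.1, c1⟩
      · by_cases c2 : G.ρ x < p'
        · exact Or.inr (Or.inl ⟨hx.1, by omega, c2⟩)
        · exact Or.inr (Or.inr ⟨hx.1, hC.cS x hx.1, by omega, by omega⟩)
    have h5 := Finset.card_le_card h4
    have h6 := Finset.card_union_le (S.filter fun x => G.ρ x < p)
      ((S.filter fun x => p ≤ G.ρ x ∧ G.ρ x < p') ∪ (S ∩ J))
    have h7 := Finset.card_union_le (S.filter fun x => p ≤ G.ρ x ∧ G.ρ x < p') (S ∩ J)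
    omega
  have hout : M ≤ (S \ J).card := by
    have h4 : (S.filter fun x => G.ρ x < p) ⊆ S \ J := by
      intro x hx
      rw [Finset.mem_filter] at hx
      rw [Finset.mem_sdiff, hmem]
      exact ⟨hx.1, fun h => by omega⟩
    have h5 := Finset.card_le_card h4
    omega
  have hlarge : M ≤ (S.filter fun x => q' ≤ G.ρ x).card := by
    have h4 : S ⊆ (S.filter fun x => G.ρ x < q) ∪
        ((S.filter fun x => q ≤ G.ρ x ∧ G.ρ x < q') ∪ (S.filter fun x => q' ≤ G.ρ x)) := by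
      intro x hx
      rw [Finset.mem_union, Finset.mem_union, Finset.mem_filter, Finset.mem_filter,
        Finset.mem_filter]
      by_cases c1 : G.ρ x < q
      · exact Or.inl ⟨hx, c1⟩
      · by_cases c2 : G.ρ x < q'
        · exact Or.inr (Or.inl ⟨hx, by omega, c2⟩)
        · exact Or.inr (Or.inr ⟨hx, by omega⟩)
    have h5 := Finset.card_le_card h4
    have h6 := Finset.card_union_le (S.filter fun x => G.ρ x < q)
      ((S.filter fun x => q ≤ G.ρ x ∧ G.ρ x < q') ∪ (S.filter fun x => q' ≤ G.ρ x))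
    have h7 := Finset.card_union_le (S.filter fun x => q ≤ G.ρ x ∧ G.ρ x < q')
      (S.filter fun x => q' ≤ G.ρ x)
    omega
  obtain ⟨r, A, B, χ, hr, hRb, hL⟩ := hC.bal J (fun x hx => ((hmem x).mp hx).1) (by
    intro x hx z hz y hc hxy hyz
    rw [hmem] at hx hz ⊢
    exact ⟨hc.trans hx.1, by omega, by omega⟩) hin hout
  have hc0 : ∀ k < m₁ + m₂, G.c (A k 0) = i := fun k hk =>
    (hRb.tr.cA k hk 0 (Nat.zero_le _)).trans hRb.tr.ch0
  have hcr : ∀ k < m₁ + m₂, G.c (A k r) = i := fun k hk =>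
    (hRb.tr.cA k hk r (le_refl _)).trans hRb.tr.chr
  have hfirst := ((h1 α n G i (m₁ + m₂) m₂ r A B χ (fun k => k)
    (fun k hk => by omega)).2 (fun k l hkl _ => hkl)).2 hRb
  have hsecond := ((h1 α n G i (m₁ + m₂) m₁ r A B χ (fun k => m₂ + k)
    (fun k hk => by omega)).2 (fun k l hkl _ => by omega)).2 hRb
  obtain ⟨l, u, hl1, hl2, hu1, hu2, hgd⟩ := hC.fg.good r _ _ χ hr hfirst
  have hm2 : 1 ≤ m₂ := by
    by_contra h
    have h0 : m₂ = 0 := by omega
    subst h0
    exact absurd (hl1.trans_le hl2) (lt_irrefl _)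
  -- the crossing argument
  have hcross : ∀ t t', t ≤ t' →
      (t' = t ∨ ∃ l, l ≤ t ∧ Gd G i m₁ R l t' ∧
        (S.filter fun x => l ≤ G.ρ x ∧ G.ρ x < t').card < M) →
      (∀ k < m₁ + m₂, G.ρ (A k 0) < t' ∧ t' ≤ G.ρ (A k r)) → l ≤ t := by
    intro t t' _ ht hA
    by_contra hno
    push Not at hno
    have hA0 := (hA (m₂ - 1) (by omega)).1
    rcases ht with ht | ⟨l', hl', hg', -⟩
    · omega
    · refine (hg' r _ _ χ hr hsecond).1 ?_
      intro k hk
      have e1 := (hRb.mon (m₂ - 1) (m₂ + k) (by omega) (by omega)).1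
      have e3 := hA (m₂ + k) (by omega)
      refine ⟨?_, e3.1, e3.2⟩
      omega
  have harc := h2 α n G i S m₁ m₂ R M hC l u hgd
  have hk0 : 0 < m₁ + m₂ := by omega
  have hk1 : m₂ - 1 < m₁ + m₂ := by omega
  rcases hL with hL | hL
  · -- to the right
    have hA : ∀ k < m₁ + m₂, G.ρ (A k 0) < q' ∧ q' ≤ G.ρ (A k r) := by
      intro k hk
      have e1 := (hmem _).mp (hL k hk).1
      refine ⟨e1.2.2, ?_⟩
      by_contra hno
      push Not at hno
      have e2 := hRb.bet k hk k hk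
      have e3 : A k r ∈ J := (hmem _).mpr ⟨hcr k hk, by omega, hno⟩
      exact lt_irrefl _ ((hL k hk).2 _ e3)
    have hle := hcross q q' hqq' hqt hA
    have e5 := (hA (m₂ - 1) hk1).2
    have e6 := (hmem _).mp (hL 0 hk0).1
    rcases harc with harc | harc
    · have e4 := hqm l u hle (by omega) (hu2.trans (hQ _)) hgd harc
      omega
    · have e4 : (S.filter fun x => G.ρ x < p).card ≤
          (S.filter fun x => ¬ (l ≤ G.ρ x ∧ G.ρ x < u)).card := by
        apply Finset.card_le_card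
        intro x hx
        rw [Finset.mem_filter] at hx ⊢
        refine ⟨hx.1, fun h => ?_⟩
        omega
      omega
  · -- to the left
    have hA : ∀ k < m₁ + m₂, G.ρ (A k 0) < p' ∧ p' ≤ G.ρ (A k r) := by
      intro k hk
      have e1 := (hmem _).mp (hL k hk).1
      refine ⟨?_, e1.2.1⟩
      by_contra hno
      push Not at hno
      have e2 := hRb.bet k hk k hk
      have e3 : A k 0 ∈ J := (hmem _).mpr ⟨hc0 k hk, hno, by omega⟩
      exact lt_irrefl _ ((hL k hk).2 _ e3)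
    have hle := hcross p p' hpp' hpt hA
    have e5 := (hA (m₂ - 1) hk1).2
    have e6 := (hmem _).mp (hL 0 hk0).1
    rcases harc with harc | harc
    · have e4 := hpm l u hle (by omega) (hu2.trans (hQ _)) hgd harc
      omega
    · have e4 : (S.filter fun x => q' ≤ G.ρ x).card ≤
          (S.filter fun x => ¬ (l ≤ G.ρ x ∧ G.ρ x < u)).card := by
        apply Finset.card_le_card
        intro x hx
        rw [Finset.mem_filter] at hx ⊢
        refine ⟨hx.1, fun h => ?_⟩
        omega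
      omega

end Pool.Agent.MPd439b2.BT
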