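import Pool.Agent.Lib.MP_d439b2_co.BT.SpecA

/-!
# MP_d439b2_co, BT, A3: few crossing exceptional pairs
-/

set_option autoImplicit false

namespace Pool.Agent.MPd439b2.BT

open Pool.Agent.MPd439b2 Pool.Agent.MPd439b2.X2 Pool.Agent.MPd439b2.VX

theorem crossE : S_CrossE := by
  intro V _ n S G _ _ F b bb N D hb hbb hF hN hD
  classical
  set E := (BGr S G).Ed Finset.univ with hE
  set DF : Finset V := (Set.toFinite (Dbl S G F)).toFinset with hDF
  have hsub : {v | v ∈ AF S G F ∧ ∃ w, w ∉ AF S G F ∧ Exc S G v w} ⊆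
      Dbl S G F ∪ (⋃ w ∈ DF, {v | Exc S G w v}) ∪
        ⋃ p ∈ bd E F ×ˢ bd E F, Zp S G p.1.1 p.2.1 := by
    rintro v ⟨hv, w, hw, he⟩
    obtain ⟨z, hz, hdz⟩ := des_mate (S := S) (G := G) (v := v) ⟨w, he⟩
    obtain ⟨z', hz', hdz'⟩ := des_mate (S := S) (G := G) (v := w) ⟨v, he.symm⟩
    have hv1 : (nd S v, nd S z) ∈ F := hdz ▸ hv
    have hw1 : (nd S w, nd S z') ∉ F := fun h => hw (by
      show des S G w ∈ F
      rw [hdz']
      exact h)
    by_cases h1 : (nd S v, nd S w) ∈ F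
    · by_cases h2 : (nd S w, nd S v) ∈ F
      · refine Or.inl (Or.inr ?_)
        rw [Set.mem_iUnion₂]
        exact ⟨w, (Set.Finite.mem_toFinset _).2 ⟨v, z', he.symm, hz', h2, hw1⟩, he.symm⟩
      · refine Or.inr ?_
        rw [Set.mem_iUnion₂]
        have h3 : (nd S w, nd S v) ∈ E \ F := Finset.mem_sdiff.2 ⟨exc_mem hb he.symm, h2⟩
        have h4 : nd S v ∈ bd E F :=
          Finset.mem_inter.2 ⟨mem_vs.2 ⟨_, Or.inl h1⟩, mem_vs.2 ⟨_, Or.inr h3⟩⟩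
        have h5 : nd S w ∈ bd E F :=
          Finset.mem_inter.2 ⟨mem_vs.2 ⟨_, Or.inr h1⟩, mem_vs.2 ⟨_, Or.inl h3⟩⟩
        exact ⟨(nd S v, nd S w), Finset.mem_product.2 ⟨h4, h5⟩, rfl, w, rfl, he⟩
    · exact Or.inl (Or.inl ⟨z, w, hz, he, hv1, h1⟩)
  have hDc : DF.card ≤ D := by
    rw [hDF, ← Set.ncard_eq_toFinset_card _ (Set.toFinite _)]
    exact hD
  have h1 : (⋃ w ∈ DF, {v | Exc S G w v}).ncard ≤ D * b := by
    refine (Finset.set_ncard_biUnion_le _ _).trans ?_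
    refine (Finset.sum_le_card_nsmul _ _ b fun w _ => hb.deg w).trans ?_
    rw [smul_eq_mul]
    exact Nat.mul_le_mul_right _ hDc
  have h2 : (⋃ p ∈ bd E F ×ˢ bd E F, Zp S G p.1.1 p.2.1).ncard ≤ N * N * bb := by
    refine (Finset.set_ncard_biUnion_le _ _).trans ?_
    refine (Finset.sum_le_card_nsmul _ _ bb fun p _ => hbb _ _).trans ?_
    rw [smul_eq_mul, Finset.card_product]
    exact Nat.mul_le_mul_right _ (Nat.mul_le_mul hN hN)
  have h3 := Set.ncard_le_ncard hsub (Set.toFinite _)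
  have h4 := Set.ncard_union_le (Dbl S G F ∪ (⋃ w ∈ DF, {v | Exc S G w v}))
    (⋃ p ∈ bd E F ×ˢ bd E F, Zp S G p.1.1 p.2.1)
  have h5 := Set.ncard_union_le (Dbl S G F) (⋃ w ∈ DF, {v | Exc S G w v})
  calc _ ≤ D + D * b + N * N * bb := by omega
    _ = (b + 1) * D + N * N * bb := by ring

end Pool.Agent.MPd439b2.BT
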