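import Pool.Agent.Lib.MP_d439b2_co.BT.SpecB

/-!
# MP_d439b2_co, BT, CtxB: the context of the core argument (helper69)
-/

set_option autoImplicit false

namespace Pool.Agent.MPd439b2.BT

open Pool.Agent.MPd439b2
open Pool.Agent.MPd439b2.VX

theorem ctxB (h1 : VX.S_Link) (h2 : VX.S_Bun) (h3 : S_SubT) (h4 : S_MonB) : S_CtxB := by
  intro n g m₀ hg
  obtain ⟨m₁, hm₁⟩ := h4 (2 * m₀ + 2)
  obtain ⟨M', hM'⟩ := h2 n g m₁
  refine ⟨max 1 M', ?_⟩
  intro α _ _ G T i S AA hi hCv hcS hWL hF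
  refine ⟨hF, le_max_left _ _, hcS, ?_⟩
  intro J hJc hJI hin hout
  obtain ⟨ν, p, hLk⟩ := h1 α n G T i S J M' hi hcS hWL (le_trans (le_max_right _ _) hin)
    (le_trans (le_max_right _ _) hout)
  have hJf : (J.filter fun x => G.c x = i) = J := Finset.filter_true_of_mem hJc
  obtain ⟨r, A, B, χ, hr, hT, hAJ, hside⟩ := hM' α G T i J ν p hg hCv (by
    rw [hJf]
    exact hJI) hLk
  rcases hm₁ α n G i r A B χ J hT (fun k hk => (hAJ k hk).1) (by
    rcases hside with hside | hside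
    · exact Or.inl fun k hk x hx => hside k hk x hx (hJc x hx)
    · exact Or.inr fun k hk x hx => hside k hk x hx (hJc x hx)) with ⟨A', B', χ', hPs⟩ | hRb
  · exfalso
    have hPs' := ((h3 α n G i (2 * m₀ + 2) m₀ r A' B' χ' (fun k => k)
      (fun k hk => by omega)).2 (fun k l hkl _ => hkl)).1 hPs
    exact hF.prs i r _ _ _ hr hPs'
  · obtain ⟨A', B', χ', hRb, hL⟩ := hRb
    exact ⟨r, A', B', χ', hr, hRb, hL⟩

end Pool.Agent.MPd439b2.BT
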