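import Pool.Agent.Lib.MP_d439b2_co.BT.SpecA

/-! # MP_d439b2_co, BT, A17: few double vertices -/

set_option autoImplicit false

namespace Pool.Agent.MPd439b2.BT

open Pool.Agent.MPd439b2 Pool.Agent.MPd439b2.X2 Pool.Agent.MPd439b2.VX

private theorem unionD {α β : Type} [Finite β] {f : α → Set β} {k : ℕ} (A : Finset α)
    (hf : ∀ v ∈ A, (f v).ncard ≤ k) : (⋃ v ∈ A, f v).ncard ≤ A.card * k := by
  classical
  refine (Finset.set_ncard_biUnion_le _ _).trans ?_
  refine (Finset.sum_le_card_nsmul _ _ _ hf).trans ?_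
  rw [smul_eq_mul]

/-- greedy choice -/
private theorem greedy {V : Type} [Finite V] (W : Set V) (R : V → V → Prop) (c : ℕ)
    (hR : ∀ w ∈ W, {u | u ∈ W ∧ R w u}.ncard ≤ c) (M : ℕ) (hM : c * M < W.ncard) :
    ∃ v : ℕ → V, (∀ k < M, v k ∈ W) ∧ ∀ k l, k < l → l < M → ¬ R (v k) (v l) := by
  induction M with
  | zero =>
    have hne : W.Nonempty := by
      rw [Set.nonempty_iff_ne_empty]
      rintro rfl
      simp at hM
    obtain ⟨x, -⟩ := hne
    exact ⟨fun _ => x, fun k hk => absurd hk (Nat.not_lt_zero k),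
      fun k l _ hl => absurd hl (Nat.not_lt_zero l)⟩
  | succ M ih =>
    obtain ⟨v, hv, hvR⟩ := ih (by
      rw [Nat.mul_succ] at hM
      omega)
    have hU : (⋃ k ∈ Finset.range M, {u | u ∈ W ∧ R (v k) u}).ncard ≤ M * c := by
      have := unionD (f := fun k => {u | u ∈ W ∧ R (v k) u}) (k := c) (Finset.range M)
        (fun k hk => hR _ (hv k (Finset.mem_range.1 hk)))
      rwa [Finset.card_range] at this
    have hlt : (⋃ k ∈ Finset.range M, {u | u ∈ W ∧ R (v k) u}).ncard < W.ncard := by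
      rw [Nat.mul_succ, Nat.mul_comm] at hM
      omega
    obtain ⟨u, huW, huU⟩ := Set.exists_mem_notMem_of_ncard_lt_ncard hlt (Set.toFinite _)
    have hu : ∀ k < M, ¬ R (v k) u := by
      intro k hk hRk
      refine huU (Set.mem_iUnion₂.2 ⟨k, Finset.mem_range.2 hk, huW, hRk⟩)
    refine ⟨fun k => if k < M then v k else u, ?_, ?_⟩
    · intro k _
      by_cases hk : k < M
      · simp only [if_pos hk]
        exact hv k hk
      · simp only [if_neg hk]
        exact huW
    · intro k l hkl hl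
      have hk : k < M := by omega
      by_cases hl' : l < M
      · simp only [if_pos hk, if_pos hl']
        exact hvR k l hkl hl'
      · simp only [if_pos hk, if_neg hl']
        exact hu k hk

private theorem vs_fst {α : Type} [DecidableEq α] {F : Finset (α × α)} {x y : α}
    (h : (x, y) ∈ F) : x ∈ vs F :=
  Finset.mem_union_left _ (Finset.mem_image.2 ⟨(x, y), h, rfl⟩)

private theorem vs_snd {α : Type} [DecidableEq α] {F : Finset (α × α)} {x y : α}
    (h : (x, y) ∈ F) : y ∈ vs F :=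
  Finset.mem_union_right _ (Finset.mem_image.2 ⟨(x, y), h, rfl⟩)

theorem dbm (h1 : S_Cfg) (h2 : S_Alt) : S_DBm := by
  classical
  intro n b m bb N
  obtain ⟨M, hM⟩ := h1 n b m (2 * N + 1)
  refine ⟨N * (2 * bb * M), ?_⟩
  intro V _ S G _ inst F hE hF2 hNS hBB hF hN
  set E := (BGr S G).Ed Finset.univ with hEd
  -- the mates
  have hch : ∀ w : V, ∃ z z' : V, w ∈ Dbl S G F → Exc S G w z ∧ Exc S G w z' ∧
      (nd S w, nd S z) ∈ F ∧ (nd S w, nd S z') ∉ F := by
    intro w
    by_cases hw : w ∈ Dbl S G F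
    · obtain ⟨z, z', h⟩ := hw
      exact ⟨z, z', fun _ => h⟩
    · exact ⟨w, w, fun h => absurd h hw⟩
  choose z z' hz using hch
  have hcov : Dbl S G F ⊆ ⋃ q ∈ bd E F, {w | w ∈ Dbl S G F ∧ nd S w = q} := by
    intro w hw
    obtain ⟨e1, e2, e3, e4⟩ := hz w hw
    rw [Set.mem_iUnion₂]
    refine ⟨nd S w, Finset.mem_inter.2 ⟨vs_fst e3, ?_⟩, hw, rfl⟩
    exact vs_fst (Finset.mem_sdiff.2 ⟨exc_mem hE e2, e4⟩)
  refine (Set.ncard_le_ncard hcov (Set.toFinite _)).trans ?_
  refine (unionD (k := 2 * bb * M) (bd E F) ?_).trans (Nat.mul_le_mul_right _ hN)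
  intro q _
  by_contra hcon
  push Not at hcon
  set W : Set V := {w | w ∈ Dbl S G F ∧ nd S w = q} with hW
  have hWq : ∀ w ∈ W, bl S w = q.1 := by
    intro w hw
    rw [← hw.2]
    rfl
  obtain ⟨v, hvW, hvR⟩ := greedy W
    (fun w u => bl S (z w) = bl S (z u) ∨ bl S (z' w) = bl S (z' u)) (2 * bb) (by
      intro w hw
      have hsub : {u | u ∈ W ∧ (bl S (z w) = bl S (z u) ∨ bl S (z' w) = bl S (z' u))} ⊆
          Zp S G q.1 (bl S (z w)) ∪ Zp S G q.1 (bl S (z' w)) := by
        rintro u ⟨hu, hu' | hu'⟩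
        · exact Or.inl ⟨hWq u hu, z u, hu'.symm, (hz u hu.1).1⟩
        · exact Or.inr ⟨hWq u hu, z' u, hu'.symm, (hz u hu.1).2.1⟩
      refine (Set.ncard_le_ncard hsub (Set.toFinite _)).trans
        ((Set.ncard_union_le _ _).trans ?_)
      have a1 := hBB q.1 (bl S (z w))
      have a2 := hBB q.1 (bl S (z' w))
      omega) M hcon
  have hne : ∀ k < M, ∀ l < M, k ≠ l →
      ¬ (bl S (z (v k)) = bl S (z (v l)) ∨ bl S (z' (v k)) = bl S (z' (v l))) := by
    intro k hk l hl hkl
    rcases Nat.lt_or_gt_of_ne hkl with h | h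
    · exact hvR k l h hl
    · intro h3
      refine hvR l k h hk ?_
      rcases h3 with h3 | h3
      · exact Or.inl h3.symm
      · exact Or.inr h3.symm
  obtain ⟨κ, a, i, i', j, hij, hi'j, hκ, hcl, hrel⟩ := hM V S G q.1 v (fun k => z' (v k))
    (fun k => z (v k)) hE hF2 hNS (by
      intro k hk
      obtain ⟨e1, e2, e3, e4⟩ := hz (v k) (hvW k hk).1
      refine ⟨hWq _ (hvW k hk), e2, e1, fun heq => e4 ?_⟩
      have heq' : z (v k) = z' (v k) := heq
      rw [← heq']
      exact e3) (by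
      intro k hk l hl hkl
      have h := hne k hk l hl hkl
      refine ⟨fun h' => h (Or.inl (by rw [h'])), fun h' => h (Or.inr ?_), fun h' => h (Or.inl h')⟩
      have h'' : z' (v k) = z' (v l) := h'
      rw [h''])
  -- the two index sets
  have hI : ((Finset.range (2 * N + 1)).filter fun k => nd S (a k) ∈ vs (E \ F)).card ≤ N := by
    refine h2 V n S G F i j N _ (fun k => nd S (z (v (κ k)))) (fun k => nd S (a k)) (S.s i j)
      hij hF hN ?_ ?_
    · intro k hk
      obtain ⟨hk1, hk2⟩ := Finset.mem_filter.1 hk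
      have hk3 := Finset.mem_range.1 hk1
      obtain ⟨c1, c2, c3⟩ := hcl k hk3
      refine ⟨?_, ?_, vs_snd (hz _ (hvW _ (hκ k hk3)).1).2.2.1, hk2⟩
      · rw [c_nd]
        exact c1
      · rw [c_nd]
        exact c3
    · intro k hk l hl
      have hk3 := Finset.mem_range.1 (Finset.mem_filter.1 hk).1
      have hl3 := Finset.mem_range.1 (Finset.mem_filter.1 hl).1
      rw [nd_val, nd_val, adj_bl]
      · exact (hrel k hk3 l hl3).1
      · rw [(hcl k hk3).1, (hcl l hl3).2.2]
        exact hij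
  have hdd : E \ (E \ F) = F := Finset.sdiff_sdiff_eq_self hF
  have hI' : ((Finset.range (2 * N + 1)).filter fun k => nd S (a k) ∈ vs F).card ≤ N := by
    refine h2 V n S G (E \ F) i' j N _ (fun k => nd S (z' (v (κ k)))) (fun k => nd S (a k))
      (S.s i j) hi'j Finset.sdiff_subset ?_ ?_ ?_
    · have : bd E (E \ F) = bd E F := by
        unfold bd
        rw [hdd, Finset.inter_comm]
      rw [← hEd, this]
      exact hN
    · intro k hk
      obtain ⟨hk1, hk2⟩ := Finset.mem_filter.1 hk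
      have hk3 := Finset.mem_range.1 hk1
      obtain ⟨c1, c2, c3⟩ := hcl k hk3
      obtain ⟨e1, e2, e3, e4⟩ := hz _ (hvW _ (hκ k hk3)).1
      refine ⟨?_, ?_, vs_snd (Finset.mem_sdiff.2 ⟨exc_mem hE e2, e4⟩), ?_⟩
      · rw [c_nd]
        exact c2
      · rw [c_nd]
        exact c3
      · rw [← hEd, hdd]
        exact hk2
    · intro k hk l hl
      have hk3 := Finset.mem_range.1 (Finset.mem_filter.1 hk).1
      have hl3 := Finset.mem_range.1 (Finset.mem_filter.1 hl).1
      rw [nd_val, nd_val, adj_bl]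
      · exact (hrel k hk3 l hl3).2
      · rw [(hcl k hk3).2.1, (hcl l hl3).2.2]
        exact hi'j
  have hall : Finset.range (2 * N + 1) ⊆
      ((Finset.range (2 * N + 1)).filter fun k => nd S (a k) ∈ vs (E \ F)) ∪
      ((Finset.range (2 * N + 1)).filter fun k => nd S (a k) ∈ vs F) := by
    intro k hk
    by_cases hkF : (nd S (a k), nd S (a k)) ∈ F
    · exact Finset.mem_union_right _ (Finset.mem_filter.2 ⟨hk, vs_fst hkF⟩)
    · exact Finset.mem_union_left _ (Finset.mem_filter.2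
        ⟨hk, vs_fst (Finset.mem_sdiff.2 ⟨loop_mem S G _, hkF⟩)⟩)
  have hfin := (Finset.card_le_card hall).trans (Finset.card_union_le _ _)
  rw [Finset.card_range] at hfin
  omega

end Pool.Agent.MPd439b2.BT
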