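import Pool.Agent.Lib.MP_d439b2_co.X2.Defs
import Pool.Agent.Lib.MP_d439b2_co.Rep.Defs

/-!
# MP_d439b2_co, BT: the block graph of a staircase structure with exceptions, definitions (helper85)

`S : X2.St V n` is a staircase structure, `G` another graph on `V`; a pair `x, y` is exceptional (`Exc`) if the two
graphs disagree on it.  Blocks are the classes of twins of `S` inside a class of `S`; the node of a block is its
element with the smallest `ρ`.
-/

set_option autoImplicit false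

namespace Pool.Agent.MPd439b2.BT

open Pool.Agent.MPd439b2 Pool.Agent.MPd439b2.X2

variable {V : Type} {n : ℕ}

/-! ### blocks -/

/-- `x` and `y` are twins: same class, same neighbours outside this class -/
def Tw (S : St V n) (x y : V) : Prop :=
  S.c x = S.c y ∧ ∀ z, S.c z ≠ S.c x → (S.G.Adj x z ↔ S.G.Adj y z)

theorem Tw.refl (S : St V n) (x : V) : Tw S x x := ⟨rfl, fun _ _ => Iff.rfl⟩

theorem Tw.symm {S : St V n} {x y : V} (h : Tw S x y) : Tw S y x :=
  ⟨h.1.symm, fun z hz => (h.2 z (by rw [h.1]; exact hz)).symm⟩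

theorem Tw.trans {S : St V n} {x y z : V} (h : Tw S x y) (h' : Tw S y z) : Tw S x z :=
  ⟨h.1.trans h'.1, fun w hw => (h.2 w hw).trans (h'.2 w (by rw [← h.1]; exact hw))⟩

theorem exists_bl (S : St V n) (x : V) : ∃ y, Tw S x y ∧ ∀ z, Tw S x z → S.ρ y ≤ S.ρ z := by
  classical
  have hne : ∃ k, ∃ y, Tw S x y ∧ S.ρ y = k := ⟨S.ρ x, x, Tw.refl S x, rfl⟩
  obtain ⟨y, hy, hk⟩ := Nat.find_spec hne
  refine ⟨y, hy, fun z hz => ?_⟩
  rw [hk]
  exact Nat.find_min' hne ⟨z, hz, rfl⟩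

/-- the node of the block of `x`: the element with the smallest `ρ` -/
noncomputable def bl (S : St V n) (x : V) : V := (exists_bl S x).choose

theorem bl_tw (S : St V n) (x : V) : Tw S x (bl S x) := (exists_bl S x).choose_spec.1

theorem bl_le {S : St V n} {x z : V} (h : Tw S x z) : S.ρ (bl S x) ≤ S.ρ z :=
  (exists_bl S x).choose_spec.2 z h

theorem c_bl (S : St V n) (x : V) : S.c (bl S x) = S.c x := (bl_tw S x).1.symm

theorem bl_eq {S : St V n} {x y : V} (h : Tw S x y) : bl S x = bl S y := by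
  refine S.inj _ _ ?_ (le_antisymm ?_ ?_)
  · rw [c_bl, c_bl, h.1]
  · exact bl_le (h.trans (bl_tw S y))
  · exact bl_le (h.symm.trans (bl_tw S x))

theorem tw_of_bl {S : St V n} {x y : V} (h : bl S x = bl S y) : Tw S x y := by
  have h1 := bl_tw S x
  rw [h] at h1
  exact h1.trans (bl_tw S y).symm

theorem bl_bl (S : St V n) (x : V) : bl S (bl S x) = bl S x := (bl_eq (bl_tw S x)).symm

theorem adj_bl_left {S : St V n} {x y : V} (h : S.c x ≠ S.c y) :
    S.G.Adj (bl S x) y ↔ S.G.Adj x y :=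
  ((bl_tw S x).2 y (fun h' => h h'.symm)).symm

theorem adj_bl {S : St V n} {x y : V} (h : S.c x ≠ S.c y) :
    S.G.Adj (bl S x) (bl S y) ↔ S.G.Adj x y := by
  rw [adj_bl_left (by rw [c_bl]; exact h), SimpleGraph.adj_comm,
    adj_bl_left (fun h' => h h'.symm), SimpleGraph.adj_comm]

/-- blocks are intervals -/
theorem Tw.between {S : St V n} {x y z : V} (h : Tw S x y) (hc : S.c z = S.c x)
    (h1 : S.ρ x ≤ S.ρ z) (h2 : S.ρ z ≤ S.ρ y) : Tw S x z := by
  refine ⟨hc.symm, fun w hw => ?_⟩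
  have hzw : S.c w ≠ S.c z := by rw [hc]; exact hw
  cases hs : S.s (S.c x) (S.c w)
  · constructor
    · intro ha
      refine S.see (x := z) (x' := x) hc hzw ?_ ha
      rw [hc, hs]
      exact h1
    · intro ha
      refine (h.2 w hw).2 (S.see (x := y) (x' := z) (h.1.symm.trans hc.symm) ?_ ?_ ha)
      · rw [← h.1]; exact hw
      · rw [← h.1, hs]
        exact h2
  · constructor
    · intro ha
      refine S.see (x := z) (x' := y) (hc.trans h.1) hzw ?_ ((h.2 w hw).1 ha)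
      rw [hc, hs]
      exact h2
    · intro ha
      refine S.see (x := x) (x' := z) hc.symm hw ?_ ha
      rw [hs]
      exact h1

theorem bl_mono {S : St V n} {x y : V} (hc : S.c x = S.c y) (h : S.ρ x ≤ S.ρ y) :
    S.ρ (bl S x) ≤ S.ρ (bl S y) := by
  by_contra hcon
  push Not at hcon
  have h1 : S.ρ (bl S x) ≤ S.ρ x := bl_le (Tw.refl S x)
  have h2 : Tw S (bl S y) x :=
    Tw.between (bl_tw S y).symm (hc.trans (c_bl S y).symm) (by omega) h
  have h3 : bl S y = bl S x := by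
    rw [← bl_bl S y]
    exact bl_eq h2
  rw [h3] at hcon
  exact lt_irrefl _ hcon

/-- `x` is a node -/
def Nd (S : St V n) (x : V) : Prop := bl S x = x

theorem nd_bl (S : St V n) (x : V) : Nd S (bl S x) := bl_bl S x

/-! ### the merged line of two classes -/

/-- **The merged line** of the classes `i ≠ j`: `u` comes before `w`.  The class `i` is in the order `s i j`, the
class `j` in the order opposite to `s j i`, and `u` in the class `i` comes before `w` in the class `j` iff they are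
adjacent -/
def Bef (S : St V n) (i j : Fin n) (u w : V) : Prop :=
  (S.c u = i ∧ S.c w = i ∧ S.lt (S.s i j) u w) ∨ (S.c u = j ∧ S.c w = j ∧ S.lt (S.s j i) w u) ∨
    (S.c u = i ∧ S.c w = j ∧ S.G.Adj u w) ∨ (S.c u = j ∧ S.c w = i ∧ ¬ S.G.Adj w u)

theorem bef_symm (S : St V n) (i j : Fin n) (u w : V) : Bef S j i u w ↔ Bef S i j w u := by
  unfold Bef
  constructor
  · rintro (⟨h1, h2, h3⟩ | ⟨h1, h2, h3⟩ | ⟨h1, h2, h3⟩ | ⟨h1, h2, h3⟩)
    · exact Or.inr (Or.inl ⟨h2, h1, h3⟩)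
    · exact Or.inl ⟨h2, h1, h3⟩
    · exact Or.inr (Or.inr (Or.inl ⟨h2, h1, h3.symm⟩))
    · exact Or.inr (Or.inr (Or.inr ⟨h2, h1, fun h => h3 h.symm⟩))
  · rintro (⟨h1, h2, h3⟩ | ⟨h1, h2, h3⟩ | ⟨h1, h2, h3⟩ | ⟨h1, h2, h3⟩)
    · exact Or.inr (Or.inl ⟨h2, h1, h3⟩)
    · exact Or.inl ⟨h2, h1, h3⟩
    · exact Or.inr (Or.inr (Or.inl ⟨h2, h1, h3.symm⟩))
    · exact Or.inr (Or.inr (Or.inr ⟨h2, h1, fun h => h3 h.symm⟩))

/-- a vertex which sees `y` comes before (in the order `s`) a vertex which does not -/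
theorem lt_of_adj {S : St V n} {x x' y : V} (hc : S.c x = S.c x') (hy : S.c y ≠ S.c x)
    (h : S.G.Adj x y) (h' : ¬ S.G.Adj x' y) : S.lt (S.s (S.c x) (S.c y)) x x' := by
  rw [S.lt_iff]
  intro h1
  refine h' (S.see hc.symm (by rw [← hc]; exact hy) ?_ h)
  rw [← hc]
  exact h1

theorem bef_trans {S : St V n} {i j : Fin n} (hij : i ≠ j) {u v w : V} (h : Bef S i j u v)
    (h' : Bef S i j v w) : Bef S i j u w := by
  rcases h with ⟨h1, h2, h3⟩ | ⟨h1, h2, h3⟩ | ⟨h1, h2, h3⟩ | ⟨h1, h2, h3⟩ <;>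
    rcases h' with ⟨g1, g2, g3⟩ | ⟨g1, g2, g3⟩ | ⟨g1, g2, g3⟩ | ⟨g1, g2, g3⟩
  · exact Or.inl ⟨h1, g2, S.lt_trans h3 g3⟩
  · exact absurd (h2.symm.trans g1) hij
  · refine Or.inr (Or.inr (Or.inl ⟨h1, g2, ?_⟩))
    refine S.see (x := u) (x' := v) (h1.trans h2.symm) (by rw [g2, h1]; exact hij.symm) ?_ g3
    rw [h1, g2]
    exact S.le_of_lt h3
  · exact absurd (h2.symm.trans g1) hij
  · exact absurd (g1.symm.trans h2) hij
  · exact Or.inr (Or.inl ⟨h1, g2, S.lt_trans g3 h3⟩)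
  · exact absurd (g1.symm.trans h2) hij
  · refine Or.inr (Or.inr (Or.inr ⟨h1, g2, fun ha => g3 ?_⟩))
    refine (S.see (x := v) (x' := u) (h2.trans h1.symm) (by rw [g2, h2]; exact hij) ?_ ha.symm).symm
    rw [h2, g2]
    exact S.le_of_lt h3
  · exact absurd (g1.symm.trans h2) hij
  · refine Or.inr (Or.inr (Or.inl ⟨h1, g2, ?_⟩))
    refine (S.see (x := w) (x' := v) (g2.trans h2.symm) (by rw [h1, g2]; exact hij) ?_ h3.symm).symm
    rw [g2, h1]
    exact S.le_of_lt g3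
  · exact absurd (g1.symm.trans h2) hij
  · refine Or.inl ⟨h1, g2, ?_⟩
    have := lt_of_adj (S := S) (x := u) (x' := w) (y := v) (h1.trans g2.symm)
      (by rw [h2, h1]; exact hij.symm) h3 g3
    rw [h1, h2] at this
    exact this
  · refine Or.inr (Or.inr (Or.inr ⟨h1, g2, fun ha => h3 ?_⟩))
    refine S.see (x := v) (x' := w) (h2.trans g2.symm) (by rw [h1, h2]; exact hij.symm) ?_ ha
    rw [h2, h1]
    exact S.le_of_lt g3
  · exact absurd (h2.symm.trans g1) hij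
  · refine Or.inr (Or.inl ⟨h1, g2, ?_⟩)
    have := lt_of_adj (S := S) (x := w) (x' := u) (y := v) (g2.trans h1.symm)
      (by rw [h2, g2]; exact hij) g3.symm (fun ha => h3 ha.symm)
    rw [g2, h2] at this
    exact this
  · exact absurd (h2.symm.trans g1) hij

theorem bef_irrefl {S : St V n} {i j : Fin n} (hij : i ≠ j) (u : V) : ¬ Bef S i j u u := by
  rintro (⟨_, _, h3⟩ | ⟨_, _, h3⟩ | ⟨h1, h2, _⟩ | ⟨h1, h2, _⟩)
  · exact S.ne_of_lt h3 rfl
  · exact S.ne_of_lt h3 rfl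
  · exact hij (h1.symm.trans h2)
  · exact hij (h2.symm.trans h1)

theorem bef_total {S : St V n} {i j : Fin n} {u w : V} (hu : S.c u = i ∨ S.c u = j)
    (hw : S.c w = i ∨ S.c w = j) (hne : u ≠ w) : Bef S i j u w ∨ Bef S i j w u := by
  have key : ∀ (e : Bool) (x y : V), S.c x = S.c y → x ≠ y → S.lt e x y ∨ S.lt e y x := by
    intro e x y hc hxy
    by_contra hcon
    push Not at hcon
    rw [S.lt_iff, S.lt_iff, not_not, not_not] at hcon
    exact hxy (S.eq_of_le hc hcon.2 hcon.1)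
  rcases hu with hu | hu <;> rcases hw with hw | hw
  · rcases key (S.s i j) u w (hu.trans hw.symm) hne with h | h
    · exact Or.inl (Or.inl ⟨hu, hw, h⟩)
    · exact Or.inr (Or.inl ⟨hw, hu, h⟩)
  · by_cases ha : S.G.Adj u w
    · exact Or.inl (Or.inr (Or.inr (Or.inl ⟨hu, hw, ha⟩)))
    · exact Or.inr (Or.inr (Or.inr (Or.inr ⟨hw, hu, ha⟩)))
  · by_cases ha : S.G.Adj w u
    · exact Or.inr (Or.inr (Or.inr (Or.inl ⟨hw, hu, ha⟩)))
    · exact Or.inl (Or.inr (Or.inr (Or.inr ⟨hu, hw, ha⟩)))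
  · rcases key (S.s j i) u w (hu.trans hw.symm) hne with h | h
    · exact Or.inr (Or.inr (Or.inl ⟨hw, hu, h⟩))
    · exact Or.inl (Or.inr (Or.inl ⟨hu, hw, h⟩))

theorem bef_cls {S : St V n} {i j : Fin n} {u w : V} (h : Bef S i j u w) :
    (S.c u = i ∨ S.c u = j) ∧ (S.c w = i ∨ S.c w = j) := by
  rcases h with ⟨h1, h2, _⟩ | ⟨h1, h2, _⟩ | ⟨h1, h2, _⟩ | ⟨h1, h2, _⟩
  · exact ⟨Or.inl h1, Or.inl h2⟩
  · exact ⟨Or.inr h1, Or.inr h2⟩
  · exact ⟨Or.inl h1, Or.inr h2⟩
  · exact ⟨Or.inr h1, Or.inl h2⟩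

/-- the node of `u` does not come after the node of `w` if `u` comes before `w` -/
theorem bef_bl {S : St V n} {i j : Fin n} (hij : i ≠ j) {u w : V} (h : Bef S i j u w) :
    bl S u = bl S w ∨ Bef S i j (bl S u) (bl S w) := by
  by_cases he : bl S u = bl S w
  · exact Or.inl he
  right
  rcases h with ⟨h1, h2, h3⟩ | ⟨h1, h2, h3⟩ | ⟨h1, h2, h3⟩ | ⟨h1, h2, h3⟩
  · refine Or.inl ⟨by rw [c_bl, h1], by rw [c_bl, h2], ?_⟩
    have hne : S.ρ (bl S u) ≠ S.ρ (bl S w) := fun h => he (S.inj _ _ (by rw [c_bl, c_bl, h1, h2]) h)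
    have hc : S.c u = S.c w := h1.trans h2.symm
    unfold St.lt at h3 ⊢
    split_ifs at h3 ⊢ with hs
    · have := bl_mono hc (le_of_lt h3)
      omega
    · have := bl_mono hc.symm (le_of_lt h3)
      omega
  · refine Or.inr (Or.inl ⟨by rw [c_bl, h1], by rw [c_bl, h2], ?_⟩)
    have hne : S.ρ (bl S u) ≠ S.ρ (bl S w) := fun h => he (S.inj _ _ (by rw [c_bl, c_bl, h1, h2]) h)
    have hc : S.c u = S.c w := h1.trans h2.symm
    unfold St.lt at h3 ⊢
    split_ifs at h3 ⊢ with hs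
    · have := bl_mono hc.symm (le_of_lt h3)
      omega
    · have := bl_mono hc (le_of_lt h3)
      omega
  · exact Or.inr (Or.inr (Or.inl ⟨by rw [c_bl, h1], by rw [c_bl, h2],
      (adj_bl (by rw [h1, h2]; exact hij)).2 h3⟩))
  · exact Or.inr (Or.inr (Or.inr ⟨by rw [c_bl, h1], by rw [c_bl, h2],
      fun h => h3 ((adj_bl (by rw [h1, h2]; exact hij)).1 h)⟩))

/-! ### exceptions and the block graph -/

/-- `x, y` is an exceptional pair: `S.G` and `G` disagree on it -/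
def Exc (S : St V n) (G : SimpleGraph V) (x y : V) : Prop := ¬ (S.G.Adj x y ↔ G.Adj x y)

theorem Exc.symm {S : St V n} {G : SimpleGraph V} {x y : V} (h : Exc S G x y) : Exc S G y x :=
  fun h' => h (by rw [SimpleGraph.adj_comm, h', SimpleGraph.adj_comm])

/-- exceptions only between clique classes and stable classes, at most `b` at every vertex -/
structure ExcB (S : St V n) (G : SimpleGraph V) (b : ℕ) : Prop where
  typ : ∀ x y, Exc S G x y → S.t (S.c x) ≠ S.t (S.c y)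
  deg : ∀ x, {y | Exc S G x y}.ncard ≤ b
  sgn : ∀ i, S.t i = true → ∀ j, S.s i j = true

theorem ExcB.cls {S : St V n} {G : SimpleGraph V} {b : ℕ} (h : ExcB S G b) {x y : V}
    (he : Exc S G x y) : S.c x ≠ S.c y := fun h' => h.typ x y he (by rw [h'])

/-- corners: nodes of different classes which are consecutive on the merged line of their classes -/
def Cn (S : St V n) (u w : V) : Prop :=
  S.c u ≠ S.c w ∧
    ((Bef S (S.c u) (S.c w) u w ∧
        ∀ z, Nd S z → ¬ (Bef S (S.c u) (S.c w) u z ∧ Bef S (S.c u) (S.c w) z w)) ∨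
      (Bef S (S.c u) (S.c w) w u ∧
        ∀ z, Nd S z → ¬ (Bef S (S.c u) (S.c w) w z ∧ Bef S (S.c u) (S.c w) z u)))

theorem Cn.symm {S : St V n} {u w : V} (h : Cn S u w) : Cn S w u := by
  refine ⟨fun h' => h.1 h'.symm, ?_⟩
  rcases h.2 with ⟨h1, h2⟩ | ⟨h1, h2⟩
  · refine Or.inl ⟨(bef_symm S _ _ _ _).2 h1, fun z hz h3 => h2 z hz ?_⟩
    exact ⟨(bef_symm S _ _ _ _).1 h3.2, (bef_symm S _ _ _ _).1 h3.1⟩
  · refine Or.inr ⟨(bef_symm S _ _ _ _).2 h1, fun z hz h3 => h2 z hz ?_⟩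
    exact ⟨(bef_symm S _ _ _ _).1 h3.2, (bef_symm S _ _ _ _).1 h3.1⟩

/-- **Cross relation of the block graph**: two nodes of different classes which form a corner, or whose blocks
contain an exceptional pair -/
def Xr (S : St V n) (G : SimpleGraph V) (u w : V) : Prop :=
  S.c u ≠ S.c w ∧ (Cn S u w ∨ ∃ x y, bl S x = u ∧ bl S y = w ∧ Exc S G x y)

theorem Xr.symm {S : St V n} {G : SimpleGraph V} {u w : V} (h : Xr S G u w) : Xr S G w u := by
  refine ⟨fun h' => h.1 h'.symm, ?_⟩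
  rcases h.2 with h1 | ⟨x, y, hx, hy, he⟩
  · exact Or.inl h1.symm
  · exact Or.inr ⟨y, x, hy, hx, he.symm⟩

end Pool.Agent.MPd439b2.BT
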