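import Pool.Agent.Lib.MP_d439b2_co.BT.Graph

/-!
# MP_d439b2_co, BT: the pair of a vertex, balls of exceptional pairs, homogeneous rails, definitions (helper85)
-/

set_option autoImplicit false

namespace Pool.Agent.MPd439b2.BT

open Pool.Agent.MPd439b2 Pool.Agent.MPd439b2.X2 Pool.Agent.MPd439b2.VX

variable {V : Type} {n : ℕ}

/-- the nodes of the block graph -/
abbrev Nod (S : St V n) : Type := {x : V // Nd S x}

/-! ### the pair of a vertex -/

open Classical in
/-- the pair of the vertex `v`: the nodes of `v` and of one of its mates; the loop if `v` has no mate -/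
noncomputable def des (S : St V n) (G : SimpleGraph V) (v : V) : Nod S × Nod S :=
  if h : ∃ z, Exc S G v z then (nd S v, nd S h.choose) else (nd S v, nd S v)

theorem des_fst (S : St V n) (G : SimpleGraph V) (v : V) : (des S G v).1 = nd S v := by
  unfold des
  split_ifs <;> rfl

theorem des_mate {S : St V n} {G : SimpleGraph V} {v : V} (h : ∃ z, Exc S G v z) :
    ∃ z, Exc S G v z ∧ des S G v = (nd S v, nd S z) := by
  unfold des
  rw [dif_pos h]
  exact ⟨h.choose, h.choose_spec, rfl⟩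

theorem des_loop {S : St V n} {G : SimpleGraph V} {v : V} (h : ¬ ∃ z, Exc S G v z) :
    des S G v = (nd S v, nd S v) := by
  unfold des
  rw [dif_neg h]

theorem exc_xr {S : St V n} {G : SimpleGraph V} {b : ℕ} (hb : ExcB S G b) {v w : V}
    (h : Exc S G v w) : Xr S G (nd S v).1 (nd S w).1 :=
  ⟨by rw [c_nd, c_nd]; exact hb.cls h, Or.inr ⟨v, w, rfl, rfl, h⟩⟩

section ed

variable (S : St V n) (G : SimpleGraph V) [Fintype (Nod S)]

theorem loop_mem (x : Nod S) : (x, x) ∈ (BGr S G).Ed Finset.univ :=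
  BG.mem_Ed.2 ⟨Finset.mem_univ _, Or.inl rfl⟩

theorem xr_mem {x y : Nod S} (h : Xr S G x.1 y.1) : (x, y) ∈ (BGr S G).Ed Finset.univ :=
  BG.mem_Ed.2 ⟨Finset.mem_univ _, Or.inr ⟨Finset.mem_univ _, Finset.mem_univ _, Or.inr (Or.inr h)⟩⟩

variable {S G}

theorem exc_mem {b : ℕ} (hb : ExcB S G b) {v w : V} (h : Exc S G v w) :
    (nd S v, nd S w) ∈ (BGr S G).Ed Finset.univ := xr_mem S G (exc_xr hb h)

theorem des_mem {b : ℕ} (hb : ExcB S G b) (v : V) : des S G v ∈ (BGr S G).Ed Finset.univ := by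
  by_cases h : ∃ z, Exc S G v z
  · obtain ⟨z, hz, he⟩ := des_mate h
    rw [he]
    exact exc_mem hb hz
  · rw [des_loop h]
    exact loop_mem S G _

end ed

/-- the vertices with pairs in `F` -/
def AF (S : St V n) (G : SimpleGraph V) (F : Finset (Nod S × Nod S)) : Set V := {v | des S G v ∈ F}

/-- the double vertices of `F`: vertices with two mates, one pair in `F` and the other one outside -/
def Dbl (S : St V n) (G : SimpleGraph V) (F : Finset (Nod S × Nod S)) : Set V :=
  {w | ∃ z z', Exc S G w z ∧ Exc S G w z' ∧ (nd S w, nd S z) ∈ F ∧ (nd S w, nd S z') ∉ F}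

/-- the vertices of the block `p` with a mate in the block `q` -/
def Zp (S : St V n) (G : SimpleGraph V) (p q : V) : Set V :=
  {v | bl S v = p ∧ ∃ w, bl S w = q ∧ Exc S G v w}

/-- at most `bb` exceptional vertices between two blocks -/
def BBd (S : St V n) (G : SimpleGraph V) (bb : ℕ) : Prop := ∀ p q, (Zp S G p q).ncard ≤ bb

/-- the ball of radius `r` in the graph of the exceptional pairs -/
def Bll (S : St V n) (G : SimpleGraph V) : ℕ → V → Set V
  | 0, v => {v}
  | r + 1, v => {u | ∃ w ∈ Bll S G r v, u = w ∨ Exc S G w u}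

theorem bll_mono {S : St V n} {G : SimpleGraph V} {r r' : ℕ} (h : r ≤ r') (v : V) :
    Bll S G r v ⊆ Bll S G r' v := by
  induction h with
  | refl => exact subset_rfl
  | step _ ih => exact fun u hu => ⟨u, ih hu, Or.inl rfl⟩

theorem bll_step {S : St V n} {G : SimpleGraph V} {r : ℕ} {u v w : V} (h : w ∈ Bll S G r v)
    (he : Exc S G w u) : u ∈ Bll S G (r + 1) v := ⟨w, h, Or.inr he⟩

theorem bll_left {S : St V n} {G : SimpleGraph V} {r : ℕ} {u v w : V} (he : Exc S G v w)
    (h : u ∈ Bll S G r w) : u ∈ Bll S G (r + 1) v := by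
  induction r generalizing u with
  | zero =>
    rw [show u = w from h]
    exact ⟨v, rfl, Or.inr he⟩
  | succ r ih =>
    obtain ⟨t, ht, h'⟩ := h
    exact ⟨t, ih ht, h'⟩

theorem bll_symm {S : St V n} {G : SimpleGraph V} {r : ℕ} {u v : V} (h : u ∈ Bll S G r v) :
    v ∈ Bll S G r u := by
  induction r generalizing u with
  | zero => exact (show u = v from h).symm
  | succ r ih =>
    obtain ⟨t, ht, h'⟩ := h
    rcases h' with h' | h'
    · rw [h']
      exact bll_mono (Nat.le_succ r) t (ih ht)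
    · exact bll_left h'.symm (ih ht)

theorem bll_add {S : St V n} {G : SimpleGraph V} {r s : ℕ} {u v w : V} (h : w ∈ Bll S G r v)
    (h' : u ∈ Bll S G s w) : u ∈ Bll S G (r + s) v := by
  induction s generalizing u with
  | zero =>
    rw [show u = w from h']
    exact h
  | succ s ih =>
    obtain ⟨t, ht, h2⟩ := h'
    exact ⟨t, ih ht, h2⟩

theorem bll_card [Finite V] {S : St V n} {G : SimpleGraph V} {b : ℕ} (hb : ExcB S G b) (r : ℕ)
    (v : V) : (Bll S G r v).ncard ≤ (b + 1) ^ r := by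
  classical
  induction r with
  | zero =>
    show ({v} : Set V).ncard ≤ _
    rw [Set.ncard_singleton]
    exact le_rfl
  | succ r ih =>
    have h1 : Bll S G (r + 1) v = ⋃ w ∈ (Set.toFinite (Bll S G r v)).toFinset,
        (insert w {u | Exc S G w u}) := by
      ext u
      constructor
      · rintro ⟨w, hw, h⟩
        rw [Set.mem_iUnion₂]
        exact ⟨w, (Set.Finite.mem_toFinset _).2 hw, h⟩
      · intro h
        rw [Set.mem_iUnion₂] at h
        obtain ⟨w, hw, h⟩ := h
        exact ⟨w, (Set.Finite.mem_toFinset _).1 hw, h⟩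
    rw [h1]
    refine (Finset.set_ncard_biUnion_le _ _).trans ?_
    calc ∑ w ∈ (Set.toFinite (Bll S G r v)).toFinset, (insert w {u | Exc S G w u}).ncard
        ≤ ∑ w ∈ (Set.toFinite (Bll S G r v)).toFinset, (b + 1) := by
          refine Finset.sum_le_sum fun w _ => ?_
          exact (Set.ncard_insert_le _ _).trans (Nat.add_le_add_right (hb.deg w) 1)
      _ = (Bll S G r v).ncard * (b + 1) := by
          rw [Finset.sum_const, smul_eq_mul, Set.ncard_eq_toFinset_card _ (Set.toFinite _)]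
      _ ≤ (b + 1) ^ r * (b + 1) := Nat.mul_le_mul_right _ ih
      _ = (b + 1) ^ (r + 1) := (pow_succ _ _).symm

/-! ### homogeneous rails -/

/-- homogeneous rails `x 0, .., x (L - 1)` with `M` indices (the format of `FT.HR`): for `k < l` the adjacency of
`x i k` and `x j l` is the bit `16 i + j`, for `i < j` the adjacency of `x i k` and `x j k` is the bit
`256 + 16 i + j` -/
structure HRa (G : SimpleGraph V) (L M : ℕ) (x : ℕ → ℕ → V) (F : ℕ → Bool) : Prop where
  dis : ∀ i < L, ∀ j < L, ∀ k < M, ∀ l < M, (i ≠ j ∨ k ≠ l) → x i k ≠ x j l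
  rel : ∀ i < L, ∀ j < L, ∀ k l, k < l → l < M → (G.Adj (x i k) (x j l) ↔ F (16 * i + j) = true)
  dg : ∀ i < L, ∀ j < L, i < j → ∀ k < M, (G.Adj (x i k) (x j k) ↔ F (256 + 16 * i + j) = true)

/-- the rails `i, j` (`i < j`) are a co-matching between a clique and a stable set -/
def CoM (F : ℕ → Bool) (i j : ℕ) : Prop :=
  F (16 * i + j) = true ∧ F (16 * j + i) = true ∧ F (256 + 16 * i + j) = false ∧ F (17 * i) ≠ F (17 * j)

/-- **Fact (f2)**: in a path `0 = 1 = 2` of co-matchings, a rail `3` which is half to `0` is half to `2`, with the same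
code -/
def FF2 (G : SimpleGraph V) : Prop := ∀ (x : ℕ → ℕ → V) (F : ℕ → Bool), HRa G 4 16 x F →
  CoM F 0 1 → CoM F 1 2 → F 3 ≠ F 48 → F 35 = F 3 ∧ F 50 = F 48

/-- **Fact (F10)**: there is no path of co-matchings with `10` rails all other pairs of which are constant -/
def FF10 (G : SimpleGraph V) : Prop := ∀ (x : ℕ → ℕ → V) (F : ℕ → Bool), HRa G 10 16 x F →
  (∀ i j, i + 2 ≤ j → j < 10 →
    F (16 * i + j) = F (16 * j + i) ∧ F (256 + 16 * i + j) = F (16 * i + j)) →
  (∀ i < 9, CoM F i (i + 1)) → False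

/-- there is no thin spider of size `m`: clique `a`, stable set `c`, matching -/
def NoSp (G : SimpleGraph V) (m : ℕ) : Prop := ∀ a c : ℕ → V,
  ¬ ((∀ k < m, ∀ l < m, a k ≠ c l) ∧ (∀ k < m, ∀ l < m, k ≠ l → a k ≠ a l ∧ c k ≠ c l) ∧
    (∀ k < m, ∀ l < m, k ≠ l → G.Adj (a k) (a l) ∧ ¬ G.Adj (c k) (c l)) ∧
    ∀ k < m, ∀ l < m, (G.Adj (a k) (c l) ↔ k = l))

/-- homogeneous sequences of vertices for `S` and `G` (the rails may intersect on the diagonal) -/
structure HM (S : St V n) (G : SimpleGraph V) (L M : ℕ) (x : ℕ → ℕ → V) (F : ℕ → Bool) : Prop where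
  rel : ∀ i < L, ∀ j < L, ∀ k l, k < l → l < M → (G.Adj (x i k) (x j l) ↔ F (16 * i + j) = true)
  dg : ∀ i < L, ∀ j < L, i < j → ∀ k < M, (G.Adj (x i k) (x j k) ↔ F (256 + 16 * i + j) = true)
  ne : ∀ i < L, ∀ j < L, ∀ k < M, ∀ l < M, k ≠ l → x i k ≠ x j l
  ex : ∀ i < L, ∀ j < L, ∀ k < M, ∀ l < M, k ≠ l → ¬ Exc S G (x i k) (x j l)
  eq : ∀ i < L, ∀ j < L, (∀ k < M, x i k = x j k) ∨ ∀ k < M, x i k ≠ x j k

end Pool.Agent.MPd439b2.BT
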