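import Pool.Agent.Lib.MP_d439b2_co.BT.SpecG

/-!
# MP_d439b2_co, BT, Dich: a good interval is small or big (helper74)
-/

set_option autoImplicit false

namespace Pool.Agent.MPd439b2.BT

open Pool.Agent.MPd439b2
open Pool.Agent.MPd439b2.VX

theorem dich (h1 : S_SubT) : S_Dich := by
  intro α _ _ n G i S m₁ m₂ R M hC p q hG
  by_contra hno
  rw [not_or, not_lt, not_lt] at hno
  obtain ⟨n1, n2⟩ := hno
  set J : Finset α := Finset.univ.filter fun x => G.c x = i ∧ p ≤ G.ρ x ∧ G.ρ x < q with hJ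
  have hmem : ∀ x, x ∈ J ↔ G.c x = i ∧ p ≤ G.ρ x ∧ G.ρ x < q := by
    intro x
    rw [hJ, Finset.mem_filter]
    exact ⟨fun h => h.2, fun h => ⟨Finset.mem_univ _, h⟩⟩
  have hin : M ≤ (S ∩ J).card := by
    refine n1.trans (Finset.card_le_card ?_)
    intro x hx
    rw [Finset.mem_filter] at hx
    rw [Finset.mem_inter, hmem]
    exact ⟨hx.1, hC.cS x hx.1, hx.2⟩
  have hout : M ≤ (S \ J).card := by
    refine n2.trans (Finset.card_le_card ?_)
    intro x hx
    rw [Finset.mem_filter] at hx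
    rw [Finset.mem_sdiff, hmem]
    exact ⟨hx.1, fun h => hx.2 h.2⟩
  obtain ⟨r, A, B, χ, hr, hRb, hL⟩ := hC.bal J (fun x hx => ((hmem x).mp hx).1) (by
    intro x hx z hz y hc hxy hyz
    rw [hmem] at hx hz ⊢
    exact ⟨hc.trans hx.1, by omega, by omega⟩) hin hout
  have hc0 : ∀ k < m₁ + m₂, G.c (A k 0) = i := fun k hk =>
    (hRb.tr.cA k hk 0 (Nat.zero_le _)).trans hRb.tr.ch0
  have hcr : ∀ k < m₁ + m₂, G.c (A k r) = i := fun k hk =>
    (hRb.tr.cA k hk r (le_refl _)).trans hRb.tr.chr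
  have hfirst := ((h1 α n G i (m₁ + m₂) m₁ r A B χ (fun k => k)
    (fun k hk => by omega)).2 (fun k l hkl _ => hkl)).2 hRb
  have hg := hG r _ _ χ hr hfirst
  rcases hL with hL | hL
  · apply hg.1
    intro k hk
    have hk' : k < m₁ + m₂ := by omega
    have e1 := (hmem _).mp (hL k hk').1
    refine ⟨e1.2.1, e1.2.2, ?_⟩
    by_contra hlt
    push Not at hlt
    have e2 := hRb.bet k hk' k hk'
    have e3 : A k r ∈ J := (hmem _).mpr ⟨hcr k hk', by have := e1.2.1; omega, hlt⟩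
    exact lt_irrefl _ ((hL k hk').2 _ e3)
  · apply hg.2
    intro k hk
    have hk' : k < m₁ + m₂ := by omega
    have e1 := (hmem _).mp (hL k hk').1
    refine ⟨?_, e1.2.1, e1.2.2⟩
    by_contra hlt
    push Not at hlt
    have e2 := hRb.bet k hk' k hk'
    have e3 : A k 0 ∈ J := (hmem _).mpr ⟨hc0 k hk', hlt, by have := e1.2.2; omega⟩
    exact lt_irrefl _ ((hL k hk').2 _ e3)

end Pool.Agent.MPd439b2.BT
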