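import Pool.Agent.Lib.MP_d439b2_co.BT.SpecB
import Pool.Agent.Lib.MP_d439b2_co.W.SpecE

/-!
# MP_d439b2_co, `BT/ES`: Erdos and Szekeres for two sequences
-/

set_option autoImplicit false

namespace Pool.Agent.MPd439b2.BT

open Pool.Agent.MPd439b2

theorem es (h : W.S_RamC) : S_ES := by
  intro m
  classical
  obtain ⟨M, hM⟩ := h (Prop × Prop) m
  refine ⟨M, fun f g hfg => ?_⟩
  obtain ⟨s, c, hs, hsM, hc⟩ := hM fun i j => (f i < f j, g i < g j)
  have hne : ∀ k l, k < l → l < m → f (s k) ≠ f (s l) ∧ g (s k) ≠ g (s l) := fun k l hkl hl =>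
    hfg _ (hsM k (hkl.trans hl)) _ (hsM l hl) (hs k l hkl hl).ne
  have hf : ∀ k l, k < l → l < m → (f (s k) < f (s l) ↔ c.1) := fun k l hkl hl => by
    rw [← hc k l hkl hl]
  have hg : ∀ k l, k < l → l < m → (g (s k) < g (s l) ↔ c.2) := fun k l hkl hl => by
    rw [← hc k l hkl hl]
  by_cases h1 : c.1
  · refine ⟨s, hsM, fun k l hkl hl => (hf k l hkl hl).2 h1, ?_⟩
    by_cases h2 : c.2
    · exact Or.inl fun k l hkl hl => (hg k l hkl hl).2 h2
    · refine Or.inr fun k l hkl hl => ?_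
      have h3 : ¬ g (s k) < g (s l) := fun h4 => h2 ((hg k l hkl hl).1 h4)
      exact lt_of_le_of_ne (not_lt.1 h3) (hne k l hkl hl).2.symm
  · have hd : ∀ k l, k < l → l < m → f (s l) < f (s k) := fun k l hkl hl => by
      have h3 : ¬ f (s k) < f (s l) := fun h4 => h1 ((hf k l hkl hl).1 h4)
      exact lt_of_le_of_ne (not_lt.1 h3) (hne k l hkl hl).1.symm
    refine ⟨fun k => s (m - 1 - k), fun k hk => hsM _ (by omega), fun k l hkl hl =>
      hd _ _ (by omega) (by omega), ?_⟩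
    by_cases h2 : c.2
    · refine Or.inr fun k l hkl hl => ?_
      exact (hg (m - 1 - l) (m - 1 - k) (by omega) (by omega)).2 h2
    · refine Or.inl fun k l hkl hl => ?_
      have h3 : ¬ g (s (m - 1 - l)) < g (s (m - 1 - k)) := fun h4 =>
        h2 ((hg (m - 1 - l) (m - 1 - k) (by omega) (by omega)).1 h4)
      exact lt_of_le_of_ne (not_lt.1 h3) (hne (m - 1 - l) (m - 1 - k) (by omega) (by omega)).2.symm

end Pool.Agent.MPd439b2.BT
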