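import Pool.Agent.Lib.MP_d439b2_co.BT.SpecF
import Pool.Agent.Lib.MP_d439b2_co.BP.Asm

/-!
# MP_d439b2_co, BT: the end game `BP.S_End` (helper85)
-/

set_option autoImplicit false

namespace Pool.Agent.MPd439b2.BT

open Pool.Agent.MPd439b2

/-- **The end game** -/
theorem endF (h : S_LayF) : BP.S_End := by
  intro m β n b
  obtain ⟨c₀, k, hk⟩ := h n b m β
  refine ⟨c₀, k, fun V _ G S hF hT hL h3 h4 h5 => hk V S G ⟨⟨h3, h4, h5⟩, hF.1, hF.2, hT⟩ hL⟩

end Pool.Agent.MPd439b2.BT
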