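import Pool.Agent.Lib.MP_d439b2_co.BT.Des
import Pool.Agent.Lib.MP_d439b2_co.FT.F2w
import Pool.Agent.Lib.MP_d439b2_co.Rep.RowX

/-!
# MP_d439b2_co, BT: the hypotheses `FF2` and `NoSp` from the tables and the pattern classes (helper32)
-/

set_option autoImplicit false

namespace Pool.Agent.MPd439b2.BT

open Pool.Agent.MPd439b2

/-- the two structures of homogeneous rails are the same -/
theorem HRa.hr {V : Type} {G : SimpleGraph V} {L M : ℕ} {x : ℕ → ℕ → V} {F : ℕ → Bool}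
    (h : HRa G L M x F) : FT.HR G L M x F := ⟨h.dis, h.rel, h.dg⟩

/-- a graph without `K3:0,1,02` and `J_2` satisfies `FF2` -/
theorem ff2_of {V : Type} {G : SimpleGraph V} (hH : ¬ IMS (KA 3 3 ![{0}, {1}, {0, 2}]) G Set.univ)
    (hJ : ¬ IMS (F9.JS ![0, 1, 1] 2) G Set.univ) : FF2 G := by
  intro x F h h1 h2 h3
  obtain ⟨a1, a2, a3, a4⟩ := h1
  obtain ⟨b1, b2, b3, b4⟩ := h2
  norm_num at a1 a2 a3 a4 b1 b2 b3 b4
  refine FT.f2 hH hJ h.hr ?_ ?_ a1 a2 a3 b1 b2 b3 ?_
  · revert a4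
    cases F 0 <;> cases F 17 <;> simp
  · revert a4 b4
    cases F 0 <;> cases F 17 <;> cases F 34 <;> simp
  · revert h3
    cases F 3 <;> cases F 48 <;> simp

/-- no thin spider -/
theorem nosp_of {V : Type} {G : SimpleGraph V} {m : ℕ} (h : Rep.NoTP G m true false false) :
    NoSp G m := by
  rintro a c ⟨h1, h2, h3, h4⟩
  refine h a c ⟨h1, fun i hi j hj hij => (h2 i hi j hj hij).1,
    fun i hi j hj hij => (h2 i hi j hj hij).2, fun i hi j hj hij => ?_, fun i hi j hj hij => ?_,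
    fun i hi j hj => ?_⟩
  · exact iff_of_true (h3 i hi j hj hij).1 rfl
  · exact iff_of_false (h3 i hi j hj hij).2 (by simp)
  · rw [h4 i hi j hj]
    exact (iff_true_right rfl).symm

end Pool.Agent.MPd439b2.BT
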