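import Pool.Agent.Lib.MP_d439b2_co.BT.SpecA

/-!
# MP_d439b2_co, BT: no large fans
-/

set_option autoImplicit false

namespace Pool.Agent.MPd439b2.BT

open Pool.Agent.MPd439b2 Pool.Agent.MPd439b2.X2

/-- indices with different values of `w`, if every value is taken by at most `b` of them -/
private theorem fan_pick {V : Type} [DecidableEq V] (b M : ℕ) (I : Finset ℕ) (w : ℕ → V)
    (h : ∀ y, ((I.filter fun k => w k = y).card ≤ b)) (hI : M * b < I.card) :
    ∃ r : ℕ → ℕ, (∀ k < M, r k ∈ I) ∧ ∀ k < M, ∀ l < M, k ≠ l → w (r k) ≠ w (r l) := by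
  have h1 : I.card ≤ b * (I.image w).card :=
    Finset.card_le_mul_card_image I b fun y _ => h y
  have h2 : M ≤ (I.image w).card := by
    by_contra hcon
    push Not at hcon
    have h3 : b * (I.image w).card ≤ b * M := Nat.mul_le_mul_left b hcon.le
    have h4 : b * M = M * b := Nat.mul_comm b M
    omega
  have h5 : ∀ k, ∃ r, k < M → r ∈ I ∧ ∃ hk : k < (I.image w).card,
      w r = ((I.image w).equivFin.symm ⟨k, hk⟩ : V) := by
    intro k
    by_cases hk : k < M
    · have hk' : k < (I.image w).card := by omega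
      obtain ⟨r, hr, hr'⟩ := Finset.mem_image.1 ((I.image w).equivFin.symm ⟨k, hk'⟩).2
      exact ⟨r, fun _ => ⟨hr, hk', hr'⟩⟩
    · exact ⟨0, fun h => absurd h hk⟩
  choose r hr using h5
  refine ⟨r, fun k hk => (hr k hk).1, fun k hk l hl hkl he => hkl ?_⟩
  obtain ⟨_, hk', ek⟩ := hr k hk
  obtain ⟨_, hl', el⟩ := hr l hl
  rw [ek, el] at he
  have h6 := (I.image w).equivFin.symm.injective (Subtype.ext he)
  exact congrArg Fin.val h6

theorem fan (h : S_Cfg) : S_Fan := by
  classical
  intro n b m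
  obtain ⟨M, hM⟩ := h n b m 2
  refine ⟨(b + 1) * (M + 1) + 2, ?_⟩
  intro V _ S G p q s v w z hb hf hs h1 h2
  by_contra hcon
  push Not at hcon
  -- the indices with `bl (z k) ≠ q`
  have hI : s - 1 ≤ ((Finset.range s).filter fun k => bl S (z k) ≠ q).card := by
    have e1 := Finset.card_filter_add_card_filter_not (s := Finset.range s)
      (fun k => bl S (z k) = q)
    have e2 : ((Finset.range s).filter fun k => bl S (z k) = q).card ≤ 1 := by
      rw [Finset.card_le_one]
      intro k hk l hl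
      rw [Finset.mem_filter, Finset.mem_range] at hk hl
      by_contra hne
      exact (h2 k hk.1 l hl.1 hne).2 (hk.2.trans hl.2.symm)
    rw [Finset.card_range] at e1
    have e3 : ((Finset.range s).filter fun k => ¬ bl S (z k) = q).card =
        ((Finset.range s).filter fun k => bl S (z k) ≠ q).card := rfl
    omega
  have hI2 : M * b < ((Finset.range s).filter fun k => bl S (z k) ≠ q).card := by
    have e1 : (b + 1) * (M + 1) = M * b + M + b + 1 := by ring
    omega
  obtain ⟨r, hr, hr'⟩ := fan_pick b M _ w (fun y => by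
    refine le_trans ?_ (hb.deg y)
    rw [← Set.ncard_coe_finset]
    refine Set.ncard_le_ncard_of_injOn v ?_ ?_ (Set.toFinite _)
    · intro k hk
      rw [Finset.mem_coe, Finset.mem_filter, Finset.mem_filter, Finset.mem_range] at hk
      obtain ⟨⟨hk1, _⟩, hk2⟩ := hk
      show Exc S G y (v k)
      rw [← hk2]
      exact (h1 k hk1).2.2.1.symm
    · intro k hk l hl he
      rw [Finset.mem_coe, Finset.mem_filter, Finset.mem_filter, Finset.mem_range] at hk hl
      by_contra hne
      exact (h2 k hk.1.1 l hl.1.1 hne).1 he) hI2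
  have hrs : ∀ k < M, r k < s ∧ bl S (z (r k)) ≠ q := by
    intro k hk
    have := hr k hk
    rw [Finset.mem_filter, Finset.mem_range] at this
    exact this
  obtain ⟨κ, a, i, i', j, _, hi', hκ, hc, ha⟩ := hM V S G p (fun k => v (r k))
    (fun k => w (r k)) (fun k => z (r k)) hb hf hs
    (fun k hk => by
      obtain ⟨g1, g2, g3, g4⟩ := h1 (r k) (hrs k hk).1
      refine ⟨g1, g3, g4, fun he => (hrs k hk).2 ?_⟩
      rw [← g2]
      exact congrArg (bl S) he)
    (fun k hk l hl hne => by
      have hne' : r k ≠ r l := fun he => hr' k hk l hl hne (by rw [he])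
      obtain ⟨g1, g2⟩ := h2 (r k) (hrs k hk).1 (r l) (hrs l hl).1 hne'
      exact ⟨g1, hr' k hk l hl hne, g2⟩)
  have e0 := (ha 0 (by omega) 0 (by omega)).2
  have e1 := (ha 1 (by omega) 0 (by omega)).2
  have q0 : bl S (w (r (κ 0))) = q := (h1 _ (hrs _ (hκ 0 (by omega))).1).2.1
  have q1 : bl S (w (r (κ 1))) = q := (h1 _ (hrs _ (hκ 1 (by omega))).1).2.1
  have tw := tw_of_bl (q0.trans q1.symm)
  have e2 := tw.2 (a 0) (by
    rw [(hc 0 (by omega)).2.2, (hc 0 (by omega)).2.1]
    exact hi'.symm)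
  have e3 : (0 ≤ 0 ↔ S.s i j = true) ↔ (1 ≤ 0 ↔ S.s i j = true) := e0.symm.trans (e2.trans e1)
  revert e3
  cases S.s i j <;> simp

end Pool.Agent.MPd439b2.BT
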