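import Pool.Agent.Lib.MP_d439b2_co.BT.SpecA

/-!
# MP_d439b2_co, BT: the mates of the vertices of `Zp p q` are in few blocks
-/

set_option autoImplicit false

namespace Pool.Agent.MPd439b2.BT

open Pool.Agent.MPd439b2 Pool.Agent.MPd439b2.X2

/-- a fan of size `s` -/
private def IsFan {V : Type} {n : ℕ} (S : St V n) (G : SimpleGraph V) (p q : V) (s : ℕ) : Prop :=
  ∃ v w z : ℕ → V,
    (∀ k < s, bl S (v k) = p ∧ bl S (w k) = q ∧ Exc S G (v k) (w k) ∧ Exc S G (v k) (z k)) ∧
    (∀ k < s, ∀ l < s, k ≠ l → v k ≠ v l ∧ bl S (z k) ≠ bl S (z l))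

theorem fanB (h1 : S_Fan) : S_FanB := by
  classical
  intro n b m
  obtain ⟨c₁, hc⟩ := h1 n b m
  refine ⟨c₁, ?_⟩
  intro V _ S G p q hb hf hs
  have hlt : ∀ s, IsFan S G p q s → s < c₁ := by
    rintro s ⟨v, w, z, g1, g2⟩
    exact hc V S G p q s v w z hb hf hs g1 g2
  have h0 : IsFan S G p q 0 :=
    ⟨fun _ => p, fun _ => p, fun _ => p, fun k hk => absurd hk (Nat.not_lt_zero k),
      fun k hk => absurd hk (Nat.not_lt_zero k)⟩
  have hmax : ∃ s, IsFan S G p q s ∧ ¬ IsFan S G p q (s + 1) := by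
    by_contra hcon
    push Not at hcon
    have hall : ∀ s, IsFan S G p q s := by
      intro s
      induction s with
      | zero => exact h0
      | succ s ih => exact hcon s ih
    exact lt_irrefl _ (hlt c₁ (hall c₁))
  obtain ⟨s, ⟨v, w, z, g1, g2⟩, hno⟩ := hmax
  have hs' : s < c₁ := hlt s ⟨v, w, z, g1, g2⟩
  have hcard : ∀ f : ℕ → V, (f '' {k | k < s}).ncard ≤ c₁ := by
    intro f
    refine (Set.ncard_image_le (Set.finite_lt_nat s)).trans ?_
    have e : ({k | k < s} : Set ℕ) = ((Finset.range s : Finset ℕ) : Set ℕ) := by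
      ext k
      rw [Finset.mem_coe, Finset.mem_range]
      exact Iff.rfl
    rw [e, Set.ncard_coe_finset, Finset.card_range]
    exact hs'.le
  refine ⟨(fun k => bl S (z k)) '' {k | k < s}, v '' {k | k < s}, hcard _, hcard _, ?_⟩
  rintro v' ⟨hv', w', hw', he'⟩ hX z' hz'
  by_contra hcon
  refine hno ⟨fun k => if k < s then v k else v', fun k => if k < s then w k else w',
    fun k => if k < s then z k else z', ?_, ?_⟩
  · intro k _
    by_cases hk : k < s
    · simp only [if_pos hk]
      exact g1 k hk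
    · simp only [if_neg hk]
      exact ⟨hv', hw', he', hz'⟩
  · intro k hk l hl hne
    by_cases hk' : k < s
    · by_cases hl' : l < s
      · simp only [if_pos hk', if_pos hl']
        exact g2 k hk' l hl' hne
      · simp only [if_pos hk', if_neg hl']
        exact ⟨fun h => hX ⟨k, hk', h⟩, fun h => hcon ⟨k, hk', h⟩⟩
    · by_cases hl' : l < s
      · simp only [if_neg hk', if_pos hl']
        exact ⟨fun h => hX ⟨l, hl', h.symm⟩, fun h => hcon ⟨l, hl', h.symm⟩⟩
      · omega

end Pool.Agent.MPd439b2.BT
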