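import Pool.Agent.Lib.MP_d439b2_co.BT.SpecF
import Pool.Agent.Lib.MP_d439b2_co.BT.Adp
import Pool.Agent.Lib.MP_d439b2_co.Rep.Cut

/-!
# MP_d439b2_co, BT: the adapter from `F1` and `CE.S_Good` to the facts, and the assembly (helper85)
-/

set_option autoImplicit false

namespace Pool.Agent.MPd439b2.BT

open Pool.Agent.MPd439b2 Pool.Agent.MPd439b2.X2 Pool.Agent.MPd439b2.VX

/-- the vertices of a block are before the next nodes -/
theorem blk_lt {V : Type} {n : ℕ} {S : St V n} {v x y : V} (hv : bl S v = x) (hy : Nd S y)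
    (hc : S.c y = S.c x) (h : S.ρ x < S.ρ y) : S.ρ v < S.ρ y := by
  by_contra hcon
  push Not at hcon
  have h1 : Tw S x v := by
    rw [← hv]
    exact (bl_tw S v).symm
  have h2 : Tw S x y := h1.between hc h.le hcon
  have h3 : bl S x = bl S y := bl_eq h2
  have h4 : bl S x = x := by rw [← hv, bl_bl]
  rw [h4, show bl S y = y from hy] at h3
  rw [h3] at h
  exact lt_irrefl _ h

theorem blk_le {V : Type} {n : ℕ} {S : St V n} {v x : V} (hv : bl S v = x) : S.ρ x ≤ S.ρ v := by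
  rw [← hv]
  exact bl_le (Tw.refl S v)

/-- **The adapter.** -/
theorem fgB (h1 : S_F1) (h2 : S_F1C) (h3 : CE.S_Good) (h4 : S_SubT) : S_FGB := by
  intro n b m₀
  obtain ⟨N, M, hM, hG⟩ := h3 b
  choose F hF using fun R m => h1 n b m₀ R m
  choose C hC using fun R => h2 n b m₀ R
  refine ⟨fun R => F R N + C R + 2, fun R => F R M + 2, fun V _ S G hx => ⟨fun R i hi => ⟨?_, ?_⟩, ?_⟩⟩
  · intro r A B χ hr hP
    refine (hF R N V S G i hx hi r A B χ hr).1 ?_
    exact ((h4 _ n _ i (F R N + C R + 2) (F R N) r A B χ (fun k => k) (fun k hk => by omega)).2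
      (fun _ _ h _ => h)).1 hP
  · intro r A B χ hr hR
    have hsub := ((h4 _ n _ i (F R M + 2) (F R M) r A B χ (fun k => k + 1) (fun k hk => by omega)).2
      (fun _ _ h _ => by omega)).2 hR
    obtain ⟨σ, Q, κ, κ', hQ, hκ, hleg0⟩ := (hF R M V S G i hx hi r _ _ χ hr).2 hsub
    have hleg : ∀ k < M, bl S (CE.LL σ Q k) = (A (κ k + 1) 0).1 ∧
      bl S (CE.RL σ Q k) = (A (κ' k + 1) r).1 := hleg0
    obtain ⟨p, q, g1, g2, g3, g4, hgd⟩ := hG V n S G i ⟨hx.ex, hi, hx.hH, hx.hJ⟩ σ Q hQ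
    have hcA : ∀ k < F R M + 2, S.c (A k 0).1 = i := fun k hk => by
      have := hR.tr.cA k hk 0 (Nat.zero_le _)
      rw [hR.tr.ch0] at this
      exact this
    have hcr : ∀ k < F R M + 2, S.c (A k r).1 = i := fun k hk => by
      have := hR.tr.cA k hk r le_rfl
      rw [hR.tr.chr] at this
      exact this
    have hml : ∀ k l, k ≤ l → l < F R M + 2 → S.ρ (A k 0).1 ≤ S.ρ (A l 0).1 := fun k l hkl hl => by
      rcases hkl.eq_or_lt with h | h
      · rw [h]
      · exact ((hR.mon k l h hl).1).le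
    have hmr : ∀ k l, k ≤ l → l < F R M + 2 → S.ρ (A l r).1 ≤ S.ρ (A k r).1 := fun k l hkl hl => by
      rcases hkl.eq_or_lt with h | h
      · rw [h]
      · exact ((hR.mon k l h hl).2).le
    have hsl : ∀ k l, k < l → l < F R M + 2 → S.ρ (A k 0).1 < S.ρ (A l 0).1 :=
      fun k l h hl => (hR.mon k l h hl).1
    have hsr : ∀ k l, k < l → l < F R M + 2 → S.ρ (A l r).1 < S.ρ (A k r).1 :=
      fun k l h hl => (hR.mon k l h hl).2
    have hm0 : 0 < M := hM
    have e0 := hκ 0 hm0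
    have e1 := hκ (M - 1) (by omega)
    have l0 := hleg 0 hm0
    have l1 := hleg (M - 1) (by omega)
    refine ⟨p, q, ?_, ?_, ?_, ?_, ?_⟩
    · show S.ρ (A 0 0).1 < p
      refine lt_of_le_of_lt ?_ g1
      refine le_trans ?_ (blk_le l1.1)
      exact hml _ _ (by omega) (by omega)
    · show p ≤ S.ρ (A (F R M + 2 - 1) 0).1
      refine g2.trans (le_of_lt ?_)
      refine blk_lt l0.1 (A (F R M + 2 - 1) 0).2 ?_ ?_
      · rw [hcA _ (by omega), hcA _ (by omega)]
      · exact hsl _ _ (by omega) (by omega)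
    · show S.ρ (A (F R M + 2 - 1) r).1 < q
      refine lt_of_le_of_lt ?_ g3
      refine le_trans ?_ (blk_le l0.2)
      exact hmr _ _ (by omega) (by omega)
    · show q ≤ S.ρ (A 0 r).1
      refine g4.trans (le_of_lt ?_)
      refine blk_lt l1.2 (A 0 r).2 ?_ ?_
      · rw [hcr _ (by omega), hcr _ (by omega)]
      · exact hsr _ _ (by omega) (by omega)
    · intro r' A' B' χ' hr' hR'
      have hcA' : ∀ k < F R N + C R + 2, S.c (A' k 0).1 = i := fun k hk => by
        have := hR'.tr.cA k hk 0 (Nat.zero_le _)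
        rw [hR'.tr.ch0] at this
        exact this
      have hcr' : ∀ k < F R N + C R + 2, S.c (A' k r').1 = i := fun k hk => by
        have := hR'.tr.cA k hk r' le_rfl
        rw [hR'.tr.chr] at this
        exact this
      have hsl' : ∀ k l, k < l → l < F R N + C R + 2 → S.ρ (A' k 0).1 < S.ρ (A' l 0).1 :=
        fun k l h hl => (hR'.mon k l h hl).1
      have hsr' : ∀ k l, k < l → l < F R N + C R + 2 → S.ρ (A' l r').1 < S.ρ (A' k r').1 :=
        fun k l h hl => (hR'.mon k l h hl).2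
      have hsub' := ((h4 _ n _ i (F R N + C R + 2) (F R N) r' A' B' χ' (fun k => k + 1)
        (fun k hk => by omega)).2 (fun _ _ h _ => by omega)).2 hR'
      obtain ⟨τ, U, κ₁, κ₂, hU, hκ₁, hleg0'⟩ := (hF R N V S G i hx hi r' _ _ χ' hr').2 hsub'
      have hleg' : ∀ k < N, bl S (CE.LL τ U k) = (A' (κ₁ k + 1) 0).1 ∧
        bl S (CE.RL τ U k) = (A' (κ₂ k + 1) r').1 := hleg0'
      constructor
      · intro hcon0
        have hcon : ∀ k < F R N + C R + 2, p ≤ S.ρ (A' k 0).1 ∧ S.ρ (A' k 0).1 < q ∧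
          q ≤ S.ρ (A' k r').1 := hcon0
        refine (hgd τ U hU).1 fun k hk => ?_
        have a1 := hκ₁ k hk
        have a2 := hleg' k hk
        have a3 := hcon (κ₁ k + 1) (by omega)
        have a4 := hcon (κ₁ k + 1 + 1) (by omega)
        have a5 := hcon (κ₂ k + 1) (by omega)
        refine ⟨a3.1.trans (blk_le a2.1), lt_trans (blk_lt a2.1 (A' (κ₁ k + 1 + 1) 0).2 ?_ ?_) a4.2.1,
          a5.2.2.trans (blk_le a2.2)⟩
        · rw [hcA' _ (by omega), hcA' _ (by omega)]
        · exact hsl' _ _ (by omega) (by omega)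
      · intro hcon0
        have hcon : ∀ k < F R N + C R + 2, S.ρ (A' k 0).1 < p ∧ p ≤ S.ρ (A' k r').1 ∧
          S.ρ (A' k r').1 < q := hcon0
        refine (hgd τ U hU).2 fun k hk => ?_
        have a1 := hκ₁ k hk
        have a2 := hleg' k hk
        have a4 := hcon (κ₁ k + 1 + 1) (by omega)
        have a5 := hcon (κ₂ k + 1) (by omega)
        have a6 := hcon (κ₂ k) (by omega)
        refine ⟨lt_trans (blk_lt a2.1 (A' (κ₁ k + 1 + 1) 0).2 ?_ ?_) a4.1,
          a5.2.1.trans (blk_le a2.2), lt_trans (blk_lt a2.2 (A' (κ₂ k) r').2 ?_ ?_) a6.2.2⟩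
        · rw [hcA' _ (by omega), hcA' _ (by omega)]
        · exact hsl' _ _ (by omega) (by omega)
        · rw [hcr' _ (by omega), hcr' _ (by omega)]
        · exact hsr' _ _ (by omega) (by omega)
  · intro R i r A B χ hr hχ
    have h5 := hC R V S G i hx r A B χ hr hχ
    have h6 := (h4 _ n (BGr S G) i (F R N + C R + 2) (C R) r A B χ (fun k => k)
      (fun k hk => by omega)).2 (fun _ _ h _ => h)
    exact ⟨fun h => h5.1 (h6.1 h), fun h => h5.2 (h6.2 h)⟩

/-- **The block graph has a branch decomposition of bounded width.** -/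
theorem carvF (h1 : S_FGB) (h2 : S_SysQ 2) (h3 : S_CarvG) : S_CarvF := by
  intro n b m₀
  obtain ⟨m₁, m₂, hF⟩ := h1 n b m₀
  obtain ⟨N, hN⟩ := h3 2 h2 n m₁ m₂
  refine ⟨N, fun V _ S G _ _ hx => ?_⟩
  obtain ⟨hF1, hF2⟩ := hF V S G hx
  exact hN (Nod S) (BGr S G) (fun i => S.t i = false) hF1 fun R i r A B χ hr hχ =>
    hF2 R i r A B χ hr fun j hj => by
      have := hχ j hj
      rcases hs : S.t (χ j) with _ | _
      · exact absurd hs this
      · rfl

/-- **The layout.** -/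
theorem layF (h1 : S_CarvF) (h2 : S_LayA) : S_LayF := by
  intro n b m₀ β
  obtain ⟨N, hN⟩ := h1 n b m₀
  obtain ⟨c₀, K, hK⟩ := h2 n b m₀ N β
  refine ⟨c₀, K, fun V _ S G hx hL => ?_⟩
  classical
  have : Fintype (Nod S) := Fintype.ofFinite _
  exact hK V S G (fun X k h => Rep.cr_types G h) hx.ex (ff2_of hx.hH hx.hJ) (pFF10 hx.hH hx.hJ)
    (nosp_of (hx.no (true, false, false) (by simp))) hL (hN V S G hx)

end Pool.Agent.MPd439b2.BT
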