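import Pool.Agent.Lib.MP_d439b2_co.BT.SpecA

/-!
# MP_d439b2_co, BT: few long geodesics of exceptional pairs in few blocks
-/

set_option autoImplicit false

namespace Pool.Agent.MPd439b2.BT

open Pool.Agent.MPd439b2 Pool.Agent.MPd439b2.X2

/-! ### 1. far vertices -/

private theorem geo_union {V : Type} [Finite V] {n : ℕ} {S : St V n} {G : SimpleGraph V} {b : ℕ}
    (hb : ExcB S G b) (v : ℕ → V) (t : ℕ) :
    (⋃ k ∈ Finset.range t, Bll S G 19 (v k)).ncard ≤ t * (b + 1) ^ 19 := by
  refine (Finset.set_ncard_biUnion_le _ _).trans ?_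
  calc ∑ k ∈ Finset.range t, (Bll S G 19 (v k)).ncard
      ≤ ∑ k ∈ Finset.range t, (b + 1) ^ 19 := Finset.sum_le_sum fun k _ => bll_card hb 19 (v k)
    _ = t * (b + 1) ^ 19 := by rw [Finset.sum_const, smul_eq_mul, Finset.card_range]

private theorem geo_far {V : Type} [Finite V] {n : ℕ} {S : St V n} {G : SimpleGraph V} {b M : ℕ}
    (hb : ExcB S G b) (K : Set V) (hK : M * (b + 1) ^ 19 < K.ncard) (t : ℕ) (ht : t ≤ M) :
    ∃ v : ℕ → V, (∀ k < t, v k ∈ K) ∧ ∀ k < t, ∀ l < t, k ≠ l → v l ∉ Bll S G 19 (v k) := by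
  induction t with
  | zero =>
    have hne : K.Nonempty := by
      rw [Set.nonempty_iff_ne_empty]
      rintro rfl
      rw [Set.ncard_empty] at hK
      exact absurd hK (Nat.not_lt_zero _)
    obtain ⟨x, _⟩ := hne
    exact ⟨fun _ => x, fun k hk => absurd hk (Nat.not_lt_zero k),
      fun k hk => absurd hk (Nat.not_lt_zero k)⟩
  | succ t ih =>
    obtain ⟨v, h1, h2⟩ := ih (by omega)
    have h3 : (⋃ k ∈ Finset.range t, Bll S G 19 (v k)).ncard < K.ncard :=
      ((geo_union hb v t).trans (Nat.mul_le_mul_right _ (by omega : t ≤ M))).trans_lt hK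
    obtain ⟨y, hyK, hy⟩ := Set.exists_mem_notMem_of_ncard_lt_ncard h3
    have hy' : ∀ k < t, y ∉ Bll S G 19 (v k) := by
      intro k hk hcon
      refine hy ?_
      rw [Set.mem_iUnion₂]
      exact ⟨k, Finset.mem_range.2 hk, hcon⟩
    refine ⟨fun k => if k < t then v k else y, ?_, ?_⟩
    · intro k _
      by_cases hk : k < t
      · simp only [if_pos hk]
        exact h1 k hk
      · simp only [if_neg hk]
        exact hyK
    · intro k hk l hl hne
      by_cases hk' : k < t
      · by_cases hl' : l < t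
        · simp only [if_pos hk', if_pos hl']
          exact h2 k hk' l hl' hne
        · simp only [if_pos hk', if_neg hl']
          exact hy' k hk'
      · by_cases hl' : l < t
        · simp only [if_neg hk', if_pos hl']
          exact fun h => hy' l hl' (bll_symm h)
        · omega

/-! ### 2. geodesics -/

private theorem geo_path {V : Type} {n : ℕ} {S : St V n} {G : SimpleGraph V} (v : V) (r : ℕ) :
    ∀ u, u ∈ Bll S G (r + 1) v → u ∉ Bll S G r v →
      ∃ x : ℕ → V, x 0 = v ∧ x (r + 1) = u ∧ (∀ j ≤ r, Exc S G (x j) (x (j + 1))) ∧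
        (∀ j ≤ r + 1, x j ∈ Bll S G j v) ∧ ∀ j ≤ r, x (j + 1) ∉ Bll S G j v := by
  induction r with
  | zero =>
    intro u hu hn
    obtain ⟨w, hw, h⟩ := hu
    have hwv : w = v := hw
    rcases h with h | h
    · exact absurd (show u = v by rw [h, hwv]) hn
    · rw [hwv] at h
      refine ⟨fun j => if j = 0 then v else u, by simp, by simp, ?_, ?_, ?_⟩
      · intro j hj
        have : j = 0 := by omega
        rw [this]
        simpa using h
      · intro j hj
        rcases (by omega : j = 0 ∨ j = 1) with rfl | rfl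
        · simp only [if_true]
          exact rfl
        · simp only [one_ne_zero, if_false]
          exact ⟨v, rfl, Or.inr h⟩
      · intro j hj
        have : j = 0 := by omega
        rw [this]
        simpa using hn
  | succ r ih =>
    intro u hu hn
    obtain ⟨w, hw, h⟩ := hu
    rcases h with h | h
    · exact absurd (by rw [h]; exact hw) hn
    · have hwn : w ∉ Bll S G r v := fun h' => hn (bll_step h' h)
      obtain ⟨x, x0, x1, x2, x3, x4⟩ := ih w hw hwn
      refine ⟨fun j => if j ≤ r + 1 then x j else u, ?_, ?_, ?_, ?_, ?_⟩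
      · simp only [Nat.zero_le, if_true]
        exact x0
      · exact if_neg (by omega)
      · intro j hj
        by_cases hj' : j ≤ r
        · simp only [(by omega : j ≤ r + 1), (by omega : j + 1 ≤ r + 1), if_true]
          exact x2 j hj'
        · have : j = r + 1 := by omega
          subst this
          show Exc S G (if r + 1 ≤ r + 1 then x (r + 1) else u)
            (if r + 1 + 1 ≤ r + 1 then x (r + 1 + 1) else u)
          rw [if_pos le_rfl, if_neg (by omega), x1]
          exact h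
      · intro j hj
        by_cases hj' : j ≤ r + 1
        · simp only [hj', if_true]
          exact x3 j hj'
        · have : j = r + 1 + 1 := by omega
          subst this
          simp only [hj', if_false]
          exact ⟨w, hw, Or.inr h⟩
      · intro j hj
        by_cases hj' : j ≤ r
        · simp only [(by omega : j + 1 ≤ r + 1), if_true]
          exact x4 j hj'
        · have : j = r + 1 := by omega
          subst this
          show (if r + 1 + 1 ≤ r + 1 then x (r + 1 + 1) else u) ∉ Bll S G (r + 1) v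
          rw [if_neg (by omega)]
          exact hn

/-! ### 3. the configuration -/

/-- the configuration of many geodesics with the blocks `P j` -/
private structure GeoC {V : Type} {n : ℕ} (S : St V n) (G : SimpleGraph V) (N : ℕ) (P : ℕ → V)
    (x : ℕ → ℕ → V) : Prop where
  bk : ∀ j < 10, ∀ k < N, bl S (x j k) = P j
  ne : ∀ i < 10, ∀ j < 10, ∀ k < N, ∀ l < N, (i ≠ j ∨ k ≠ l) → x i k ≠ x j l
  ex : ∀ j < 9, ∀ k < N, Exc S G (x j k) (x (j + 1) k)
  nx : ∀ i < 10, ∀ j < 10, i + 2 ≤ j → ∀ k < N, ¬ Exc S G (x i k) (x j k)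
  nf : ∀ i < 10, ∀ j < 10, ∀ k < N, ∀ l < N, k ≠ l → ¬ Exc S G (x i k) (x j l)

private theorem geo_conf {V : Type} [Finite V] {n : ℕ} {S : St V n} {G : SimpleGraph V}
    {b c N : ℕ} (hb : ExcB S G b) (𝓑 K : Set V) (hB : 𝓑.ncard ≤ c)
    (hK : ∀ v ∈ K, ∀ u ∈ Bll S G 9 v, bl S u ∈ 𝓑) (hg : ∀ v ∈ K, Bll S G 9 v ≠ Bll S G 8 v)
    (hcard : (c ^ 10 * N + 1) * (b + 1) ^ 19 < K.ncard) :
    ∃ (P : ℕ → V) (x : ℕ → ℕ → V), GeoC S G N P x := by
  classical
  obtain ⟨v, hv1, hv2⟩ := geo_far hb K hcard (c ^ 10 * N + 1) le_rfl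
  have hpath : ∀ k, ∃ x : ℕ → V, k < c ^ 10 * N + 1 →
      x 0 = v k ∧ (∀ j ≤ 8, Exc S G (x j) (x (j + 1))) ∧
        (∀ j ≤ 9, x j ∈ Bll S G j (v k)) ∧ ∀ j ≤ 8, x (j + 1) ∉ Bll S G j (v k) := by
    intro k
    by_cases hk : k < c ^ 10 * N + 1
    · have h1 : ∃ u ∈ Bll S G 9 (v k), u ∉ Bll S G 8 (v k) := by
        by_contra hcon
        push Not at hcon
        exact hg (v k) (hv1 k hk) (Set.Subset.antisymm hcon (bll_mono (by omega) (v k)))
      obtain ⟨u, hu, hun⟩ := h1
      obtain ⟨x, x0, _, x2, x3, x4⟩ := geo_path (v k) 8 u hu hun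
      exact ⟨x, fun _ => ⟨x0, x2, x3, x4⟩⟩
    · exact ⟨fun _ => v 0, fun h => absurd h hk⟩
  choose y hy using hpath
  -- pigeonhole
  have hmem : ∀ k < c ^ 10 * N + 1, ∀ j ≤ 9, bl S (y k j) ∈ 𝓑 := by
    intro k hk j hj
    exact hK (v k) (hv1 k hk) _ (bll_mono (by omega) (v k) ((hy k hk).2.2.1 j hj))
  obtain ⟨f, hf⟩ : ∃ f : ℕ → Fin 10 → V, ∀ k < c ^ 10 * N + 1, ∀ j : Fin 10,
      f k j = bl S (y k j) := ⟨fun k j => bl S (y k j), fun _ _ _ => rfl⟩
  have hBf : (Set.toFinite 𝓑).toFinset.card ≤ c := by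
    rw [← Set.ncard_eq_toFinset_card _ (Set.toFinite _)]
    exact hB
  have hpg : ∃ P ∈ Fintype.piFinset (fun _ : Fin 10 => (Set.toFinite 𝓑).toFinset),
      N < ((Finset.range (c ^ 10 * N + 1)).filter fun k => f k = P).card := by
    refine Finset.exists_lt_card_fiber_of_mul_lt_card_of_maps_to ?_ ?_
    · intro k hk
      rw [Finset.mem_range] at hk
      rw [Fintype.mem_piFinset]
      intro j
      rw [Set.Finite.mem_toFinset, hf k hk j]
      exact hmem k hk j (by omega)
    · rw [Fintype.card_piFinset, Finset.prod_const, Finset.card_univ, Fintype.card_fin,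
        Finset.card_range]
      have : (Set.toFinite 𝓑).toFinset.card ^ 10 * N ≤ c ^ 10 * N :=
        Nat.mul_le_mul_right _ (Nat.pow_le_pow_left hBf 10)
      omega
  obtain ⟨P, _, hP⟩ := hpg
  set T := (Finset.range (c ^ 10 * N + 1)).filter fun k => f k = P with hT
  obtain ⟨κ, hκ1, hκ2⟩ : ∃ κ : ℕ → ℕ, (∀ k < N, κ k ∈ T) ∧
      ∀ k < N, ∀ l < N, k ≠ l → κ k ≠ κ l := by
    refine ⟨fun k => if h : k < T.card then (T.equivFin.symm ⟨k, h⟩ : ℕ) else 0, ?_, ?_⟩
    · intro k hk
      have hk' : k < T.card := by omega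
      simp only [dif_pos hk']
      exact (T.equivFin.symm ⟨k, hk'⟩).2
    · intro k hk l hl hkl he
      have hk' : k < T.card := by omega
      have hl' : l < T.card := by omega
      simp only [dif_pos hk', dif_pos hl'] at he
      have := T.equivFin.symm.injective (Subtype.ext he)
      exact hkl (congrArg Fin.val this)
  have hκ3 : ∀ k < N, κ k < c ^ 10 * N + 1 ∧ f (κ k) = P := by
    intro k hk
    have := hκ1 k hk
    rw [hT, Finset.mem_filter, Finset.mem_range] at this
    exact this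
  have hin : ∀ j < 10, ∀ k < N, y (κ k) j ∈ Bll S G j (v (κ k)) := fun j hj k hk =>
    (hy _ (hκ3 k hk).1).2.2.1 j (by omega)
  have hout : ∀ j < 10, ∀ k < N, ∀ i < j, y (κ k) j ∉ Bll S G i (v (κ k)) := by
    intro j hj k hk i hi h
    obtain ⟨j', rfl⟩ : ∃ j', j = j' + 1 := ⟨j - 1, by omega⟩
    exact (hy _ (hκ3 k hk).1).2.2.2 j' (by omega) (bll_mono (by omega) _ h)
  refine ⟨fun j => if h : j < 10 then P ⟨j, h⟩ else v 0, fun j k => y (κ k) j, ?_, ?_, ?_, ?_, ?_⟩
  · intro j hj k hk
    obtain ⟨g1, g2⟩ := hκ3 k hk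
    simp only [dif_pos hj]
    rw [← g2, hf _ g1]
  · intro i hi j hj k hk l hl hne
    show y (κ k) i ≠ y (κ l) j
    by_cases hkl : k = l
    · subst hkl
      have hij : i ≠ j := hne.resolve_right (fun h => h rfl)
      rcases Nat.lt_or_gt_of_ne hij with h | h
      · intro he
        refine hout j hj k hk i h ?_
        rw [← he]
        exact hin i hi k hk
      · intro he
        refine hout i hi k hk j h ?_
        rw [he]
        exact hin j hj k hk
    · intro he
      have h1 := hin i hi k hk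
      rw [he] at h1
      have h2 : v (κ l) ∈ Bll S G (i + j) (v (κ k)) := bll_add h1 (bll_symm (hin j hj l hl))
      exact hv2 _ (hκ3 k hk).1 _ (hκ3 l hl).1 (hκ2 k hk l hl hkl)
        (bll_mono (by omega) _ h2)
  · intro j hj k hk
    exact (hy _ (hκ3 k hk).1).2.1 j (by omega)
  · intro i hi j hj hij k hk he
    exact hout j hj k hk (i + 1) (by omega) (bll_step (hin i hi k hk) he)
  · intro i hi j hj k hk l hl hkl he
    have h1 : y (κ l) j ∈ Bll S G (i + 1) (v (κ k)) := bll_step (hin i hi k hk) he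
    have h2 : v (κ l) ∈ Bll S G (i + 1 + j) (v (κ k)) := bll_add h1 (bll_symm (hin j hj l hl))
    exact hv2 _ (hκ3 k hk).1 _ (hκ3 l hl).1 (hκ2 k hk l hl hkl)
      (bll_mono (by omega) _ h2)

/-! ### 4. the relations -/

/-- the relation of two blocks in `S.G` -/
private def geo_e {V : Type} {n : ℕ} (S : St V n) (p q : V) : Prop :=
  (S.c p = S.c q ∧ S.t (S.c p) = true) ∨ (S.c p ≠ S.c q ∧ S.G.Adj p q)

private theorem geo_e_symm {V : Type} {n : ℕ} {S : St V n} {p q : V} (h : geo_e S p q) :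
    geo_e S q p := by
  rcases h with ⟨h1, h2⟩ | ⟨h1, h2⟩
  · exact Or.inl ⟨h1.symm, by rw [← h1]; exact h2⟩
  · exact Or.inr ⟨fun h => h1 h.symm, h2.symm⟩

private theorem geo_e_iff {V : Type} {n : ℕ} {S : St V n} {p q x y : V} (hx : bl S x = p)
    (hy : bl S y = q) (hne : x ≠ y) : S.G.Adj x y ↔ geo_e S p q := by
  have cx : S.c p = S.c x := by rw [← hx, c_bl]
  have cy : S.c q = S.c y := by rw [← hy, c_bl]
  unfold geo_e
  by_cases h : S.c x = S.c y
  · rw [S.typ x y hne h, cx, cy]
    constructor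
    · intro h'
      exact Or.inl ⟨h, h'⟩
    · rintro (h' | h')
      · exact h'.2
      · exact absurd h h'.1
  · rw [← adj_bl h, hx, hy, cx, cy]
    constructor
    · intro h'
      exact Or.inr ⟨h, h'⟩
    · rintro (h' | h')
      · exact absurd h'.1 h
      · exact h'.2

private theorem geo_ne {V : Type} {n : ℕ} {S : St V n} {G : SimpleGraph V} {N : ℕ} {P : ℕ → V}
    {x : ℕ → ℕ → V} (h : GeoC S G N P x) {i j k l : ℕ} (hi : i < 10) (hj : j < 10) (hk : k < N)
    (hl : l < N) (hkl : k ≠ l) : G.Adj (x i k) (x j l) ↔ geo_e S (P i) (P j) := by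
  rw [← geo_e_iff (h.bk i hi k hk) (h.bk j hj l hl) (h.ne i hi j hj k hk l hl (Or.inr hkl))]
  have := h.nf i hi j hj k hk l hl hkl
  unfold Exc at this
  rw [not_not] at this
  exact this.symm

private theorem geo_dg {V : Type} {n : ℕ} {S : St V n} {G : SimpleGraph V} {N : ℕ} {P : ℕ → V}
    {x : ℕ → ℕ → V} (h : GeoC S G N P x) {i j k : ℕ} (hi : i < 10) (hj : j < 10) (hk : k < N)
    (hij : i + 2 ≤ j) : G.Adj (x i k) (x j k) ↔ geo_e S (P i) (P j) := by
  rw [← geo_e_iff (h.bk i hi k hk) (h.bk j hj k hk)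
    (h.ne i hi j hj k hk k hk (Or.inl (by omega)))]
  have := h.nx i hi j hj hij k hk
  unfold Exc at this
  rw [not_not] at this
  exact this.symm

private theorem geo_su {V : Type} {n : ℕ} {S : St V n} {G : SimpleGraph V} {N : ℕ} {P : ℕ → V}
    {x : ℕ → ℕ → V} (h : GeoC S G N P x) {j k : ℕ} (hj : j < 9) (hk : k < N) :
    G.Adj (x j k) (x (j + 1) k) ↔ ¬ geo_e S (P j) (P (j + 1)) := by
  rw [← geo_e_iff (h.bk j (by omega) k hk) (h.bk (j + 1) (by omega) k hk)
    (h.ne j (by omega) (j + 1) (by omega) k hk k hk (Or.inl (by omega)))]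
  have := h.ex j hj k hk
  unfold Exc at this
  tauto

private theorem geo_typ {V : Type} {n : ℕ} {S : St V n} {G : SimpleGraph V} {b N : ℕ} {P : ℕ → V}
    {x : ℕ → ℕ → V} (hb : ExcB S G b) (h : GeoC S G N P x) (hN : 0 < N) {j : ℕ} (hj : j < 9) :
    S.t (S.c (P j)) ≠ S.t (S.c (P (j + 1))) := by
  have := hb.typ _ _ (h.ex j hj 0 hN)
  rw [← h.bk j (by omega) 0 hN, ← h.bk (j + 1) (by omega) 0 hN, c_bl, c_bl]
  exact this

private theorem geo_self {V : Type} {n : ℕ} (S : St V n) (p : V) :
    geo_e S p p ↔ S.t (S.c p) = true := by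
  unfold geo_e
  constructor
  · rintro (h | h)
    · exact h.2
    · exact absurd rfl h.1
  · intro h
    exact Or.inl ⟨rfl, h⟩

/-- consecutive rails are complete off the diagonal, otherwise there is a thin spider -/
private theorem geo_on {V : Type} {n : ℕ} {S : St V n} {G : SimpleGraph V} {b m N : ℕ}
    {P : ℕ → V} {x : ℕ → ℕ → V} (hb : ExcB S G b) (hs : NoSp G m) (h : GeoC S G N P x)
    (hN : 0 < N) (hm : m ≤ N) {j : ℕ} (hj : j < 9) : geo_e S (P j) (P (j + 1)) := by
  by_contra hcon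
  have hadj : ∀ k < m, ∀ l < m, (G.Adj (x j k) (x (j + 1) l) ↔ k = l) := by
    intro k hk l hl
    by_cases hkl : k = l
    · subst hkl
      rw [geo_su h hj (by omega)]
      exact ⟨fun _ => rfl, fun _ => hcon⟩
    · rw [geo_ne h (by omega) (by omega) (by omega) (by omega) hkl]
      exact ⟨fun h' => absurd h' hcon, fun h' => absurd h' hkl⟩
  have ht := geo_typ hb h hN hj
  have hne : ∀ k < m, ∀ l < m, x j k ≠ x (j + 1) l := fun k hk l hl =>
    h.ne j (by omega) (j + 1) (by omega) k (by omega) l (by omega) (Or.inl (by omega))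
  have hself : ∀ i < 10, ∀ k < m, ∀ l < m, k ≠ l →
      (G.Adj (x i k) (x i l) ↔ S.t (S.c (P i)) = true) ∧ x i k ≠ x i l := by
    intro i hi k hk l hl hkl
    exact ⟨(geo_ne h hi hi (by omega) (by omega) hkl).trans (geo_self S _),
      h.ne i hi i hi k (by omega) l (by omega) (Or.inr hkl)⟩
  by_cases h1 : S.t (S.c (P j)) = true
  · have h2 : ¬ S.t (S.c (P (j + 1))) = true := fun h' => ht (h1.trans h'.symm)
    refine hs (x j) (x (j + 1)) ⟨hne, ?_, ?_, hadj⟩
    · intro k hk l hl hkl
      exact ⟨(hself j (by omega) k hk l hl hkl).2, (hself (j + 1) (by omega) k hk l hl hkl).2⟩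
    · intro k hk l hl hkl
      exact ⟨(hself j (by omega) k hk l hl hkl).1.2 h1,
        fun h' => h2 ((hself (j + 1) (by omega) k hk l hl hkl).1.1 h')⟩
  · have h2 : S.t (S.c (P (j + 1))) = true := by
      cases e1 : S.t (S.c (P j))
      · cases e2 : S.t (S.c (P (j + 1)))
        · exact absurd (e1.trans e2.symm) ht
        · rfl
      · exact absurd e1 h1
    refine hs (x (j + 1)) (x j) ⟨fun k hk l hl he => hne l hl k hk he.symm, ?_, ?_, ?_⟩
    · intro k hk l hl hkl
      exact ⟨(hself (j + 1) (by omega) k hk l hl hkl).2, (hself j (by omega) k hk l hl hkl).2⟩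
    · intro k hk l hl hkl
      exact ⟨(hself (j + 1) (by omega) k hk l hl hkl).1.2 h2,
        fun h' => h1 ((hself j (by omega) k hk l hl hkl).1.1 h')⟩
    · intro k hk l hl
      rw [SimpleGraph.adj_comm, hadj l hl k hk]
      exact eq_comm

open Classical in
/-- the bits -/
private noncomputable def geo_F {V : Type} {n : ℕ} (S : St V n) (P : ℕ → V) (c : ℕ) : Bool :=
  if c < 256 then decide (geo_e S (P (c / 16)) (P (c % 16)))
  else if (c - 256) % 16 = (c - 256) / 16 + 1 then false
  else decide (geo_e S (P ((c - 256) / 16)) (P ((c - 256) % 16)))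

private theorem geo_F1 {V : Type} {n : ℕ} (S : St V n) (P : ℕ → V) {i j : ℕ} (hi : i < 10)
    (hj : j < 10) : geo_F S P (16 * i + j) = true ↔ geo_e S (P i) (P j) := by
  classical
  unfold geo_F
  rw [if_pos (by omega), (by omega : (16 * i + j) / 16 = i), (by omega : (16 * i + j) % 16 = j),
    decide_eq_true_iff]

private theorem geo_F2 {V : Type} {n : ℕ} (S : St V n) (P : ℕ → V) {i j : ℕ} (hi : i < 10)
    (hj : j < 10) (hij : j ≠ i + 1) :
    geo_F S P (256 + 16 * i + j) = true ↔ geo_e S (P i) (P j) := by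
  classical
  unfold geo_F
  rw [if_neg (by omega), (by omega : 256 + 16 * i + j - 256 = 16 * i + j),
    (by omega : (16 * i + j) / 16 = i), (by omega : (16 * i + j) % 16 = j), if_neg hij,
    decide_eq_true_iff]

private theorem geo_F3 {V : Type} {n : ℕ} (S : St V n) (P : ℕ → V) {i : ℕ} (hi : i < 9) :
    geo_F S P (256 + 16 * i + (i + 1)) = false := by
  unfold geo_F
  rw [if_neg (by omega), (by omega : 256 + 16 * i + (i + 1) - 256 = 16 * i + (i + 1)),
    (by omega : (16 * i + (i + 1)) / 16 = i), (by omega : (16 * i + (i + 1)) % 16 = i + 1),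
    if_pos rfl]

private theorem geo_contra {V : Type} {n : ℕ} {S : St V n} {G : SimpleGraph V} {b m N : ℕ}
    {P : ℕ → V} {x : ℕ → ℕ → V} (hb : ExcB S G b) (hf : FF10 G) (hs : NoSp G m)
    (h : GeoC S G N P x) (hN : 16 ≤ N) (hm : m ≤ N) : False := by
  have hon : ∀ j < 9, geo_e S (P j) (P (j + 1)) := fun j hj => geo_on hb hs h (by omega) hm hj
  refine hf x (geo_F S P) ⟨?_, ?_, ?_⟩ ?_ ?_
  · intro i hi j hj k hk l hl hne
    exact h.ne i hi j hj k (by omega) l (by omega) hne
  · intro i hi j hj k l hkl hl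
    rw [geo_F1 S P hi hj]
    exact geo_ne h hi hj (by omega) (by omega) (by omega)
  · intro i hi j hj hij k hk
    by_cases hij' : j = i + 1
    · subst hij'
      rw [geo_F3 S P (by omega), geo_su h (by omega) (by omega)]
      exact ⟨fun h' => absurd (hon i (by omega)) h', fun h' => absurd h' (by decide)⟩
    · rw [geo_F2 S P hi hj hij']
      exact geo_dg h hi hj (by omega) (by omega)
  · intro i j hij hj
    have e1 := geo_F1 S P (by omega : i < 10) hj
    have e2 := geo_F1 S P hj (by omega : i < 10)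
    have e3 := geo_F2 S P (by omega : i < 10) hj (by omega)
    have e4 : geo_e S (P i) (P j) ↔ geo_e S (P j) (P i) := ⟨geo_e_symm, geo_e_symm⟩
    exact ⟨Bool.eq_iff_iff.2 (e1.trans (e4.trans e2.symm)), Bool.eq_iff_iff.2 (e3.trans e1.symm)⟩
  · intro i hi
    refine ⟨?_, ?_, geo_F3 S P hi, ?_⟩
    · rw [geo_F1 S P (by omega) (by omega)]
      exact hon i hi
    · rw [geo_F1 S P (by omega) (by omega)]
      exact geo_e_symm (hon i hi)
    · intro he
      have e1 : geo_F S P (17 * i) = true ↔ S.t (S.c (P i)) = true := by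
        rw [(by omega : 17 * i = 16 * i + i), geo_F1 S P (by omega) (by omega), geo_self]
      have e2 : geo_F S P (17 * (i + 1)) = true ↔ S.t (S.c (P (i + 1))) = true := by
        rw [(by omega : 17 * (i + 1) = 16 * (i + 1) + (i + 1)),
          geo_F1 S P (by omega) (by omega), geo_self]
      rw [he] at e1
      exact geo_typ hb h (by omega) hi (Bool.eq_iff_iff.2 (e1.symm.trans e2))

theorem geo : S_Geo := by
  intro n b m c
  refine ⟨(c ^ 10 * (m + 16) + 1) * (b + 1) ^ 19, ?_⟩
  intro V _ S G 𝓑 K hb hf hs hB hK hg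
  by_contra hcon
  push Not at hcon
  obtain ⟨P, x, hx⟩ := geo_conf (N := m + 16) hb 𝓑 K hB hK hg hcon
  exact geo_contra hb hf hs hx (by omega) (by omega)

end Pool.Agent.MPd439b2.BT
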