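import Pool.Agent.Lib.MP_d439b2_co.BT.SpecA

/-!
# MP_d439b2_co, BT: homogeneous rails by Ramsey's theorem (A8)
-/

set_option autoImplicit false

namespace Pool.Agent.MPd439b2.BT

open Pool.Agent.MPd439b2 Pool.Agent.MPd439b2.X2 Pool.Agent.MPd439b2.VX

private abbrev Hom_Col : Type := Fin 16 → Fin 16 → Prop × Prop × Prop × Prop × Prop

open Classical in
private noncomputable def Hom_c (c : Hom_Col) (i j : ℕ) : Prop × Prop × Prop × Prop × Prop :=
  if h : i < 16 ∧ j < 16 then c ⟨i, h.1⟩ ⟨j, h.2⟩ else c 0 0

open Classical in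
private noncomputable def Hom_F (c : Hom_Col) (a : ℕ) : Bool :=
  if a < 256 then decide (Hom_c c (a / 16) (a % 16)).1
  else decide (Hom_c c ((a - 256) / 16) ((a - 256) % 16)).2.1

open Classical in
private theorem Hom_F1 (c : Hom_Col) (i j : ℕ) (hi : i < 16) (hj : j < 16) :
    Hom_F c (16 * i + j) = true ↔ (Hom_c c i j).1 := by
  unfold Hom_F
  have h1 : (16 * i + j) / 16 = i := by omega
  have h2 : (16 * i + j) % 16 = j := by omega
  rw [if_pos (by omega), h1, h2, decide_eq_true_iff]

open Classical in
private theorem Hom_F2 (c : Hom_Col) (i j : ℕ) (hj : j < 16) :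
    Hom_F c (256 + 16 * i + j) = true ↔ (Hom_c c i j).2.1 := by
  unfold Hom_F
  have h1 : (256 + 16 * i + j - 256) / 16 = i := by omega
  have h2 : (256 + 16 * i + j - 256) % 16 = j := by omega
  rw [if_neg (by omega), h1, h2, decide_eq_true_iff]

theorem hom (h1 : W.S_RamC) : S_Hom := by
  intro L m b hL
  obtain ⟨M, hM⟩ := h1 Hom_Col (m + b + 3)
  refine ⟨M, ?_⟩
  intro V _ n S G x hb hx
  let χ : ℕ → ℕ → Hom_Col := fun k l i j =>
    (G.Adj (x i k) (x j l), G.Adj (x i k) (x j k), x i k = x j l, Exc S G (x i k) (x j l),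
      x i k = x j k)
  obtain ⟨s, c, s1, s2, s3⟩ := hM χ
  have key : ∀ i < 16, ∀ j < 16, ∀ k l, k < l → l < m + b + 3 →
      Hom_c c i j = (G.Adj (x i (s k)) (x j (s l)), G.Adj (x i (s k)) (x j (s k)),
        x i (s k) = x j (s l), Exc S G (x i (s k)) (x j (s l)), x i (s k) = x j (s k)) := by
    intro i hi j hj k l hkl hl
    have h2 := congrFun (congrFun (s3 k l hkl hl) ⟨i, hi⟩) ⟨j, hj⟩
    unfold Hom_c
    rw [dif_pos ⟨hi, hj⟩, ← h2]
  have s4 : ∀ k l, k ≠ l → k < m + b + 3 → l < m + b + 3 → s k ≠ s l := by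
    intro k l hkl hk hl
    rcases lt_or_gt_of_ne hkl with h | h
    · exact (s1 k l h hl).ne
    · exact (s1 l k h hk).ne'
  -- third component
  have hne : ∀ i < L, ∀ j < L, ∀ k l, k < l → l < m + b + 3 → x i (s k) ≠ x j (s l) := by
    intro i hi j hj k l hkl hl he
    have e1 := key i (by omega) j (by omega) k l hkl hl
    have e2 := key i (by omega) j (by omega) 0 1 (by omega) (by omega)
    have e3 := key i (by omega) j (by omega) 0 2 (by omega) (by omega)
    have f1 : (Hom_c c i j).2.2.1 := by
      rw [e1]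
      exact he
    have f2 : x i (s 0) = x j (s 1) := by
      rw [e2] at f1
      exact f1
    have f3 : x i (s 0) = x j (s 2) := by
      rw [e3] at f1
      exact f1
    exact hx j hj (s 1) (s2 1 (by omega)) (s 2) (s2 2 (by omega))
      (s4 1 2 (by omega) (by omega) (by omega)) (f2.symm.trans f3)
  have hex : ∀ i < L, ∀ j < L, ∀ k l, k < l → l < m + b + 3 →
      ¬ Exc S G (x i (s k)) (x j (s l)) := by
    intro i hi j hj k l hkl hl he
    have e1 := key i (by omega) j (by omega) k l hkl hl
    have f1 : (Hom_c c i j).2.2.2.1 := by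
      rw [e1]
      exact he
    have f2 : ∀ t, 0 < t → t < b + 2 → Exc S G (x i (s 0)) (x j (s t)) := by
      intro t ht ht'
      have e2 := key i (by omega) j (by omega) 0 t ht (by omega)
      rw [e2] at f1
      exact f1
    have h3 := hb.deg (x i (s 0))
    have h4 : (fun t => x j (s t)) '' (Finset.Icc 1 (b + 1) : Finset ℕ) ⊆
        {y | Exc S G (x i (s 0)) y} := by
      rintro y ⟨t, ht, rfl⟩
      have ht2 := Finset.mem_Icc.1 (Finset.mem_coe.1 ht)
      exact f2 t (by omega) (by omega)
    have h5 := Set.ncard_le_ncard h4 (Set.toFinite _)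
    rw [Set.ncard_image_of_injOn, Set.ncard_coe_finset, Nat.card_Icc] at h5
    · omega
    · intro t ht t' ht' he'
      have ht2 := Finset.mem_Icc.1 (Finset.mem_coe.1 ht)
      have ht3 := Finset.mem_Icc.1 (Finset.mem_coe.1 ht')
      by_contra hc
      exact hx j hj (s t) (s2 t (by omega)) (s t') (s2 t' (by omega))
        (s4 t t' hc (by omega) (by omega)) he'
  refine ⟨s, Hom_F c, fun k l hkl hl => s1 k l hkl (by omega), fun k hk => s2 k (by omega), ?_⟩
  constructor
  · intro i hi j hj k l hkl hl
    rw [Hom_F1 c i j (by omega) (by omega), key i (by omega) j (by omega) k l hkl (by omega)]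
  · intro i hi j hj _ k hk
    rw [Hom_F2 c i j (by omega),
      key i (by omega) j (by omega) k (m + b + 2) (by omega) (by omega)]
  · intro i hi j hj k hk l hl hkl
    rcases lt_or_gt_of_ne hkl with h | h
    · exact hne i hi j hj k l h (by omega)
    · exact (hne j hj i hi l k h (by omega)).symm
  · intro i hi j hj k hk l hl hkl
    rcases lt_or_gt_of_ne hkl with h | h
    · exact hex i hi j hj k l h (by omega)
    · exact fun he => hex j hj i hi l k h (by omega) he.symm
  · intro i hi j hj
    by_cases hc : (Hom_c c i j).2.2.2.2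
    · left
      intro k hk
      rw [key i (by omega) j (by omega) k (m + b + 2) (by omega) (by omega)] at hc
      exact hc
    · right
      intro k hk
      rw [key i (by omega) j (by omega) k (m + b + 2) (by omega) (by omega)] at hc
      exact hc

end Pool.Agent.MPd439b2.BT
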