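import Pool.Agent.Lib.MP_d439b2_co.BT.SpecA

set_option autoImplicit false

namespace Pool.Agent.MPd439b2.BT

open Pool.Agent.MPd439b2 Pool.Agent.MPd439b2.X2 Pool.Agent.MPd439b2.VX

theorem layA (hT : S_TypF) (hE : S_LayE) (hC : S_LayC) (hB : S_BBm) (hD : S_DBm) : S_LayA := by
  intro n b m N β
  obtain ⟨c₀, bb, hbb⟩ := hB n b m β
  obtain ⟨D, hDD⟩ := hD n b m bb N
  refine ⟨c₀, n * (N + 1) ^ n + ((b + 1) * D + N * N * bb) + (bb + 1), ?_⟩
  intro V _ S G _ _ hcr hexc hff2 hff10 hsp hlink hcarv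
  have hBB : BBd S G bb := hbb V S G hcr hexc hff2 hff10 hsp hlink
  have hAF : AF S G ((BGr S G).Ed Finset.univ) = Set.univ := by
    ext v
    exact ⟨fun _ => Set.mem_univ v, fun _ => des_mem hexc v⟩
  rw [← hAF]
  refine hC V n S G ((BGr S G).Ed Finset.univ) ((BGr S G).Ed Finset.univ) N _ ?_ ?_ hcarv
  · intro F' hF' hcard
    refine (hT V n S G F' b bb N D hexc hBB hF' hcard
      (hDD V S G F' hexc hff2 hsp hBB hF' hcard)).trans ?_
    exact_mod_cast Nat.le_add_right _ _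
  · intro e _
    exact Lay.mono (by omega) (hE V n S G b bb e hexc hBB)

end Pool.Agent.MPd439b2.BT
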