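import Pool.Agent.Lib.MP_d439b2_co.BT.SpecA

/-!
# MP_d439b2_co, BT, statement A7: from `Carv` to `Lay`
-/

set_option autoImplicit false

namespace Pool.Agent.MPd439b2.BT

open Pool.Agent.MPd439b2 Pool.Agent.MPd439b2.X2 Pool.Agent.MPd439b2.VX

namespace LayCAux

theorem carv_sub {α : Type} [DecidableEq α] {E F : Finset (α × α)} {N : ℕ} (h : Carv E N F) :
    F ⊆ E := by
  induction h with
  | empty => exact Finset.empty_subset _
  | single e he => exact Finset.singleton_subset_iff.2 he
  | union _ _ _ _ ih1 ih2 => exact Finset.union_subset ih1 ih2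

theorem af_union {V : Type} {n : ℕ} (S : St V n) (G : SimpleGraph V) [DecidableEq (Nod S)]
    (A B : Finset (Nod S × Nod S)) : AF S G (A ∪ B) = AF S G A ∪ AF S G B := by
  ext v
  exact Finset.mem_union

theorem af_empty {V : Type} {n : ℕ} (S : St V n) (G : SimpleGraph V) :
    AF S G ∅ = ∅ := by
  ext v
  constructor
  · intro h
    exact absurd (show des S G v ∈ (∅ : Finset (Nod S × Nod S)) from h) (Finset.notMem_empty _)
  · intro h
    exact absurd h (Set.notMem_empty _)

end LayCAux

open LayCAux in
theorem layC : S_LayC := by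
  intro V _ n S G _ E F N K hK hs h
  induction h with
  | empty =>
    rw [af_empty]
    exact Lay.empty
  | single e he => exact hs e he
  | @union A B h1 h2 hd hc ih1 ih2 =>
    have hu := hK (A ∪ B) (Finset.union_subset (carv_sub h1) (carv_sub h2)) hc
    rw [af_union] at hu ⊢
    refine Lay.union ih1 ih2 ?_ hu
    rw [Set.disjoint_left]
    intro v hv hv'
    exact (Finset.disjoint_left.1 hd) hv hv'

end Pool.Agent.MPd439b2.BT
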