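import Pool.Agent.Lib.MP_d439b2_co.BT.SpecA

/-!
# MP_d439b2_co, BT, LayE: layouts of the sets of one pair (helper74)
-/

set_option autoImplicit false

namespace Pool.Agent.MPd439b2.BT

open Pool.Agent.MPd439b2 Pool.Agent.MPd439b2.X2 Pool.Agent.MPd439b2.VX

/-- vertices without mates in one block have the same type -/
private theorem layE_row {V : Type} {n : ℕ} {S : St V n} {G : SimpleGraph V} {a a' : V}
    {A' : Set V} (ha : ∀ z, ¬ Exc S G a z) (ha' : ∀ z, ¬ Exc S G a' z) (h : bl S a = bl S a')
    (hA : a ∈ A') (hA' : a' ∈ A') : G.neighborSet a \ A' = G.neighborSet a' \ A' := by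
  have hT := tw_of_bl h
  have key : ∀ w, w ∉ A' → (G.Adj a w ↔ G.Adj a' w) := by
    intro w hw
    have h1 : S.G.Adj a w ↔ G.Adj a w := by
      have := ha w
      unfold Exc at this
      rwa [not_not] at this
    have h2 : S.G.Adj a' w ↔ G.Adj a' w := by
      have := ha' w
      unfold Exc at this
      rwa [not_not] at this
    have hne : a ≠ w := fun h => hw (h ▸ hA)
    have hne' : a' ≠ w := fun h => hw (h ▸ hA')
    rw [← h1, ← h2]
    by_cases hc : S.c w = S.c a
    · rw [S.typ a w hne hc.symm, S.typ a' w hne' (hT.1.symm.trans hc.symm), hT.1]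
    · exact hT.2 w hc
  ext w
  constructor
  · rintro ⟨h1, h2⟩
    exact ⟨(key w h2).1 h1, h2⟩
  · rintro ⟨h1, h2⟩
    exact ⟨(key w h2).2 h1, h2⟩

theorem layE (h1 : S_Cat) : S_LayE := by
  intro V _ n S G b bb e hb hbb
  refine h1 V G (AF S G {e}) (bb + 1) (by omega) ?_
  intro A' hA'
  have hdes : ∀ u ∈ AF S G {e}, des S G u = e := fun u hu => Finset.mem_singleton.mp hu
  by_cases hm : ∃ v ∈ AF S G {e}, ∃ z, Exc S G v z
  · obtain ⟨v, hv, hz⟩ := hm
    obtain ⟨z, hz, hd⟩ := des_mate hz
    have he : e = (nd S v, nd S z) := (hdes v hv).symm.trans hd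
    have hne : nd S v ≠ nd S z := by
      intro h
      apply hb.cls hz
      rw [← c_nd S v, ← c_nd S z, h]
    have hsub : AF S G {e} ⊆ Zp S G (bl S v) (bl S z) := by
      intro u hu
      have hue : des S G u = (nd S v, nd S z) := (hdes u hu).trans he
      have hum : ∃ z, Exc S G u z := by
        by_contra hno
        have h2 := des_loop hno
        rw [hue] at h2
        have e1 : nd S v = nd S u := congrArg Prod.fst h2
        have e2 : nd S z = nd S u := congrArg Prod.snd h2
        exact hne (e1.trans e2.symm)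
      obtain ⟨w, hw, hdu⟩ := des_mate hum
      rw [hue] at hdu
      have e1 : nd S v = nd S u := congrArg Prod.fst hdu
      have e2 : nd S z = nd S w := congrArg Prod.snd hdu
      exact ⟨(congrArg Subtype.val e1).symm, w, (congrArg Subtype.val e2).symm, hw⟩
    have hcard : A'.encard ≤ (bb : ℕ∞) := by
      have hfin : (Zp S G (bl S v) (bl S z)).Finite := Set.toFinite _
      calc A'.encard ≤ (Zp S G (bl S v) (bl S z)).encard := Set.encard_le_encard (hA'.trans hsub)
        _ = ((Zp S G (bl S v) (bl S z)).ncard : ℕ∞) := (hfin.cast_ncard_eq).symm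
        _ ≤ (bb : ℕ∞) := by exact_mod_cast hbb (bl S v) (bl S z)
    have himg : Types G A' ⊆ (fun a => G.neighborSet a \ A') '' A' := by
      rintro T ⟨-, a, ha, rfl⟩
      exact ⟨a, ha, rfl⟩
    calc (Types G A').encard ≤ ((fun a => G.neighborSet a \ A') '' A').encard :=
          Set.encard_le_encard himg
      _ ≤ A'.encard := Set.encard_image_le _ _
      _ ≤ (bb : ℕ∞) := hcard
      _ ≤ ((bb + 1 : ℕ) : ℕ∞) := by exact_mod_cast Nat.le_succ bb
  · have hno : ∀ u ∈ AF S G {e}, ∀ z, ¬ Exc S G u z := fun u hu z hz => hm ⟨u, hu, z, hz⟩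
    have hle : (Types G A').encard ≤ 1 := by
      rw [Set.encard_le_one_iff]
      rintro T T' ⟨-, a, ha, rfl⟩ ⟨-, a', ha', rfl⟩
      have e1 : des S G a = (nd S a, nd S a) := des_loop (fun ⟨z, hz⟩ => hno a (hA' ha) z hz)
      have e2 : des S G a' = (nd S a', nd S a') := des_loop (fun ⟨z, hz⟩ => hno a' (hA' ha') z hz)
      have e3 : nd S a = nd S a' := by
        have h2 : (nd S a, nd S a) = (nd S a', nd S a') := by
          rw [← e1, ← e2, hdes a (hA' ha), hdes a' (hA' ha')]
        exact congrArg Prod.fst h2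
      exact layE_row (hno a (hA' ha)) (hno a' (hA' ha')) (congrArg Subtype.val e3) ha ha'
    exact hle.trans (by exact_mod_cast Nat.le_add_left 1 bb)

end Pool.Agent.MPd439b2.BT
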