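import Pool.Agent.Lib.MP_d439b2_co.BT.SpecA

/-!
# MP_d439b2_co, BT, A1: the merged line of two classes is connected in the block graph
-/

set_option autoImplicit false

namespace Pool.Agent.MPd439b2.BT

open Pool.Agent.MPd439b2 Pool.Agent.MPd439b2.X2 Pool.Agent.MPd439b2.VX

private theorem line_pair {V : Type} [Finite V] {n : ℕ} (S : St V n) (G : SimpleGraph V)
    [Fintype (Nod S)] {i j : Fin n} (hij : i ≠ j) {x y : Nod S} (h : Bef S i j x.1 y.1)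
    (hb : ∀ z : Nod S, ¬ (Bef S i j x.1 z.1 ∧ Bef S i j z.1 y.1)) :
    (x, y) ∈ (BGr S G).Ed Finset.univ := by
  have hcon : (BGr S G).Con x y ∨ (BGr S G).Con y x ∨ (BGr S G).X x y →
      (x, y) ∈ (BGr S G).Ed Finset.univ := fun h' =>
    BG.mem_Ed.2 ⟨Finset.mem_univ _, Or.inr ⟨Finset.mem_univ _, Finset.mem_univ _, h'⟩⟩
  rcases h with ⟨h1, h2, h3⟩ | ⟨h1, h2, h3⟩ | ⟨h1, h2, h3⟩ | ⟨h1, h2, h3⟩
  · by_cases hs : S.s i j = true
    · have h4 : S.ρ x.1 < S.ρ y.1 := by simpa [St.lt, hs] using h3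
      refine hcon (Or.inl ⟨h1.trans h2.symm, h4, fun z hz hz1 => ?_⟩)
      by_contra hz2
      have hz0 : S.c z.1 = i := hz.trans h1
      have hz3 : S.ρ x.1 < S.ρ z.1 := hz1
      have hz4 : S.ρ z.1 < S.ρ y.1 := not_le.1 hz2
      exact hb z ⟨Or.inl ⟨h1, hz0, by simpa [St.lt, hs] using hz3⟩,
        Or.inl ⟨hz0, h2, by simpa [St.lt, hs] using hz4⟩⟩
    · have h4 : S.ρ y.1 < S.ρ x.1 := by simpa [St.lt, hs] using h3
      refine hcon (Or.inr (Or.inl ⟨h2.trans h1.symm, h4, fun z hz hz1 => ?_⟩))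
      by_contra hz2
      have hz0 : S.c z.1 = i := hz.trans h2
      have hz3 : S.ρ y.1 < S.ρ z.1 := hz1
      have hz4 : S.ρ z.1 < S.ρ x.1 := not_le.1 hz2
      exact hb z ⟨Or.inl ⟨h1, hz0, by simpa [St.lt, hs] using hz4⟩,
        Or.inl ⟨hz0, h2, by simpa [St.lt, hs] using hz3⟩⟩
  · by_cases hs : S.s j i = true
    · have h4 : S.ρ y.1 < S.ρ x.1 := by simpa [St.lt, hs] using h3
      refine hcon (Or.inr (Or.inl ⟨h2.trans h1.symm, h4, fun z hz hz1 => ?_⟩))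
      by_contra hz2
      have hz0 : S.c z.1 = j := hz.trans h2
      have hz3 : S.ρ y.1 < S.ρ z.1 := hz1
      have hz4 : S.ρ z.1 < S.ρ x.1 := not_le.1 hz2
      exact hb z ⟨Or.inr (Or.inl ⟨h1, hz0, by simpa [St.lt, hs] using hz4⟩),
        Or.inr (Or.inl ⟨hz0, h2, by simpa [St.lt, hs] using hz3⟩)⟩
    · have h4 : S.ρ x.1 < S.ρ y.1 := by simpa [St.lt, hs] using h3
      refine hcon (Or.inl ⟨h1.trans h2.symm, h4, fun z hz hz1 => ?_⟩)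
      by_contra hz2
      have hz0 : S.c z.1 = j := hz.trans h1
      have hz3 : S.ρ x.1 < S.ρ z.1 := hz1
      have hz4 : S.ρ z.1 < S.ρ y.1 := not_le.1 hz2
      exact hb z ⟨Or.inr (Or.inl ⟨h1, hz0, by simpa [St.lt, hs] using hz3⟩),
        Or.inr (Or.inl ⟨hz0, h2, by simpa [St.lt, hs] using hz4⟩)⟩
  · have hne : S.c x.1 ≠ S.c y.1 := by rw [h1, h2]; exact hij
    refine xr_mem S G ⟨hne, Or.inl ⟨hne, Or.inl ⟨?_, fun z hz h' => ?_⟩⟩⟩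
    · rw [h1, h2]
      exact Or.inr (Or.inr (Or.inl ⟨h1, h2, h3⟩))
    · rw [h1, h2] at h'
      exact hb ⟨z, hz⟩ h'
  · have hne : S.c x.1 ≠ S.c y.1 := by rw [h1, h2]; exact hij.symm
    refine xr_mem S G ⟨hne, Or.inl ⟨hne, Or.inr ⟨?_, fun z hz h' => ?_⟩⟩⟩
    · rw [h1, h2]
      exact (bef_symm S i j _ _).2 (Or.inr (Or.inr (Or.inr ⟨h1, h2, h3⟩)))
    · rw [h1, h2] at h'
      exact hb ⟨z, hz⟩ ⟨(bef_symm S i j _ _).1 h'.2, (bef_symm S i j _ _).1 h'.1⟩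

theorem line1 : S_Line := by
  intro V _ n S G _ _ F i j u w hij hF hu hw hcu hcw huw
  rcases huw with rfl | huw
  · exact ⟨u, Finset.mem_inter.2 ⟨hu, hw⟩, Or.inl rfl, Or.inl rfl⟩
  have wf1 : WellFounded (fun x y : Nod S => Bef S i j x.1 y.1) := by
    have : IsTrans (Nod S) (fun x y => Bef S i j x.1 y.1) := ⟨fun _ _ _ h h' => bef_trans hij h h'⟩
    have : Std.Irrefl (fun x y : Nod S => Bef S i j x.1 y.1) := ⟨fun _ => bef_irrefl hij _⟩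
    exact Finite.wellFounded_of_trans_of_irrefl _
  have wf2 : WellFounded (fun x y : Nod S => Bef S i j y.1 x.1) := by
    have : IsTrans (Nod S) (fun x y => Bef S i j y.1 x.1) := ⟨fun _ _ _ h h' => bef_trans hij h' h⟩
    have : Std.Irrefl (fun x y : Nod S => Bef S i j y.1 x.1) := ⟨fun _ => bef_irrefl hij _⟩
    exact Finite.wellFounded_of_trans_of_irrefl _
  obtain ⟨x, hx, hxm⟩ := wf2.has_min {x : Nod S | x ∈ vs F ∧ (x = u ∨ Bef S i j u.1 x.1) ∧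
    (x = w ∨ Bef S i j x.1 w.1)} ⟨u, hu, Or.inl rfl, Or.inr huw⟩
  rcases hx.2.2 with hxw | hxw
  · subst hxw
    exact ⟨x, Finset.mem_inter.2 ⟨hx.1, hw⟩, hx.2.1, Or.inl rfl⟩
  obtain ⟨y, hy, hym⟩ := wf1.has_min {y : Nod S | Bef S i j x.1 y.1 ∧
    (y = w ∨ Bef S i j y.1 w.1)} ⟨w, hxw, Or.inl rfl⟩
  have hbt : ∀ z : Nod S, ¬ (Bef S i j x.1 z.1 ∧ Bef S i j z.1 y.1) := by
    rintro z ⟨h1, h2⟩
    refine hym z ⟨h1, Or.inr ?_⟩ h2
    rcases hy.2 with h3 | h3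
    · exact h3 ▸ h2
    · exact bef_trans hij h2 h3
  have hyF : y ∉ vs F := by
    intro h
    refine hxm y ⟨h, Or.inr ?_, hy.2⟩ hy.1
    rcases hx.2.1 with h3 | h3
    · exact h3 ▸ hy.1
    · exact bef_trans hij h3 hy.1
  have hp : (x, y) ∈ (BGr S G).Ed Finset.univ \ F :=
    Finset.mem_sdiff.2 ⟨line_pair S G hij hy.1 hbt, fun h => hyF (mem_vs.2 ⟨x, Or.inr h⟩)⟩
  exact ⟨x, Finset.mem_inter.2 ⟨hx.1, mem_vs.2 ⟨y, Or.inl hp⟩⟩, hx.2.1, Or.inr hxw⟩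

end Pool.Agent.MPd439b2.BT
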