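import Pool.Agent.Lib.MP_d439b2_co.BT.SpecA

/-!
# MP_d439b2_co, BT: few rows of `S` on the vertices with pairs in `F`
-/

set_option autoImplicit false

namespace Pool.Agent.MPd439b2.BT

open Pool.Agent.MPd439b2 Pool.Agent.MPd439b2.X2 Pool.Agent.MPd439b2.VX

open Classical in
private noncomputable def rphi {V : Type} {n : ℕ} (S : St V n) (B : Finset (Nod S)) (v : V)
    (j : Fin n) : ℕ :=
  (B.filter (fun z => Bef S (S.c v) j z.1 (bl S v))).card

theorem rows1 (h1 : S_Line) : S_Rows := by
  intro V _ n S G _ _ F b N hb hF hN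
  classical
  set E := (BGr S G).Ed Finset.univ with hE
  -- one direction of the comparison of two rows
  have key : ∀ v v' w : V, v ∈ AF S G F → v' ∈ AF S G F → w ∉ AF S G F → S.c v = S.c v' →
      (∀ j, rphi S (bd E F) v j = rphi S (bd E F) v' j) → S.G.Adj v w → S.G.Adj v' w := by
    intro v v' w hv hv' hw hc hφ ha
    by_cases hj : S.c v = S.c w
    · have hne : v ≠ w := fun h => hw (h ▸ hv)
      have hne' : v' ≠ w := fun h => hw (h ▸ hv')
      rw [S.typ v' w hne' (hc.symm.trans hj), ← hc]
      exact (S.typ v w hne hj).1 ha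
    · by_contra hna
      have hj' : S.c v' ≠ S.c w := by rw [← hc]; exact hj
      have hA : S.G.Adj (bl S v) (bl S w) := (adj_bl hj).2 ha
      have hA' : ¬ S.G.Adj (bl S v') (bl S w) := fun h => hna ((adj_bl hj').1 h)
      have b1 : Bef S (S.c v) (S.c w) (bl S v) (bl S w) :=
        Or.inr (Or.inr (Or.inl ⟨c_bl S v, c_bl S w, hA⟩))
      have b2 : Bef S (S.c v) (S.c w) (bl S w) (bl S v') :=
        Or.inr (Or.inr (Or.inr ⟨c_bl S w, (c_bl S v').trans hc.symm, hA'⟩))
      have hx : nd S v ∈ vs F := by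
        rw [mem_vs]
        refine ⟨(des S G v).2, Or.inl ?_⟩
        have : (nd S v, (des S G v).2) = des S G v := by rw [← des_fst S G v]
        rw [this]
        exact hv
      have hy : nd S w ∈ vs (E \ F) := by
        rw [mem_vs]
        refine ⟨(des S G w).2, Or.inl ?_⟩
        have : (nd S w, (des S G w).2) = des S G w := by rw [← des_fst S G w]
        rw [this]
        exact Finset.mem_sdiff.2 ⟨des_mem hb w, hw⟩
      obtain ⟨z, hz, hz1, hz2⟩ := h1 V n S G F (S.c v) (S.c w) (nd S v) (nd S w) hj hF hx hy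
        (Or.inl (c_bl S v)) (Or.inr (c_bl S w)) (Or.inr b1)
      have hzx' : Bef S (S.c v) (S.c w) z.1 (bl S v') := by
        rcases hz2 with h | h
        · rw [h]
          exact b2
        · exact bef_trans hj h b2
      have hzx : ¬ Bef S (S.c v) (S.c w) z.1 (bl S v) := by
        intro h
        rcases hz1 with h' | h'
        · rw [h'] at h
          exact bef_irrefl hj _ h
        · exact bef_irrefl hj _ (bef_trans hj h' h)
      have hlt : rphi S (bd E F) v (S.c w) < rphi S (bd E F) v' (S.c w) := by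
        unfold rphi
        rw [← hc]
        refine Finset.card_lt_card ?_
        rw [Finset.ssubset_iff_of_subset]
        · refine ⟨z, Finset.mem_filter.2 ⟨hz, hzx'⟩, fun h => hzx (Finset.mem_filter.1 h).2⟩
        · intro t ht
          rw [Finset.mem_filter] at ht ⊢
          exact ⟨ht.1, bef_trans hj ht.2 (bef_trans hj b1 b2)⟩
      rw [hφ (S.c w)] at hlt
      exact lt_irrefl _ hlt
  have hle : ∀ v j, rphi S (bd E F) v j < N + 1 := fun v j =>
    Nat.lt_succ_of_le ((Finset.card_filter_le _ _).trans hN)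
  let kf : V → Fin n × (Fin n → Fin (N + 1)) := fun v =>
    (S.c v, fun j => ⟨rphi S (bd E F) v j, hle v j⟩)
  have hkf : ∀ v ∈ AF S G F, ∀ v' ∈ AF S G F, kf v = kf v' →
      S.G.neighborSet v \ AF S G F = S.G.neighborSet v' \ AF S G F := by
    intro v hv v' hv' h
    have hc : S.c v = S.c v' := congrArg Prod.fst h
    have hφ : ∀ j, rphi S (bd E F) v j = rphi S (bd E F) v' j := by
      intro j
      have := congrFun (congrArg Prod.snd h) j
      exact congrArg Fin.val this
    ext w
    constructor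
    · rintro ⟨h1, h2⟩
      exact ⟨key v v' w hv hv' h2 hc hφ h1, h2⟩
    · rintro ⟨h1, h2⟩
      exact ⟨key v' v w hv' hv h2 hc.symm (fun j => (hφ j).symm) h1, h2⟩
  let g : Fin n × (Fin n → Fin (N + 1)) → Set V := fun k =>
    if h : ∃ v ∈ AF S G F, kf v = k then S.G.neighborSet h.choose \ AF S G F else ∅
  have hsub : (fun v => S.G.neighborSet v \ AF S G F) '' AF S G F ⊆ g '' Set.univ := by
    rintro _ ⟨v, hv, rfl⟩
    refine ⟨kf v, Set.mem_univ _, ?_⟩
    have hex : ∃ v' ∈ AF S G F, kf v' = kf v := ⟨v, hv, rfl⟩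
    simp only [g]
    rw [dif_pos hex]
    exact hkf _ hex.choose_spec.1 v hv hex.choose_spec.2
  calc ((fun v => S.G.neighborSet v \ AF S G F) '' AF S G F).encard
      ≤ (g '' Set.univ).encard := Set.encard_le_encard hsub
    _ ≤ (Set.univ : Set (Fin n × (Fin n → Fin (N + 1)))).encard := Set.encard_image_le _ _
    _ = (n * (N + 1) ^ n : ℕ) := by
        rw [Set.encard_univ, ENat.card_eq_coe_fintype_card]
        simp

end Pool.Agent.MPd439b2.BT
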