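import Pool.Agent.Lib.MP_d439b2_co.BT.SpecA

/-!
# MP_d439b2_co, BT: separators (A9)
-/

set_option autoImplicit false

namespace Pool.Agent.MPd439b2.BT

open Pool.Agent.MPd439b2 Pool.Agent.MPd439b2.X2 Pool.Agent.MPd439b2.VX

/-- an increasing enumeration of a finite set of numbers -/
private theorem Sep_enum (T : Finset ℕ) : ∃ e : ℕ → ℕ, (∀ l < T.card, e l ∈ T) ∧
    ∀ k l, k < T.card → l < T.card → (k ≤ l ↔ e k ≤ e l) := by
  classical
  refine ⟨fun l => if h : l < T.card then T.orderEmbOfFin rfl ⟨l, h⟩ else 0, ?_, ?_⟩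
  · intro l hl
    show (if h : l < T.card then T.orderEmbOfFin rfl ⟨l, h⟩ else 0) ∈ T
    rw [dif_pos hl]
    exact T.orderEmbOfFin_mem rfl _
  · intro k l hk hl
    show k ≤ l ↔ (if h : k < T.card then T.orderEmbOfFin rfl ⟨k, h⟩ else 0) ≤
      (if h : l < T.card then T.orderEmbOfFin rfl ⟨l, h⟩ else 0)
    rw [dif_pos hk, dif_pos hl, OrderEmbedding.le_iff_le, Fin.mk_le_mk]

theorem sep (h1 : S_ES) : S_Sep := by
  intro n m
  obtain ⟨M, hM⟩ := h1 (n * m + 2)
  refine ⟨M, ?_⟩
  intro V S i z hz hbl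
  have hinj : ∀ k < M, ∀ l < M, k ≠ l → S.ρ (z k) ≠ S.ρ (z l) ∧ S.ρ (z k) ≠ S.ρ (z l) := by
    intro k hk l hl hkl
    have h2 : S.ρ (z k) ≠ S.ρ (z l) := fun he =>
      hbl k hk l hl hkl (by rw [S.inj (z k) (z l) ((hz k hk).trans (hz l hl).symm) he])
    exact ⟨h2, h2⟩
  obtain ⟨κ₀, k1, k2, -⟩ := hM (fun k => S.ρ (z k)) (fun k => S.ρ (z k)) hinj
  have hc : ∀ k < n * m + 2, S.c (z (κ₀ k)) = i := fun k hk => hz _ (k1 k hk)
  have hne0 : ∀ k l, k < l → l < n * m + 2 → κ₀ k ≠ κ₀ l := by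
    intro k l hkl hl he
    have := k2 k l hkl hl
    simp only [he] at this
    exact lt_irrefl _ this
  -- the separating vertices
  have ha0 : ∀ t, ∃ y : V, t < n * m + 1 → S.c y ≠ i ∧
      ¬ (S.G.Adj (z (κ₀ t)) y ↔ S.G.Adj (z (κ₀ (t + 1))) y) := by
    intro t
    by_cases ht : t < n * m + 1
    · have h2 : ¬ Tw S (z (κ₀ t)) (z (κ₀ (t + 1))) := fun h =>
        hbl _ (k1 t (by omega)) _ (k1 (t + 1) (by omega))
          (hne0 t (t + 1) (by omega) (by omega)) (bl_eq h)
      unfold Tw at h2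
      rw [hc t (by omega), hc (t + 1) (by omega)] at h2
      push Not at h2
      obtain ⟨y, hy1, hy2⟩ := h2 rfl
      refine ⟨y, fun _ => ⟨hy1, ?_⟩⟩
      intro h3
      rcases hy2 with ⟨g1, g2⟩ | ⟨g1, g2⟩
      · exact g2 (h3.1 g1)
      · exact g1 (h3.2 g2)
    · exact ⟨z 0, fun h => absurd h ht⟩
  choose a₀ ha using ha0
  have hmain : ∀ t < n * m + 1, ∀ k < n * m + 2,
      (S.G.Adj (z (κ₀ k)) (a₀ t) ↔ (k ≤ t ↔ S.s i (S.c (a₀ t)) = true)) := by
    intro t ht k hk
    obtain ⟨c1, c2⟩ := ha t ht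
    cases hs : S.s i (S.c (a₀ t))
    · have up : ∀ k l, k < l → l < n * m + 2 → S.G.Adj (z (κ₀ k)) (a₀ t) →
          S.G.Adj (z (κ₀ l)) (a₀ t) := by
        intro k l hkl hl hadj
        refine S.up (z (κ₀ k)) (z (κ₀ l)) (a₀ t) ?_ (k2 k l hkl hl) ?_ ?_ hadj
        · rw [hc k (by omega), hc l hl]
        · rw [hc k (by omega)]
          exact c1
        · rw [hc k (by omega)]
          exact hs
      have d1 : ¬ S.G.Adj (z (κ₀ t)) (a₀ t) := fun h =>
        c2 ⟨fun _ => up t (t + 1) (by omega) (by omega) h, fun _ => h⟩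
      have d2 : S.G.Adj (z (κ₀ (t + 1))) (a₀ t) := by
        by_contra h
        exact c2 ⟨fun h' => absurd h' d1, fun h' => absurd h' h⟩
      by_cases hkt : k ≤ t
      · have d3 : ¬ S.G.Adj (z (κ₀ k)) (a₀ t) := by
          intro h
          rcases Nat.lt_or_eq_of_le hkt with h' | h'
          · exact d1 (up k t h' (by omega) h)
          · rw [h'] at h
            exact d1 h
        simp [d3, hkt]
      · have d3 : S.G.Adj (z (κ₀ k)) (a₀ t) := by
          rcases Nat.lt_or_eq_of_le (show t + 1 ≤ k by omega) with h' | h'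
          · exact up (t + 1) k h' hk d2
          · rw [← h']
            exact d2
        simp [d3, hkt]
    · have dn : ∀ k l, k < l → l < n * m + 2 → S.G.Adj (z (κ₀ l)) (a₀ t) →
          S.G.Adj (z (κ₀ k)) (a₀ t) := by
        intro k l hkl hl hadj
        refine S.dn (z (κ₀ k)) (z (κ₀ l)) (a₀ t) ?_ (k2 k l hkl hl) ?_ ?_ hadj
        · rw [hc k (by omega), hc l hl]
        · rw [hc k (by omega)]
          exact c1
        · rw [hc k (by omega)]
          exact hs
      have d1 : ¬ S.G.Adj (z (κ₀ (t + 1))) (a₀ t) := fun h =>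
        c2 ⟨fun _ => h, fun _ => dn t (t + 1) (by omega) (by omega) h⟩
      have d2 : S.G.Adj (z (κ₀ t)) (a₀ t) := by
        by_contra h
        exact c2 ⟨fun h' => absurd h' h, fun h' => absurd h' d1⟩
      by_cases hkt : k ≤ t
      · have d3 : S.G.Adj (z (κ₀ k)) (a₀ t) := by
          rcases Nat.lt_or_eq_of_le hkt with h' | h'
          · exact dn k t h' (by omega) d2
          · rw [h']
            exact d2
        simp [d3, hkt]
      · have d3 : ¬ S.G.Adj (z (κ₀ k)) (a₀ t) := by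
          intro h
          rcases Nat.lt_or_eq_of_le (show t + 1 ≤ k by omega) with h' | h'
          · exact d1 (dn (t + 1) k h' hk h)
          · rw [← h'] at h
            exact d1 h
        simp [d3, hkt]
  -- pigeonhole
  obtain ⟨j, -, hj⟩ := Finset.exists_lt_card_fiber_of_mul_lt_card_of_maps_to
    (s := Finset.range (n * m + 1)) (t := (Finset.univ : Finset (Fin n)))
    (f := fun t => S.c (a₀ t)) (n := m) (fun _ _ => Finset.mem_univ _) (by
      rw [Finset.card_univ, Fintype.card_fin, Finset.card_range]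
      omega)
  obtain ⟨e, e1, e2⟩ := Sep_enum ({t ∈ Finset.range (n * m + 1) | S.c (a₀ t) = j})
  have e3 : ∀ l < m + 1, e l < n * m + 1 ∧ S.c (a₀ (e l)) = j := by
    intro l hl
    have h2 := e1 l (by omega)
    rw [Finset.mem_filter, Finset.mem_range] at h2
    exact h2
  refine ⟨fun k => κ₀ (e k), fun k => a₀ (e k), j, ?_, ?_, ?_, ?_, ?_⟩
  · obtain ⟨g1, g2⟩ := e3 0 (by omega)
    rw [← g2]
    exact (ha (e 0) g1).1
  · intro k hk
    have := (e3 k (by omega)).1
    exact k1 _ (by omega)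
  · intro k hk l hl hkl
    have h2 := (e3 k (by omega)).1
    have h3 := (e3 l (by omega)).1
    have h4 := e2 k l (by omega) (by omega)
    have h5 := e2 l k (by omega) (by omega)
    rcases lt_or_gt_of_ne hkl with h | h
    · exact hne0 _ _ (by omega) (by omega)
    · exact (hne0 _ _ (by omega) (by omega)).symm
  · intro k hk
    exact (e3 k (by omega)).2
  · intro k hk l hl
    obtain ⟨g1, g2⟩ := e3 l (by omega)
    have g3 := (e3 k (by omega)).1
    have h6 := hmain (e l) g1 (e k) (by omega)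
    rw [g2] at h6
    rw [e2 k l (by omega) (by omega)]
    exact h6

end Pool.Agent.MPd439b2.BT
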