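import Pool.Agent.Lib.MP_d439b2_co.BT.SpecA

/-!
# MP_d439b2_co, BT, A4: few types
-/

set_option autoImplicit false

namespace Pool.Agent.MPd439b2.BT

open Pool.Agent.MPd439b2 Pool.Agent.MPd439b2.X2 Pool.Agent.MPd439b2.VX

theorem typF (h1 : S_Rows) (h2 : S_CrossE) : S_TypF := by
  intro V _ n S G _ _ F b bb N D hb hbb hF hN hD
  have hr := h1 V n S G F b N hb hF hN
  have hc := h2 V n S G F b bb N D hb hbb hF hN hD
  set A := AF S G F with hA
  set Y := {v | v ∈ A ∧ ∃ w, w ∉ A ∧ Exc S G v w} with hY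
  have hsub : Types G A ⊆ ((fun v => S.G.neighborSet v \ A) '' A) ∪
      ((fun v => G.neighborSet v \ A) '' Y) := by
    rintro T ⟨-, v, hv, rfl⟩
    by_cases h : ∃ w, w ∉ A ∧ Exc S G v w
    · exact Or.inr ⟨v, ⟨hv, h⟩, rfl⟩
    · refine Or.inl ⟨v, hv, ?_⟩
      ext w
      simp only [Set.mem_diff, SimpleGraph.mem_neighborSet]
      constructor
      · rintro ⟨h3, h4⟩
        refine ⟨?_, h4⟩
        by_contra h5
        exact h ⟨w, h4, fun h6 => h5 (h6.1 h3)⟩
      · rintro ⟨h3, h4⟩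
        refine ⟨?_, h4⟩
        by_contra h5
        exact h ⟨w, h4, fun h6 => h5 (h6.2 h3)⟩
  have hY2 : Y.encard ≤ (((b + 1) * D + N * N * bb : ℕ) : ℕ∞) := by
    rw [← (Set.toFinite Y).cast_ncard_eq]
    exact_mod_cast hc
  calc (Types G A).encard
      ≤ (((fun v => S.G.neighborSet v \ A) '' A) ∪ ((fun v => G.neighborSet v \ A) '' Y)).encard :=
        Set.encard_le_encard hsub
    _ ≤ ((fun v => S.G.neighborSet v \ A) '' A).encard +
        ((fun v => G.neighborSet v \ A) '' Y).encard := Set.encard_union_le _ _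
    _ ≤ ((n * (N + 1) ^ n : ℕ) : ℕ∞) + (((b + 1) * D + N * N * bb : ℕ) : ℕ∞) :=
        add_le_add hr ((Set.encard_image_le _ _).trans hY2)
    _ = _ := by push_cast; rfl

end Pool.Agent.MPd439b2.BT
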