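import Pool.Agent.Lib.MP_d439b2_co.BT.FinG
import Pool.Agent.Lib.MP_d439b2_co.BT.Line
import Pool.Agent.Lib.MP_d439b2_co.BT.Rows
import Pool.Agent.Lib.MP_d439b2_co.BT.CrossE
import Pool.Agent.Lib.MP_d439b2_co.BT.TypF
import Pool.Agent.Lib.MP_d439b2_co.BT.Cat
import Pool.Agent.Lib.MP_d439b2_co.BT.LayE
import Pool.Agent.Lib.MP_d439b2_co.BT.LayC
import Pool.Agent.Lib.MP_d439b2_co.BT.Hom
import Pool.Agent.Lib.MP_d439b2_co.BT.Sep
import Pool.Agent.Lib.MP_d439b2_co.BT.Cfg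
import Pool.Agent.Lib.MP_d439b2_co.BT.Fan
import Pool.Agent.Lib.MP_d439b2_co.BT.FanB
import Pool.Agent.Lib.MP_d439b2_co.BT.BallB
import Pool.Agent.Lib.MP_d439b2_co.BT.Geo
import Pool.Agent.Lib.MP_d439b2_co.BT.BBm
import Pool.Agent.Lib.MP_d439b2_co.BT.Alt
import Pool.Agent.Lib.MP_d439b2_co.BT.DBm
import Pool.Agent.Lib.MP_d439b2_co.BT.LayA
import Pool.Agent.Lib.MP_d439b2_co.BT.FinF

/-!
# MP_d439b2_co, BT: the statements of Spec A without hypotheses (helper85)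
-/

set_option autoImplicit false

namespace Pool.Agent.MPd439b2.BT

open Pool.Agent.MPd439b2

theorem pTypF : S_TypF := typF (rows1 line1) crossE

theorem pLayE : S_LayE := layE cat

theorem pCfg : S_Cfg := cfg (hom W.ramC) (sep (es W.ramC))

theorem pBBm : S_BBm := bbm (ballB (fanB (fan pCfg))) geo

theorem pDBm : S_DBm := dbm pCfg (alt line1)

theorem pLayA : S_LayA := layA pTypF pLayE layC pBBm pDBm

/-- the layout, from `F1` and the good intervals -/
theorem layFA (h1 : S_F1) (h2 : S_F1C) (h3 : CE.S_Good) : S_LayF :=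
  layF (carvF (fgB h1 h2 h3 subT) pSysQ pCarvG) pLayA

end Pool.Agent.MPd439b2.BT
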