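import Pool.Agent.Lib.MP_d439b2_co.BT.SpecG

/-! # MP_d439b2_co, BT, G1: the restricted block graph -/

set_option autoImplicit false

namespace Pool.Agent.MPd439b2.BT

open Pool.Agent.MPd439b2
open Pool.Agent.MPd439b2.VX

private theorem res1_gm {α : Type} {n : ℕ} (G : BG α n) (T T' : Finset (Fin n)) (h : T' ⊆ T) :
    (res G T).Gm T' = G.Gm T' := by
  ext x y
  change ((G.c x ∈ T' ∧ G.c y ∈ T' ∧ (G.Con x y ∨ G.Con y x ∨
    (G.c x ∈ T ∧ G.c y ∈ T ∧ G.X x y))) ↔ (G.c x ∈ T' ∧ G.c y ∈ T' ∧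
      (G.Con x y ∨ G.Con y x ∨ G.X x y)))
  constructor
  · rintro ⟨h1, h2, h3⟩
    refine ⟨h1, h2, ?_⟩
    rcases h3 with h3 | h3 | h3
    · exact Or.inl h3
    · exact Or.inr (Or.inl h3)
    · exact Or.inr (Or.inr h3.2.2)
  · rintro ⟨h1, h2, h3⟩
    refine ⟨h1, h2, ?_⟩
    rcases h3 with h3 | h3 | h3
    · exact Or.inl h3
    · exact Or.inr (Or.inl h3)
    · exact Or.inr (Or.inr ⟨h h1, h h2, h3⟩)

theorem res1 : S_Res := by
  intro α n G T
  refine ⟨fun T' h => res1_gm G T T' h, ?_, ?_⟩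
  · intro _ T' h
    ext e
    rw [BG.mem_Ed, BG.mem_Ed, res1_gm G T T' h]
    rfl
  · intro i m r A B χ hv
    refine ⟨⟨hv.two, hv.cA, hv.cB, hv.sep, fun k hk j hj => (hv.stp k hk j hj).2.2, hv.fst,
      hv.lst, hv.ch0, hv.chr, hv.inn⟩, ?_⟩
    intro hm j hj
    rcases Nat.lt_or_ge j r with hjr | hjr
    · have h1 := (hv.stp 0 hm j hjr).1
      rw [← hv.cB 0 hm j hj]
      exact h1
    · have h2 := hv.two
      have hjr' : r - 1 + 1 = j := by omega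
      have h1 := (hv.stp 0 hm (r - 1) (by omega)).2.1
      rw [hjr'] at h1
      rw [← hv.cA 0 hm j hj]
      exact h1

end Pool.Agent.MPd439b2.BT
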