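import Pool.Agent.Lib.MP_d439b2_co.BT.SpecG

/-!
# MP_d439b2_co, BT, ResF: the facts for the restricted block graph (helper74)
-/

set_option autoImplicit false

namespace Pool.Agent.MPd439b2.BT

open Pool.Agent.MPd439b2
open Pool.Agent.MPd439b2.VX

theorem resF (h1 : S_Res) : S_ResF := by
  intro α n G T i m₁ m₂ R hF
  have h := (h1 α n G T).2.2
  constructor
  · intro r A B χ hr hPs
    exact hF.prs r A B χ hr ⟨(h i m₁ r A B χ hPs.tr).1, hPs.mon, hPs.bet⟩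
  · intro r A B χ hr hRb
    obtain ⟨p, q, e1, e2, e3, e4, hg⟩ :=
      hF.good r A B χ hr ⟨(h i m₂ r A B χ hRb.tr).1, hRb.mon, hRb.bet⟩
    refine ⟨p, q, e1, e2, e3, e4, ?_⟩
    intro r' A' B' χ' hr' hRb'
    exact hg r' A' B' χ' hr' ⟨(h i m₁ r' A' B' χ' hRb'.tr).1, hRb'.mon, hRb'.bet⟩

end Pool.Agent.MPd439b2.BT
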