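import Pool.Agent.Lib.MP_d439b2_co.BT.SpecB

/-! # MP_d439b2_co, BT, B1: the reversed tracks -/

set_option autoImplicit false

namespace Pool.Agent.MPd439b2.BT

open Pool.Agent.MPd439b2
open Pool.Agent.MPd439b2.VX

theorem rev : S_Rev := by
  intro α n G i m r A B χ h
  refine ⟨h.two, ?_, ?_, ?_, ?_, ?_, ?_, ?_, ?_, ?_⟩
  · intro k hk j _
    exact h.cB k hk (r - j) (Nat.sub_le _ _)
  · intro k hk j _
    exact h.cA k hk (r - j) (Nat.sub_le _ _)
  · intro k hk k' hk' hne j _
    rcases h.sep k hk k' hk' hne (r - j) (Nat.sub_le _ _) with ⟨h1, h2, h3, h4⟩ | ⟨h1, h2, h3, h4⟩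
    · exact Or.inl ⟨h4, h3, h2, h1⟩
    · exact Or.inr ⟨h4, h3, h2, h1⟩
  · intro k hk j hj
    have h1 := h.stp k hk (r - (j + 1)) (by omega)
    have h2 : r - (j + 1) + 1 = r - j := by omega
    rw [h2] at h1
    exact G.sym _ _ h1
  · intro k hk
    exact (h.lst k hk).symm
  · intro k hk
    change B k (r - r) = A k (r - r)
    rw [Nat.sub_self]
    exact (h.fst k hk).symm
  · exact h.chr
  · change χ (r - r) = i
    rw [Nat.sub_self]
    exact h.ch0
  · intro j hj1 hj2
    exact h.inn (r - j) (by omega) (by omega)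

end Pool.Agent.MPd439b2.BT
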