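import Pool.Agent.Lib.MP_d439b2_co.BT.SpecB

/-! # MP_d439b2_co, BT, B2: subfamilies of bundles -/

set_option autoImplicit false

namespace Pool.Agent.MPd439b2.BT

open Pool.Agent.MPd439b2
open Pool.Agent.MPd439b2.VX

theorem subT : S_SubT := by
  intro α n G i M m r A B χ κ hκ
  have key : VTr G i M r A B χ → (∀ k < m, ∀ l < m, k ≠ l → κ k ≠ κ l) →
      VTr G i m r (fun k => A (κ k)) (fun k => B (κ k)) χ := by
    intro h hinj
    exact ⟨h.two, fun k hk j hj => h.cA (κ k) (hκ k hk) j hj,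
      fun k hk j hj => h.cB (κ k) (hκ k hk) j hj,
      fun k hk k' hk' hne j hj =>
        h.sep (κ k) (hκ k hk) (κ k') (hκ k' hk') (hinj k hk k' hk' hne) j hj,
      fun k hk j hj => h.stp (κ k) (hκ k hk) j hj, fun k hk => h.fst (κ k) (hκ k hk),
      fun k hk => h.lst (κ k) (hκ k hk), h.ch0, h.chr, h.inn⟩
  refine ⟨key, fun hmon => ?_⟩
  have hinj : ∀ k < m, ∀ l < m, k ≠ l → κ k ≠ κ l := by
    intro k hk l hl hne
    rcases Nat.lt_or_gt_of_ne hne with h | h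
    · exact (hmon k l h hl).ne
    · exact (hmon l k h hk).ne'
  refine ⟨fun h => ⟨key h.tr hinj, fun k l hkl hl => ?_, fun k hk l hl => ?_⟩,
    fun h => ⟨key h.tr hinj, fun k l hkl hl => ?_, fun k hk l hl => ?_⟩⟩
  · exact h.mon (κ k) (κ l) (hmon k l hkl hl) (hκ l hl)
  · exact h.bet (κ k) (hκ k hk) (κ l) (hκ l hl)
  · exact h.mon (κ k) (κ l) (hmon k l hkl hl) (hκ l hl)
  · exact h.bet (κ k) (hκ k hk) (κ l) (hκ l hl)

end Pool.Agent.MPd439b2.BT
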