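import Pool.Agent.Lib.MP_d439b2_co.BT.SpecG
import Pool.Agent.Lib.MP_d439b2_co.VX.Sys2

/-!
# MP_d439b2_co, BT: the system with a stable base (helper32), from `VX/Sys2.lean`
-/

set_option autoImplicit false

namespace Pool.Agent.MPd439b2.BT

open Pool.Agent.MPd439b2
open Pool.Agent.MPd439b2.VX

/-- `S_SysQ 2`, unconditional. -/
theorem pSysQ : S_SysQ 2 := by
  classical
  intro n f
  obtain ⟨N, hN⟩ := VX.pSys2 n f
  refine ⟨N, ?_⟩
  intro α _ _ B st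
  refine (hN α B).imp id ?_
  rintro ⟨T, g, hne, hg2, hgN, hT⟩
  have hi : ∃ i ∈ T, ((∃ j ∈ T, st j) → st i) := by
    by_cases h : ∃ j ∈ T, st j
    · obtain ⟨j, hj, hst⟩ := h
      exact ⟨j, hj, fun _ => hst⟩
    · obtain ⟨i, hi⟩ := hne
      exact ⟨i, hi, fun h' => absurd h' h⟩
  obtain ⟨i, hi, hst⟩ := hi
  obtain ⟨hCv, S, hS, hSc, hWL⟩ := hT i hi
  exact ⟨T, i, g, S, hi, hg2, hgN, hCv, hS, hSc,
    fun J M h1 h2 => VX.pLink2 α n B T i S J M hi hS hWL h1 h2, hst⟩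

end Pool.Agent.MPd439b2.BT
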