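import Pool.Agent.Lib.MP_d439b2_co.BT.SpecB

/-!
# MP_d439b2_co, BT, Thr: thresholds (helper69)
-/

set_option autoImplicit false

namespace Pool.Agent.MPd439b2.BT

open Pool.Agent.MPd439b2
open Pool.Agent.MPd439b2.VX

theorem thr : S_Thr := by
  intro α _ n G i S k hS hk hkS
  classical
  set F : ℕ → ℕ := fun t => (S.filter fun x => G.ρ x ≤ t).card with hF
  have hone : ∀ t, (S.filter fun x => G.ρ x = t).card ≤ 1 := by
    intro t
    rw [Finset.card_le_one]
    intro a ha b hb
    rw [Finset.mem_filter] at ha hb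
    exact G.inj a b ((hS a ha.1).trans (hS b hb.1).symm) (ha.2.trans hb.2.symm)
  have h0 : F 0 ≤ 1 := by
    refine le_trans (Finset.card_le_card ?_) (hone 0)
    intro x hx
    rw [Finset.mem_filter] at hx ⊢
    exact ⟨hx.1, Nat.le_zero.mp hx.2⟩
  have hstep : ∀ t, F (t + 1) ≤ F t + 1 := by
    intro t
    have h1 : (S.filter fun x => G.ρ x ≤ t + 1) ⊆
        (S.filter fun x => G.ρ x ≤ t) ∪ (S.filter fun x => G.ρ x = t + 1) := by
      intro x hx
      rw [Finset.mem_union, Finset.mem_filter, Finset.mem_filter]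
      rw [Finset.mem_filter] at hx
      by_cases h : G.ρ x ≤ t
      · exact Or.inl ⟨hx.1, h⟩
      · exact Or.inr ⟨hx.1, by omega⟩
    have h2 := Finset.card_le_card h1
    have h3 := Finset.card_union_le (S.filter fun x => G.ρ x ≤ t)
      (S.filter fun x => G.ρ x = t + 1)
    have h4 := hone (t + 1)
    simp only [hF]
    omega
  have hex : ∃ t, k ≤ F t := by
    refine ⟨S.sup G.ρ, ?_⟩
    have h1 : (S.filter fun x => G.ρ x ≤ S.sup G.ρ) = S := by
      apply Finset.filter_true_of_mem
      intro x hx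
      exact Finset.le_sup (f := G.ρ) hx
    simp only [hF]
    rw [h1]
    exact hkS
  refine ⟨Nat.find hex, ?_⟩
  have hspec := Nat.find_spec hex
  change F (Nat.find hex) = k
  rcases Nat.eq_zero_or_pos (Nat.find hex) with h | h
  · rw [h] at hspec ⊢
    omega
  · have h1 : ¬ k ≤ F (Nat.find hex - 1) := Nat.find_min hex (by omega)
    have h2 := hstep (Nat.find hex - 1)
    rw [Nat.sub_add_cancel h] at h2
    omega

end Pool.Agent.MPd439b2.BT
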