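import Pool.Agent.Lib.MP_d439b2_co.BT.CarvG
import Pool.Agent.Lib.MP_d439b2_co.BT.CoreG
import Pool.Agent.Lib.MP_d439b2_co.BT.BunT
import Pool.Agent.Lib.MP_d439b2_co.BT.Dich
import Pool.Agent.Lib.MP_d439b2_co.BT.ResF
import Pool.Agent.Lib.MP_d439b2_co.BT.Res
import Pool.Agent.Lib.MP_d439b2_co.BT.SysQ
import Pool.Agent.Lib.MP_d439b2_co.BT.Rev
import Pool.Agent.Lib.MP_d439b2_co.BT.SubT
import Pool.Agent.Lib.MP_d439b2_co.BT.ES
import Pool.Agent.Lib.MP_d439b2_co.BT.MonB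
import Pool.Agent.Lib.MP_d439b2_co.BT.Thr
import Pool.Agent.Lib.MP_d439b2_co.W.RamC
import Pool.Agent.Lib.MP_d439b2_co.VX.Final

/-!
# MP_d439b2_co, BT: `S_CarvG` without hypotheses (helper85)
-/

set_option autoImplicit false

namespace Pool.Agent.MPd439b2.BT

open Pool.Agent.MPd439b2

theorem pMonB : S_MonB := monB rev subT (es W.ramC)

theorem pCarvG : S_CarvG :=
  carvG res1 (resF res1) (bunT res1 VX.pBun pMonB subT) (coreG subT thr (dich subT)) thr subT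

end Pool.Agent.MPd439b2.BT
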