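import Pool.Agent.Lib.MP_d439b2_co.BT.SpecF
import Pool.Agent.Lib.MP_d439b2_co.F1.Spec

/-!
# MP_d439b2_co, BT: the forms of `F1` (helper85)
-/

set_option autoImplicit false

namespace Pool.Agent.MPd439b2.BT

open Pool.Agent.MPd439b2

theorem FCx.fr3 {V : Type} {n : ℕ} {S : X2.St V n} {G : SimpleGraph V} {b m : ℕ} (h : FCx S G b m) :
    F1.Fr3 G m := ⟨h.hH, h.hJ, h.no (true, false, false) (by simp)⟩

theorem f1_of (h : F1.S_F1) : S_F1 := by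
  intro n b m₀ R m
  obtain ⟨M, hM⟩ := h n b m₀ R m
  refine ⟨M, fun V _ S G i hx hi r A B χ hr => ?_⟩
  obtain ⟨h1, h2⟩ := hM V S G hx.ex hx.fr3 i r A B χ hi hr
  refine ⟨h1, fun hR => ?_⟩
  obtain ⟨σ, Q, κ, κ', hQ, h3, h4⟩ := h2 hR
  exact ⟨σ, Q, κ, κ', hQ, fun k hk => ⟨(h3 k hk).1, (h4 k hk).1⟩, fun k hk => ⟨(h3 k hk).2, (h4 k hk).2⟩⟩

theorem f1c_of (h : F1.S_Cq) : S_F1C := by
  intro n b m₀ R
  obtain ⟨M, hM⟩ := h n b m₀ R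
  exact ⟨M, fun V _ S G i hx r A B χ hr hχ => hM V S G hx.ex hx.fr3 i r A B χ hχ hr⟩

end Pool.Agent.MPd439b2.BT
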