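import Pool.Agent.Lib.MP_d439b2_co.BT.FinA
import Pool.Agent.Lib.MP_d439b2_co.BT.GlueF
import Pool.Agent.Lib.MP_d439b2_co.F1.Fin
import Pool.Agent.Lib.MP_d439b2_co.CE.WrapC
import Pool.Agent.Lib.MP_d439b2_co.CE.WrapB
import Pool.Agent.Lib.MP_d439b2_co.CE.Sl
import Pool.Agent.Lib.MP_d439b2_co.CE.Ord
import Pool.Agent.Lib.MP_d439b2_co.CE.Or
import Pool.Agent.Lib.MP_d439b2_co.CE.Two
import Pool.Agent.Lib.MP_d439b2_co.CE.Snd
import Pool.Agent.Lib.MP_d439b2_co.CE.ClA
import Pool.Agent.Lib.MP_d439b2_co.CE.ClB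
import Pool.Agent.Lib.MP_d439b2_co.CE.GoodP
import Pool.Agent.Lib.MP_d439b2_co.CE.Good

/-!
# MP_d439b2_co, BT: the layout of linked graphs with a staircase structure, without hypotheses (helper85)

`pLayF`: if `G` has no induced minor `K3:0,1,02`, `J_2`, no large patterns except for thick spiders, is linked, and has a
staircase structure with exceptional pairs of bounded degree, then `G` has a layout of bounded width.  The proof: block
graph (`BT`), vertex separators (`VX`), rainbows (`F1`), good intervals (`CE`).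
-/

set_option autoImplicit false

namespace Pool.Agent.MPd439b2.BT

open Pool.Agent.MPd439b2

/-- the good intervals -/
theorem pGood : CE.S_Good :=
  CE.good (CE.goodP CE.r1 CE.r5 CE.ord CE.pSl (CE.two CE.r1 CE.zt CE.pSl (CE.orF CE.pt CE.ord))
    (CE.snd CE.r1 CE.pSl) (CE.clA CE.pSl CE.r1) CE.clB)

/-- **The layout.** -/
theorem pLayF : S_LayF := layFA (f1_of F1.f1) (f1c_of F1.cq) pGood

end Pool.Agent.MPd439b2.BT
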