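import Pool.Agent.Lib.MP_d439b2_co.BT.Defs
import Pool.Agent.Lib.MP_d439b2_co.VX.Defs

/-!
# MP_d439b2_co, BT: the block graph as a `VX.BG` (helper85)
-/

set_option autoImplicit false

namespace Pool.Agent.MPd439b2.BT

open Pool.Agent.MPd439b2 Pool.Agent.MPd439b2.X2

variable {V : Type} {n : ℕ}

/-- **The block graph** of `S` and `G`: the nodes of the blocks, with the cross relation `Xr` -/
def BGr (S : St V n) (G : SimpleGraph V) : VX.BG {x : V // Nd S x} n where
  c x := S.c x.1
  ρ x := S.ρ x.1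
  X x y := Xr S G x.1 y.1
  inj _ _ h h' := Subtype.ext (S.inj _ _ h h')
  sym _ _ h := h.symm
  ne _ _ h := h.1

@[simp] theorem BGr_c (S : St V n) (G : SimpleGraph V) (x : {x : V // Nd S x}) :
    (BGr S G).c x = S.c x.1 := rfl

@[simp] theorem BGr_ρ (S : St V n) (G : SimpleGraph V) (x : {x : V // Nd S x}) :
    (BGr S G).ρ x = S.ρ x.1 := rfl

theorem BGr_X (S : St V n) (G : SimpleGraph V) (x y : {x : V // Nd S x}) :
    (BGr S G).X x y ↔ Xr S G x.1 y.1 := Iff.rfl

/-- the node of the block of `v` -/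
noncomputable def nd (S : St V n) (v : V) : {x : V // Nd S x} := ⟨bl S v, nd_bl S v⟩

@[simp] theorem nd_val (S : St V n) (v : V) : (nd S v).1 = bl S v := rfl

theorem nd_node (S : St V n) (x : {x : V // Nd S x}) : nd S x.1 = x := Subtype.ext x.2

theorem c_nd (S : St V n) (v : V) : S.c (nd S v).1 = S.c v := c_bl S v

end Pool.Agent.MPd439b2.BT
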