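import Pool.Agent.Lib.MP_d439b2_co.BT.SpecB

/-!
# MP_d439b2_co, BT, MonB: bundles which leave an interval (helper69)
-/

set_option autoImplicit false

namespace Pool.Agent.MPd439b2.BT

open Pool.Agent.MPd439b2
open Pool.Agent.MPd439b2.VX

theorem monB (h1 : S_Rev) (h2 : S_SubT) (h3 : S_ES) : S_MonB := by
  intro m
  obtain ⟨M, hM⟩ := h3 m
  refine ⟨M, ?_⟩
  intro α n G i r A B χ J hT hJ hside
  obtain ⟨κ, hκM, hinc, hmon⟩ := hM (fun k => G.ρ (A k 0)) (fun k => G.ρ (A k r)) (by
    intro k hk l hl hkl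
    constructor
    · rcases hT.sep k hk l hl hkl 0 (Nat.zero_le _) with h | h
      · exact h.1.ne
      · exact h.1.ne'
    · rcases hT.sep k hk l hl hkl r (le_refl _) with h | h
      · exact h.1.ne
      · exact h.1.ne')
  have hinj : ∀ k < m, ∀ l < m, k ≠ l → κ k ≠ κ l := by
    intro k hk l hl hkl h
    rcases lt_or_gt_of_ne hkl with h' | h'
    · have := hinc k l h' hl
      simp only [h] at this
      exact lt_irrefl _ this
    · have := hinc l k h' hk
      simp only [h] at this
      exact lt_irrefl _ this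
  have hT' := (h2 α n G i M m r A B χ κ hκM).1 hT hinj
  rcases hside with hside | hside
  · -- to the right
    have hbet : ∀ k < m, ∀ l < m, G.ρ (A (κ k) 0) < G.ρ (A (κ l) r) := fun k hk l hl =>
      hside (κ l) (hκM l hl) _ (hJ (κ k) (hκM k hk))
    rcases hmon with hmon | hmon
    · left
      exact ⟨_, _, χ, ⟨hT', fun k l hkl hl => ⟨hinc k l hkl hl, hmon k l hkl hl⟩, hbet⟩⟩
    · right
      refine ⟨_, _, χ, ⟨hT', fun k l hkl hl => ⟨hinc k l hkl hl, hmon k l hkl hl⟩, hbet⟩, ?_⟩
      left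
      intro k hk
      exact ⟨hJ (κ k) (hκM k hk), fun x hx => hside (κ k) (hκM k hk) x hx⟩
  · -- to the left
    rcases hmon with hmon | hmon
    · left
      have hR := h1 α n G i m r _ _ χ hT'
      refine ⟨_, _, _, ⟨hR, ?_, ?_⟩⟩
      · intro k l hkl hl
        have hk : k < m := by omega
        simp only [Nat.sub_zero, Nat.sub_self]
        rw [← hT.lst (κ k) (hκM k hk), ← hT.lst (κ l) (hκM l hl), ← hT.fst (κ k) (hκM k hk),
          ← hT.fst (κ l) (hκM l hl)]
        exact ⟨hmon k l hkl hl, hinc k l hkl hl⟩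
      · intro k hk l hl
        simp only [Nat.sub_zero, Nat.sub_self]
        rw [← hT.lst (κ k) (hκM k hk), ← hT.fst (κ l) (hκM l hl)]
        exact hside (κ k) (hκM k hk) _ (hJ (κ l) (hκM l hl))
    · right
      have hκ' : ∀ k < m, κ (m - 1 - k) < M := fun k hk => hκM _ (by omega)
      have hT2 := (h2 α n G i M m r A B χ (fun k => κ (m - 1 - k)) hκ').1 hT (by
        intro k hk l hl hkl
        exact hinj _ (by omega) _ (by omega) (by omega))
      have hR := h1 α n G i m r _ _ χ hT2
      refine ⟨_, _, _, ⟨hR, ?_, ?_⟩, ?_⟩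
      · intro k l hkl hl
        have hk : k < m := by omega
        simp only [Nat.sub_zero, Nat.sub_self]
        rw [← hT.lst _ (hκ' k hk), ← hT.lst _ (hκ' l hl), ← hT.fst _ (hκ' k hk),
          ← hT.fst _ (hκ' l hl)]
        exact ⟨hmon (m - 1 - l) (m - 1 - k) (by omega) (by omega),
          hinc (m - 1 - l) (m - 1 - k) (by omega) (by omega)⟩
      · intro k hk l hl
        simp only [Nat.sub_zero, Nat.sub_self]
        rw [← hT.lst _ (hκ' k hk), ← hT.fst _ (hκ' l hl)]
        exact hside _ (hκ' k hk) _ (hJ _ (hκ' l hl))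
      · right
        intro k hk
        simp only [Nat.sub_zero, Nat.sub_self]
        rw [← hT.lst _ (hκ' k hk), ← hT.fst _ (hκ' k hk)]
        exact ⟨hJ _ (hκ' k hk), fun x hx => hside _ (hκ' k hk) x hx⟩

end Pool.Agent.MPd439b2.BT
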