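import Pool.Agent.Lib.MP_d439b2_co.BT.Final
import Pool.Agent.Lib.MP_d439b2_co.BT.EndF

/-!
# MP_d439b2_co, BT: the end game `BP.S_End` without hypotheses (helper85)
-/

set_option autoImplicit false

namespace Pool.Agent.MPd439b2.BT

open Pool.Agent.MPd439b2

/-- **The end game of the base pair `(K3:0,1,02, co(P_3 + 2 P_2))`.** -/
theorem sEnd : BP.S_End := endF pLayF

end Pool.Agent.MPd439b2.BT
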