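import Pool.Agent.Lib.MP_d439b2_co.VX.Spec

/-!
# MP_d439b2_co, BT, Spec B: the core argument (helper85)

Every `S_...` is a statement to be proved in its own file `BT/<Name>.lean`; the docstring contains the complete
proof.  Pure theory of the block graphs `VX.BG`: if closed bundles of tracks are never preserving (`Fct.prs`) and
rainbows do not cross good arcs (`Fct.crR`, `Fct.crL`) then the block graph has a branch decomposition of bounded
width (`S_CarvB`).
-/

set_option autoImplicit false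

namespace Pool.Agent.MPd439b2.BT

open Pool.Agent.MPd439b2
open Pool.Agent.MPd439b2.VX

section defs

variable {α : Type} {n : ℕ}

/-- **Preserving closed bundle**: `m` tracks from the chain `i` to itself; the left ends `A k 0` and the right ends
`A k r` both increase, all left ends are before all right ends -/
structure Ps (G : BG α n) (i : Fin n) (m r : ℕ) (A B : ℕ → ℕ → α) (χ : ℕ → Fin n) : Prop where
  tr : VTr G i m r A B χ
  mon : ∀ k l, k < l → l < m → G.ρ (A k 0) < G.ρ (A l 0) ∧ G.ρ (A k r) < G.ρ (A l r)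
  bet : ∀ k < m, ∀ l < m, G.ρ (A k 0) < G.ρ (A l r)

/-- **Rainbow**: the left ends `A k 0` increase, the right ends `A k r` decrease (the arc `0` is the outermost one) -/
structure Rb (G : BG α n) (i : Fin n) (m r : ℕ) (A B : ℕ → ℕ → α) (χ : ℕ → Fin n) : Prop where
  tr : VTr G i m r A B χ
  mon : ∀ k l, k < l → l < m → G.ρ (A k 0) < G.ρ (A l 0) ∧ G.ρ (A l r) < G.ρ (A k r)
  bet : ∀ k < m, ∀ l < m, G.ρ (A k 0) < G.ρ (A l r)

/-- **The facts** about bundles of size `m₀` with at most `R` steps; `AA i a b`: `(a, b)` is a good arc of the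
chain `i`.  `prs`: no preserving bundles; `good`: every rainbow of size `m₀` has a good arc; `crR`, `crL`: no rainbow
of size `m₀` crosses a good arc from the right or from the left -/
structure Fct (G : BG α n) (m₀ R : ℕ) (AA : Fin n → α → α → Prop) : Prop where
  prs : ∀ i r A B χ, r ≤ R → ¬ Ps G i m₀ r A B χ
  good : ∀ i r A B χ, r ≤ R → Rb G i m₀ r A B χ → ∃ k < m₀, AA i (A k 0) (A k r)
  crR : ∀ i r A B χ, r ≤ R → Rb G i m₀ r A B χ → ∀ a b, AA i a b → G.c a = i → G.c b = i →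
    (∀ k < m₀, G.ρ a < G.ρ (A k 0) ∧ G.ρ (A k 0) < G.ρ b ∧ G.ρ b < G.ρ (A k r)) → False
  crL : ∀ i r A B χ, r ≤ R → Rb G i m₀ r A B χ → ∀ a b, AA i a b → G.c a = i → G.c b = i →
    (∀ k < m₀, G.ρ (A k 0) < G.ρ a ∧ G.ρ a < G.ρ (A k r) ∧ G.ρ (A k r) < G.ρ b) → False

/-- the arcs of the rainbow leave the interval `J` to the right or to the left -/
def Leav (G : BG α n) (J : Finset α) (m r : ℕ) (A : ℕ → ℕ → α) : Prop :=
  (∀ k < m, A k 0 ∈ J ∧ ∀ x ∈ J, G.ρ x < G.ρ (A k r)) ∨ ∀ k < m, A k r ∈ J ∧ ∀ x ∈ J, G.ρ (A k 0) < G.ρ x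

/-- **The context of the core argument**: the facts, and every interval `J` of the chain `i` with at least `M` elements
of `S` inside and outside has a rainbow of size `2 m₀ + 2` which leaves it -/
structure Ctx (G : BG α n) (i : Fin n) [DecidableEq α] (S : Finset α) (m₀ R M : ℕ)
    (AA : Fin n → α → α → Prop) : Prop where
  fct : Fct G m₀ R AA
  pos : 1 ≤ M
  cS : ∀ x ∈ S, G.c x = i
  bal : ∀ J : Finset α, (∀ x ∈ J, G.c x = i) → G.Int J → M ≤ (S ∩ J).card → M ≤ (S \ J).card →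
    ∃ r A B χ, r ≤ R ∧ Rb G i (2 * m₀ + 2) r A B χ ∧ Leav G J (2 * m₀ + 2) r A

end defs

/-- **B1** (20 lines).  The reversed tracks.

Proof. Write `A' k j = B k (r - j)`, `B' k j = A k (r - j)`, `χ' j = χ (r - j)`.  `sep` is symmetric under exchanging
`A` and `B`.  `stp`: `X (B' k j) (A' k (j + 1)) = X (A k (r - j)) (B k (r - j - 1))`, by `G.sym` from `stp` for
`r - j - 1`.  `fst`, `lst`: from `lst`, `fst`. -/
def S_Rev : Prop := ∀ (α : Type) (n : ℕ) (G : BG α n) (i : Fin n) (m r : ℕ) (A B : ℕ → ℕ → α)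
  (χ : ℕ → Fin n), VTr G i m r A B χ →
  VTr G i m r (fun k j => B k (r - j)) (fun k j => A k (r - j)) (fun j => χ (r - j))

/-- **B2** (20 lines).  Subfamilies: of a bundle (for injective `κ`), of preserving bundles and rainbows (for strictly
increasing `κ`).

Proof. Clear. -/
def S_SubT : Prop := ∀ (α : Type) (n : ℕ) (G : BG α n) (i : Fin n) (M m r : ℕ) (A B : ℕ → ℕ → α)
  (χ : ℕ → Fin n) (κ : ℕ → ℕ), (∀ k < m, κ k < M) →
  (VTr G i M r A B χ → (∀ k < m, ∀ l < m, k ≠ l → κ k ≠ κ l) →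
    VTr G i m r (fun k => A (κ k)) (fun k => B (κ k)) χ) ∧
  ((∀ k l, k < l → l < m → κ k < κ l) →
    (Ps G i M r A B χ → Ps G i m r (fun k => A (κ k)) (fun k => B (κ k)) χ) ∧
    (Rb G i M r A B χ → Rb G i m r (fun k => A (κ k)) (fun k => B (κ k)) χ))

/-- **B3** (40 lines).  Erdos and Szekeres for two injective sequences (uses `W.S_RamC`).

Proof. `W.S_RamC` for the colours `Prop × Prop` (or `Bool × Bool`) and `m`: `χ k l = (f k < f l, g k < g l)`.  We get `s` strictly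
increasing on `{0, .., m - 1}` with values `< M` such that the truth values of `f (s k) < f (s l)` and of
`g (s k) < g (s l)` are constant for `k < l < m`; if the first one is true: `κ = s`.  Otherwise
`f (s l) < f (s k)` (injective), `κ k = s (m - 1 - k)`; the second one is constant as well. -/
def S_ES : Prop := ∀ m : ℕ, ∃ M : ℕ, ∀ f g : ℕ → ℕ,
  (∀ k < M, ∀ l < M, k ≠ l → f k ≠ f l ∧ g k ≠ g l) →
  ∃ κ : ℕ → ℕ, (∀ k < m, κ k < M) ∧ (∀ k l, k < l → l < m → f (κ k) < f (κ l)) ∧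
    ((∀ k l, k < l → l < m → g (κ k) < g (κ l)) ∨ ∀ k l, k < l → l < m → g (κ l) < g (κ k))

/-- **B4** (80 lines).  A bundle which leaves an interval contains a preserving bundle or a rainbow (uses B1, B2, B3).

Proof. `M` from B3 for `m`.  `f k = ρ (A k 0)`, `g k = ρ (A k r)`: injective by `sep` (rails `0`, `r`).  B3 gives `κ`
(injective on `{0, .., m - 1}`), B2 the bundle `A' k = A (κ k)`, `B' k = B (κ k)`.
Case 1, all `x ∈ J` are before all `A k r`: `bet` is clear (`A k 0 ∈ J`).  If `g ∘ κ` increases: `Ps`.  If it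
decreases: `Rb`, `Leav` by the first alternative.
Case 2, all `A k r` are before all `x ∈ J`: B1 gives the reversed bundle `A'' k j = B' k (r - j)`, its left ends are
`A'' k 0 = B' k r = A' k r`, its right ends `A'' k r = B' k 0 = A' k 0`.  `bet` for `A''` is clear.  If `g ∘ κ`
increases then left ends and right ends increase: `Ps`.  If it decreases: reverse the order of the indices as
well, `A''' k = A'' (m - 1 - k)` (B2 with `κ k = m - 1 - k`): left ends increase, right ends decrease: `Rb`, and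
`Leav` by the second alternative. -/
def S_MonB : Prop := ∀ m : ℕ, ∃ M : ℕ, ∀ (α : Type) (n : ℕ) (G : BG α n) (i : Fin n) (r : ℕ)
  (A B : ℕ → ℕ → α) (χ : ℕ → Fin n) (J : Finset α), VTr G i M r A B χ → (∀ k < M, A k 0 ∈ J) →
  ((∀ k < M, ∀ x ∈ J, G.ρ x < G.ρ (A k r)) ∨ ∀ k < M, ∀ x ∈ J, G.ρ (A k r) < G.ρ x) →
  (∃ A' B' χ', Ps G i m r A' B' χ') ∨ ∃ A' B' χ', Rb G i m r A' B' χ' ∧ Leav G J m r A'

/-- **B5** (60 lines).  The context (uses `VX.S_Link`, `VX.S_Bun`, B2, B4).

Proof. `m = 2 m₀ + 2`; `m₁` the number of B4 for `m`, `M` the maximum of `1` and the number of `VX.S_Bun` for `n, g, m₁`;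
`R = n + 4 g + 1`.  (`S_Bun` for its own number `M'`, `S_Link` for `M' ≤ M`.)  `bal`: `VX.S_Link` gives the linkage from `J` to the rest of the chain `i`
(`M ≤ |S ∩ J|`, `M ≤ |S \ J|`); `J.filter (c x = i) = J` is an interval; `VX.S_Bun` gives `r ≤ R` and the bundle with
`A k 0 ∈ J` for `k < m₁` and one of the two alternatives (for `x ∈ J`, `c x = i`).  B4: the first alternative is a
preserving bundle of size `m ≥ m₀`, impossible by `Fct.prs` (B2 with `κ = id`); the second alternative is the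
conclusion. -/
def S_CtxB : Prop := ∀ n g m₀ : ℕ, 2 ≤ g → ∃ M : ℕ, ∀ (α : Type) [Fintype α] [DecidableEq α]
  (G : BG α n) (T : Finset (Fin n)) (i : Fin n) (S : Finset α) (AA : Fin n → α → α → Prop), i ∈ T →
  Carv (G.Ed (T.erase i)) g (G.Ed (T.erase i)) → (∀ x ∈ S, G.c x = i) → WL (G.Ed T) S →
  Fct G m₀ (n + 4 * g + 1) AA → Ctx G i S m₀ (n + 4 * g + 1) M AA

/-- **B6** (70 lines).  A good arc is small or big (uses B2).

Proof. Otherwise `bal` for `J = {x | c x = i, ρ a ≤ ρ x ≤ ρ b}` (an interval which contains `a` and `b`) gives a rainbow of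
size `2 m₀ + 2`.  Let `κ k = k + 1` for `k < m₀` (B2).
It leaves `J` to the right: `ρ b < ρ (A k r)` for all `k`; for `1 ≤ k ≤ m₀`:
`ρ a ≤ ρ (A 0 0) < ρ (A k 0) < ρ (A (k + 1) 0) ≤ ρ b`.  So `Fct.crR` for the subfamily `κ`: contradiction.
It leaves `J` to the left: `ρ (A k 0) < ρ a` for all `k`; for `1 ≤ k ≤ m₀`:
`ρ a ≤ ρ (A (k + 1) r) < ρ (A k r) < ρ (A 0 r) ≤ ρ b`.  So `Fct.crL`: contradiction. -/
def S_Arc : Prop := ∀ (α : Type) [Fintype α] [DecidableEq α] (n : ℕ) (G : BG α n) (i : Fin n)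
  (S : Finset α) (m₀ R M : ℕ) (AA : Fin n → α → α → Prop), Ctx G i S m₀ R M AA →
  ∀ a b, AA i a b → G.c a = i → G.c b = i → G.ρ a < G.ρ b →
    (S.filter fun x => G.ρ a ≤ G.ρ x ∧ G.ρ x ≤ G.ρ b).card < M ∨
      (S.filter fun x => ¬ (G.ρ a ≤ G.ρ x ∧ G.ρ x ≤ G.ρ b)).card < M

/-- **B7** (30 lines).  Thresholds.

Proof. `F t = |{x ∈ S | ρ x ≤ t}|`; `F (t + 1) ≤ F t + 1` as `ρ` is injective on `S` (all elements are in one chain);
`F 0 ≤ 1`; `F t = |S|` for large `t`.  If `k = 0` and `F 0 = 1` there is no such `t`, so `1 ≤ k` is assumed: take the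
smallest `t` with `k ≤ F t`; `F t = k` (if `t = 0` then `F 0 ≤ 1 ≤ k`, otherwise `F (t - 1) < k`). -/
def S_Thr : Prop := ∀ (α : Type) [DecidableEq α] (n : ℕ) (G : BG α n) (i : Fin n) (S : Finset α)
  (k : ℕ), (∀ x ∈ S, G.c x = i) → 1 ≤ k → k ≤ S.card → ∃ t : ℕ, (S.filter fun x => G.ρ x ≤ t).card = k

/-- **B8** (150 lines).  **The core argument** (uses B2, B6, B7).

Proof. Suppose `8 M ≤ |S|`.  B7: `p` with `|{x ∈ S | ρ x ≤ p}| = 2 M`, `q` with `|{x ∈ S | ρ x ≤ q}| = 6 M`; so `p < q`,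
`|{x ∈ S | p < ρ x ≤ q}| = 4 M`, `|{x ∈ S | q < ρ x}| ≥ 2 M`.
For a number `t` let `U t` be the set of the numbers `u` such that `u = t`, or `t < u` and there are `a, b` in the chain
`i` with `AA i a b`, `ρ a ≤ t`, `ρ b = u` and fewer than `M` elements `x ∈ S` with `ρ a ≤ ρ x ≤ ρ b`.  It is
finite (`α` is finite) and contains `t`; let `p'` be the largest element of `U p`, `q'` the largest element of
`U q`.  There are fewer than `M` elements `x ∈ S` with `p < ρ x ≤ p'` (`1 ≤ M`), and the same for `q, q'`.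
`J = {x | c x = i, p' < ρ x ≤ q'}` is an interval; it contains at least `4 M - M ≥ M` elements of `S` (the `x ∈ S` with
`p < ρ x ≤ q` and not `ρ x ≤ p'`; `q ≤ q'`), and at least `2 M` elements of `S` are outside (`ρ x ≤ p ≤ p'`).  `Ctx.bal`
gives a rainbow of size `2 m₀ + 2` which leaves `J`.
(I) To the right: `p' < ρ (A k 0) ≤ q'` and `q' < ρ (A k r)` (otherwise `A k r ∈ J`, as `p' < ρ (A k 0) < ρ (A k r)`).
(Ia) `ρ (A k 0) ≤ q` for all `k < m₀`: `Fct.good` for the first `m₀` arcs (B2) gives `k < m₀` with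
`AA i (A k 0) (A k r)`.  B6: fewer than `M` elements of `S` between the ends, or fewer than `M` not between the ends;
the latter is false as the `2 M` elements with `ρ x ≤ p` are not between the ends.  So `ρ (A k r) ∈ U q`
(`ρ (A k 0) ≤ q ≤ q' < ρ (A k r)`), so `ρ (A k r) ≤ q'`: contradiction.
(Ib) otherwise `q < ρ (A k 0)` for some `k < m₀`, so for all `k ≥ m₀` (`k < 2 m₀ + 2`), as the left ends increase.  So
`q < q'`, so there are `a, b` as in the definition of `U q` with `ρ b = q'`, `ρ a ≤ q`.  For `m₀ ≤ k < 2 m₀`: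
`ρ a ≤ q < ρ (A k 0) < ρ (A (k + 1) 0) ≤ q' = ρ b < ρ (A k r)`: contradiction to `Fct.crR` (for the subfamily
`k ↦ m₀ + k`, B2).
(II) To the left: `p' < ρ (A k r) ≤ q'` and `ρ (A k 0) ≤ p'` (otherwise `A k 0 ∈ J`, as `ρ (A k 0) < ρ (A k r)`).
(IIa) `ρ (A k 0) ≤ p` for all `k < m₀`: `Fct.good` gives `k < m₀` with `AA i (A k 0) (A k r)`.  B6: fewer than `M` elements of
`S` between the ends, or fewer than `M` not between the ends; the latter is false as the elements `x ∈ S` with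
`q' < ρ x` are not between the ends: at least `2 M - (M - 1)`.  So `ρ (A k r) ∈ U p` (`ρ (A k 0) ≤ p ≤ p' < ρ (A k r)`),
so `ρ (A k r) ≤ p'`: contradiction.
(IIb) otherwise `p < ρ (A k 0) ≤ p'` for all `k ≥ m₀`; so `p < p'`, there are `a, b` with `AA i a b`, `ρ a ≤ p`,
`ρ b = p'`; for `m₀ ≤ k < 2 m₀`: `ρ a ≤ p < ρ (A k 0) < ρ (A (k + 1) 0) ≤ p' = ρ b < ρ (A k r)`: contradiction to
`Fct.crR`. -/
def S_Core : Prop := ∀ (α : Type) [Fintype α] [DecidableEq α] (n : ℕ) (G : BG α n) (i : Fin n)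
  (S : Finset α) (m₀ R M : ℕ) (AA : Fin n → α → α → Prop), Ctx G i S m₀ R M AA → S.card < 8 * M

/-- **B9** (40 lines).  **Branch decompositions of bounded width** (uses `VX.S_Sys`, B5, B8).

Proof. `M g` the number of B5 for `n`, `g`, `m₀ (n + 4 g + 1)` (for `2 ≤ g`), `f g = 8 * M g`; `N` from `VX.S_Sys`.  In its second
alternative B5 gives `Ctx`, and B8 contradicts `f g ≤ |S|`. -/
def S_CarvB : Prop := ∀ (n : ℕ) (m₀ : ℕ → ℕ), ∃ N : ℕ, ∀ (α : Type) [Fintype α] [DecidableEq α]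
  (G : BG α n) (AA : ℕ → Fin n → α → α → Prop), (∀ R, Fct G (m₀ R) R (AA R)) →
  Carv (G.Ed Finset.univ) N (G.Ed Finset.univ)

end Pool.Agent.MPd439b2.BT
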