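import Pool.Agent.Lib.MP_d439b2_co.BT.Des
import Pool.Agent.Lib.MP_d439b2_co.BT.SpecB
import Pool.Agent.Lib.MP_d439b2_co.W.SpecE
import Pool.Agent.Lib.MP_d439b2_co.Rep.Defs

/-!
# MP_d439b2_co, BT, Spec A: from a branch decomposition of the block graph to a layout (helper85)

Every `S_...` is a statement to be proved in its own file `BT/<Name>.lean`; the docstring contains the complete
proof.  Definitions and small lemmas: `BT/Defs.lean`, `BT/Graph.lean`, `BT/Des.lean`, `VX/Defs.lean`.  Final statement: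
`S_LayA`.
-/

set_option autoImplicit false

namespace Pool.Agent.MPd439b2.BT

open Pool.Agent.MPd439b2 Pool.Agent.MPd439b2.X2 Pool.Agent.MPd439b2.VX

/-! ## 1. Rows -/

/-- **A1** (100 lines).  The merged line of two classes is connected in the block graph.

Proof. Let `E = Ed univ`.  If `u = w`: `z = u` (`u ∈ vs F ∩ vs (E \ F)`).  Let `u` come before `w`.  Let
`X = {x : Nod S | c x ∈ {i, j}, x ∈ vs F, (x = u ∨ Bef u x), (x = w ∨ Bef x w)}`, finite, it contains `u`.  Let `x` be an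
element of `X` such that no `x' ∈ X` satisfies `Bef x x'` (`bef_trans`, `bef_irrefl`; a finite set: e.g. maximize the
number of the `y` with `Bef y x`).  If `x = w` then `z = w`.  Otherwise `Bef x w`; let
`Y = {y : Nod S | c y ∈ {i, j}, Bef x y, (y = w ∨ Bef y w)}`, it contains `w`; let `y ∈ Y` such that no `y' ∈ Y` satisfies
`Bef y' y`.  So there is no node strictly between `x` and `y` (`bef_trans`; a node between them has its class in
`{i, j}` by `bef_cls`), and `y ∉ vs F` (otherwise `y ∈ X`, `Bef x y`).  The pair `(x, y)` is in `E`: if the classes of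
`x, y` are different it is a corner: `Cn S x y` (if `c x = i` by definition, `c y = j`; if `c x = j` then `c y = i` and use
`bef_symm`), so `Xr S G x y` and `xr_mem`.  If both are in the class `i` then `Bef x y` says `S.lt (s i j) x y`; if
`s i j = true` then `(BGr S G).Con x y`: for a node `z` with `c z = c x`, `ρ x < ρ z` and `ρ z < ρ y` we would have
`Bef x z`, `Bef z y`; if `s i j = false` then `Con y x` in the same way.  If both are in the class `j`: `Bef x y` says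
`S.lt (s j i) y x`, the same.  (`(x, y) ∈ Ed univ` by `BG.mem_Ed`, `Gm` contains `Con x y` and `Con y x`.)  As
`y ∉ vs F` the pair is in `E \ F`, so `x ∈ vs (E \ F)`, and `z = x`. -/
def S_Line : Prop := ∀ (V : Type) [Finite V] (n : ℕ) (S : St V n) (G : SimpleGraph V)
  [Fintype (Nod S)] [DecidableEq (Nod S)] (F : Finset (Nod S × Nod S)) (i j : Fin n)
  (u w : Nod S), i ≠ j → F ⊆ (BGr S G).Ed Finset.univ → u ∈ vs F →
  w ∈ vs ((BGr S G).Ed Finset.univ \ F) → (S.c u.1 = i ∨ S.c u.1 = j) →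
  (S.c w.1 = i ∨ S.c w.1 = j) → (u = w ∨ Bef S i j u.1 w.1) →
  ∃ z ∈ bd ((BGr S G).Ed Finset.univ) F, (z = u ∨ Bef S i j u.1 z.1) ∧ (z = w ∨ Bef S i j z.1 w.1)

/-- **A2** (120 lines).  Few rows of `S` (uses A1).

Proof. For `v ∈ AF F` and a class `j` let `φ v j` be the number of the `z ∈ bd E F` with `Bef S (S.c v) j z (bl v)`, a
number `≤ N`.  The row of `v` (outside `AF F`) is determined by `S.c v` and `φ v`: let `v, v' ∈ AF F`,
`S.c v = S.c v' = i`, `φ v = φ v'`, and let `w ∉ AF F`, `j = S.c w`.  If `j = i` then `S.G.Adj v w` iff `S.t i = true`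
(`St.typ`, `v ≠ w`), the same for `v'`.  Let `j ≠ i` and suppose `Adj v w`, not `Adj v' w`.  `adj_bl`: the same for the
nodes `x = nd v`, `y = nd w`, `x' = nd v'`.  So `Bef i j x y` (third case of `Bef`) and `Bef i j y x'` (fourth case).
`x ∈ vs F` (`des v ∈ F`, `des_fst`), `y ∈ vs (E \ F)` (`des w ∈ E`, `des_mem`, `des w ∉ F`).  A1: `z ∈ bd E F`
with `x ≤ z ≤ y` on the line; so `Bef z x'` (`bef_trans`) and not `Bef z x` (`bef_irrefl`, `bef_trans`).  Every `z'`
with `Bef z' x` satisfies `Bef z' x'` (`bef_trans`).  So `φ v j < φ v' j`: contradiction.  So the number of the rows is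
at most the number of the pairs (class, function `Fin n → Fin (N + 1)`). -/
def S_Rows : Prop := ∀ (V : Type) [Finite V] (n : ℕ) (S : St V n) (G : SimpleGraph V)
  [Fintype (Nod S)] [DecidableEq (Nod S)] (F : Finset (Nod S × Nod S)) (b N : ℕ), ExcB S G b →
  F ⊆ (BGr S G).Ed Finset.univ → (bd ((BGr S G).Ed Finset.univ) F).card ≤ N →
  ((fun v => S.G.neighborSet v \ AF S G F) '' AF S G F).encard ≤ (n * (N + 1) ^ n : ℕ)

/-- **A3** (90 lines).  Few crossing exceptional pairs.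

Proof. Let `v ∈ A = AF F` with a mate `w ∉ A`.  `des v = (nd v, nd z) ∈ F` with `Exc v z`, `des w = (nd w, nd z') ∉ F`
with `Exc w z'` (`des_mate`).  If `(nd v, nd w) ∉ F` then `v ∈ Dbl F` (mates `z`, `w`).  If `(nd w, nd v) ∈ F` then
`w ∈ Dbl F` (mates `v`, `z'`).  Otherwise `(nd v, nd w) ∈ F`, `(nd w, nd v) ∈ E \ F` (`exc_mem`), so `nd v` and `nd w`
are in `bd E F = vs F ∩ vs (E \ F)`, and `v ∈ Zp (bl v) (bl w)`.  So the set of these `v` is contained in the union of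
`Dbl F`, of `{v | ∃ w ∈ Dbl F, Exc w v}` (at most `b * D` elements) and of the sets `Zp p q` for the values `p, q` of the
elements of `bd E F` (at most `N * N * bb` elements). -/
def S_CrossE : Prop := ∀ (V : Type) [Finite V] (n : ℕ) (S : St V n) (G : SimpleGraph V)
  [Fintype (Nod S)] [DecidableEq (Nod S)] (F : Finset (Nod S × Nod S)) (b bb N D : ℕ),
  ExcB S G b → BBd S G bb → F ⊆ (BGr S G).Ed Finset.univ →
  (bd ((BGr S G).Ed Finset.univ) F).card ≤ N → (Dbl S G F).ncard ≤ D →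
  {v | v ∈ AF S G F ∧ ∃ w, w ∉ AF S G F ∧ Exc S G v w}.ncard ≤ (b + 1) * D + N * N * bb

/-- **A4** (60 lines).  Few types (uses A2, A3).

Proof. Let `v ∈ A = AF F`.  If `v` has no mate outside `A` then `G.neighborSet v \ A = S.G.neighborSet v \ A`.  So
`Types G A` is contained in the union of the set of A2 and of the set of the `G.neighborSet v \ A` for the `v` of A3. -/
def S_TypF : Prop := ∀ (V : Type) [Finite V] (n : ℕ) (S : St V n) (G : SimpleGraph V)
  [Fintype (Nod S)] [DecidableEq (Nod S)] (F : Finset (Nod S × Nod S)) (b bb N D : ℕ),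
  ExcB S G b → BBd S G bb → F ⊆ (BGr S G).Ed Finset.univ →
  (bd ((BGr S G).Ed Finset.univ) F).card ≤ N → (Dbl S G F).ncard ≤ D →
  (Types G (AF S G F)).encard ≤ (n * (N + 1) ^ n + ((b + 1) * D + N * N * bb) : ℕ)

/-! ## 2. Layouts -/

/-- **A5** (30 lines).  Caterpillars.

Proof. Induction over the finite set `A` (`Set.Finite.induction_on`, or over `A.ncard`): `A = ∅`: `Lay.empty`;
`A = insert v A'`: `Lay.insert`. -/
def S_Cat : Prop := ∀ (V : Type) [Finite V] (G : SimpleGraph V) (A : Set V) (K : ℕ), 1 ≤ K →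
  (∀ A' ⊆ A, (Types G A').encard ≤ K) → Lay G K A

/-- **A6** (90 lines).  Layouts of the sets of one pair (uses A5).

Proof. Let `e = (p, q)`, `A = AF {e}`.  If some `v ∈ A` has a mate then `des v = (nd v, nd z) = e` with `Exc v z`
(`des_mate`), so `p ≠ q` (the classes are different: `ExcB.cls`, `c_nd`), so every `v ∈ A` has a mate (`des_loop` would
give `p = q`) and `A ⊆ Zp p q`: `A` has at most `bb` elements, and every `A' ⊆ A` has at most `bb` types (the number of
types is at most the number of vertices).  Otherwise no `v ∈ A` has a mate, and `nd v = p` for all `v ∈ A`: every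
`A' ⊆ A` has at most one type: let `v, v' ∈ A'` and `w ∉ A'`; `G.Adj v w` iff `S.G.Adj v w` (no mates); if
`S.c w ≠ S.c v` then iff `S.G.Adj v' w` (`tw_of_bl`), otherwise iff `S.t (S.c v) = true` (`St.typ`, `v ≠ w`), the same
for `v'`.  A5. -/
def S_LayE : Prop := ∀ (V : Type) [Finite V] (n : ℕ) (S : St V n) (G : SimpleGraph V)
  (b bb : ℕ) (e : Nod S × Nod S), ExcB S G b → BBd S G bb → Lay G (bb + 1) (AF S G {e})

/-- **A7** (50 lines).  From `Carv` to `Lay`.

Proof. Induction over `Carv`.  `empty`: `AF ∅ = ∅`.  `single e`: the hypothesis.  `union`: `AF (A ∪ B) = AF A ∪ AF B`,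
disjoint if `A`, `B` are disjoint; `A ∪ B ⊆ E` (a set with `Carv E N` is contained in `E`, by induction); `Lay.union`. -/
def S_LayC : Prop := ∀ (V : Type) [Finite V] (n : ℕ) (S : St V n) (G : SimpleGraph V)
  [DecidableEq (Nod S)] (E F : Finset (Nod S × Nod S)) (N K : ℕ),
  (∀ F' ⊆ E, (bd E F').card ≤ N → (Types G (AF S G F')).encard ≤ K) →
  (∀ e ∈ E, Lay G K (AF S G {e})) → Carv E N F → Lay G K (AF S G F)

/-! ## 3. Homogeneous rails -/

/-- **A8** (120 lines).  Homogeneous rails by Ramsey's theorem (uses `W.S_RamC`).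

Proof. `m' = m + b + 3`; `M` the number of `W.S_RamC` for `m'` and the colours
`Fin 16 → Fin 16 → Prop × Prop × Prop × Prop × Prop` (finite); the colour of `(k, l)` is
`(i, j) ↦ (G.Adj (x i k) (x j l), G.Adj (x i k) (x j k), x i k = x j l, Exc (x i k) (x j l), x i k = x j k)`.  We get `s`,
strictly increasing on `{0, .., m' - 1}`; `κ = s`.  The third component is false for `i, j < L`: otherwise
`x i (s 0) = x j (s 1) = x j (s 2)`, against the hypothesis.  The fourth one is false: otherwise `x i (s 0)` has the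
`b + 1` different mates `x j (s 1), .., x j (s (b + 1))`, against `ExcB.deg`.  For `k > l` exchange the roles (equality
and `Exc` are symmetric).  The second and fifth components are constant for `k < m` (`l = m' - 1`).
`F c = ` the first component for `(c / 16, c % 16)` if `c < 256`, otherwise the second one for
`((c - 256) / 16, (c - 256) % 16)`. -/
def S_Hom : Prop := ∀ L m b : ℕ, L ≤ 16 → ∃ M : ℕ, ∀ (V : Type) [Finite V] (n : ℕ) (S : St V n)
  (G : SimpleGraph V) (x : ℕ → ℕ → V), ExcB S G b →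
  (∀ i < L, ∀ k < M, ∀ l < M, k ≠ l → x i k ≠ x i l) →
  ∃ (κ : ℕ → ℕ) (F : ℕ → Bool), (∀ k l, k < l → l < m → κ k < κ l) ∧ (∀ k < m, κ k < M) ∧
    HM S G L m (fun i k => x i (κ k)) F

/-- **A9** (100 lines).  Separators (uses `S_ES` of `BT/SpecB.lean`).

Proof. `M` the number of `S_ES` for `n * m + 1`.  The `ρ (z k)` are different (`S.inj`, the `z k` are different as the
nodes are different).  `S_ES` for `f = g = ρ ∘ z`: `κ₀` such that `ρ (z (κ₀ k))` increases for `k ≤ n * m`.  For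
`k < n * m` the vertices `z (κ₀ k)`, `z (κ₀ (k + 1))` are not twins (`bl_eq`), so there is `a₀ k` with
`S.c (a₀ k) ≠ i` adjacent to exactly one of them.  Pigeonhole: there are a class `j` and `k_0 < .. < k_(m - 1) < n * m`
with `S.c (a₀ k_l) = j`.  `κ l = κ₀ k_l`, `a l = a₀ k_l`.  If `s i j = true`: vertices with smaller `ρ` see more of the
class `j` (`St.see` or `St.dn`), so `z (κ₀ k_l)` is adjacent to `a l`, `z (κ₀ (k_l + 1))` is not; so `z (κ k)` is adjacent to
`a l` for `k ≤ l`, and not for `k > l` (`k_k ≥ k_l + 1`).  If `s i j = false`: the converse. -/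
def S_Sep : Prop := ∀ n m : ℕ, ∃ M : ℕ, ∀ (V : Type) (S : St V n) (i : Fin n) (z : ℕ → V),
  (∀ k < M, S.c (z k) = i) → (∀ k < M, ∀ l < M, k ≠ l → bl S (z k) ≠ bl S (z l)) →
  ∃ (κ : ℕ → ℕ) (a : ℕ → V) (j : Fin n), j ≠ i ∧ (∀ k < m, κ k < M) ∧
    (∀ k < m, ∀ l < m, k ≠ l → κ k ≠ κ l) ∧ (∀ k < m, S.c (a k) = j) ∧
    ∀ k < m, ∀ l < m, (S.G.Adj (z (κ k)) (a l) ↔ (k ≤ l ↔ S.s i j = true))

/-- **A10** (200 lines).  Exchange of half relations at a twin rail (uses A8, A9 and `FF2`).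

Proof. `m₃ = 2 * (m' + m + 16) + 2`; `m₂` the number of A8 for `4, m₃, b`; `m₁` the number of A9 for `m₂`; `M = n * n * m₁ + 1`.
(1) Pigeonhole: `m₁` indices for which `S.c (z k) = i` and `S.c (w k) = i'` are constant.  (2) A9 for `z`: `m₂` indices
and `a`, `j`.  The `a l` are different: for `k < l` the vertex `z (κ l)` sees exactly one of `a k`, `a l`.  (3) A8 for the
rails `x 0 = z`, `x 1 = v`, `x 2 = w`, `x 3 = a` (injective), `m₃` indices: `HM`, bits `F`.  (4) New rails with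
`m₄ = m' + m + 16` indices: `y 0 k = z (2 k)`, `y 1 k = v (2 k)`, `y 2 k = w (2 k)`, `y 3 k = a (2 k + 1)`.  They satisfy `HRa`
with `F' (256 + 16 * i + 3) = F (16 * i + 3)` for `i < 3` and `F' = F` otherwise: `dis`: off the diagonal by `HM.ne`; on the
diagonal `z ≠ v`, `v ≠ w` (classes, `ExcB.cls`), `z ≠ w` (hypothesis), `a (2 k + 1)` against the index `2 k` by `HM.ne`.
The relation of `z` and `a` is preserved: `S.G.Adj (y 0 k) (y 3 l)` iff (`k ≤ l` iff `s i j = true`), as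
`2 k ≤ 2 l + 1` iff `k ≤ l`.
(5) `CoM F' 0 1`: for `k ≠ l`: `S` and `G` agree on `z k, v l` (`HM.ex`), and `S.G.Adj (z k) (v l)` does not depend on `l`
(`v l` are twins, `adj_bl_left`; the classes of `z k`, `v l` are different).  So `F 1 = F 16` (compare
`z 1, v 0` and `z 1, v 2`).  On the diagonal: `Exc`, so `F 257` is the negation.  The types: `F 0 = true` iff
`S.t i = true`, `F 17 = true` iff `S.t (S.c p) = true` (no exceptions inside a class: `ExcB.cls`; `St.typ`), they are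
different by `ExcB.typ`.  If `F 1 = false` then the two rails are a thin spider of size `m`: contradiction to `NoSp`.
`CoM F' 1 2` in the same way (`S.G.Adj (v k) (w l)` does not depend on `k`; all `w l` are in the class `i'`).
(6) `F' 3 ≠ F' 48`: `F' 3 = true` iff `s i j = true`, `F' 48 = true` iff `s i j = false`.  `FF2`: `F' 35 = F' 3`,
`F' 50 = F' 48`.  So `G.Adj (w k) (a l)` is `F' 3` for `k ≤ l` (for `k = l` the bit `F' (256 + 35) = F 35`) and
`F' 48` for `k > l`.  `i' ≠ j`: otherwise `w k`, `a l` are in one class and their adjacency is constant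
(`St.typ`, no exceptions), but `F' 3 ≠ F' 48`.  And `S`, `G` agree on `w k, a l` (`HM.ex`). -/
def S_Cfg : Prop := ∀ n b m m' : ℕ, ∃ M : ℕ, ∀ (V : Type) [Finite V] (S : St V n)
  (G : SimpleGraph V) (p : V) (v w z : ℕ → V), ExcB S G b → FF2 G → NoSp G m →
  (∀ k < M, bl S (v k) = p ∧ Exc S G (v k) (w k) ∧ Exc S G (v k) (z k) ∧ z k ≠ w k) →
  (∀ k < M, ∀ l < M, k ≠ l → v k ≠ v l ∧ w k ≠ w l ∧ bl S (z k) ≠ bl S (z l)) →
  ∃ (κ : ℕ → ℕ) (a : ℕ → V) (i i' j : Fin n), i ≠ j ∧ i' ≠ j ∧ (∀ k < m', κ k < M) ∧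
    (∀ k < m', S.c (z (κ k)) = i ∧ S.c (w (κ k)) = i' ∧ S.c (a k) = j) ∧
    ∀ k < m', ∀ l < m', (S.G.Adj (z (κ k)) (a l) ↔ (k ≤ l ↔ S.s i j = true)) ∧
      (S.G.Adj (w (κ k)) (a l) ↔ (k ≤ l ↔ S.s i j = true))

/-! ## 4. Few exceptional pairs between two blocks -/

/-- **A11** (90 lines).  No large fans (uses A10).

Proof. Let `M` be the number of A10 for `m' = 2`, `c₁ = (b + 1) * (M + 1) + 2`.  Suppose `c₁ ≤ s`.  At most one `k` satisfies
`bl (z k) = q`; leave it out; then `z k ≠ w k`.  Every `w` is the mate of at most `b` of the (different) `v k`, so there are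
`M` indices with different `w k` (greedy).  A10: `κ, a, i, i', j`.  `w (κ 0)`, `w (κ 1)` are twins (in the block `q`) and
`S.c (a 0) = j ≠ i'`, so `S.G.Adj (w (κ 0)) (a 0) ↔ S.G.Adj (w (κ 1)) (a 0)`, but the right hand sides are
(`0 ≤ 0` iff ..) and (`1 ≤ 0` iff ..): contradiction. -/
def S_Fan : Prop := ∀ n b m : ℕ, ∃ c₁ : ℕ, ∀ (V : Type) [Finite V] (S : St V n)
  (G : SimpleGraph V) (p q : V) (s : ℕ) (v w z : ℕ → V), ExcB S G b → FF2 G → NoSp G m →
  (∀ k < s, bl S (v k) = p ∧ bl S (w k) = q ∧ Exc S G (v k) (w k) ∧ Exc S G (v k) (z k)) →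
  (∀ k < s, ∀ l < s, k ≠ l → v k ≠ v l ∧ bl S (z k) ≠ bl S (z l)) → s < c₁

/-- **A12** (60 lines).  The mates of the vertices of `Zp p q` are in few blocks (uses A11).

Proof. Let `s < c₁` be maximal such that there are `v, w, z` as in A11 (`s = 0` is possible).  `𝓑 = {bl (z k) | k < s}`,
`X = {v k | k < s}`.  Let `v' ∈ Zp p q`, `v' ∉ X`, `Exc v' z'`.  If `bl z' ∉ 𝓑` then `v', z'` (and a mate `w'` of `v'` in
`q`) can be added: contradiction. -/
def S_FanB : Prop := ∀ n b m : ℕ, ∃ c₁ : ℕ, ∀ (V : Type) [Finite V] (S : St V n)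
  (G : SimpleGraph V) (p q : V), ExcB S G b → FF2 G → NoSp G m →
  ∃ 𝓑 X : Set V, 𝓑.ncard ≤ c₁ ∧ X.ncard ≤ c₁ ∧
    ∀ v ∈ Zp S G p q, v ∉ X → ∀ z, Exc S G v z → bl S z ∈ 𝓑

/-- **A13** (130 lines).  The balls of the vertices of `Zp p q` are in few blocks (uses A12).

Proof. Let `c₁` be the number of A12 and `𝓑 p q`, `X p q` its sets (choice).  Induction on `r`.
`r = 0` and `r = 1`: `𝓑 = {p} ∪ 𝓑 p q`, `X = X p q`.  (`Bll 1 v` consists of `v` and its mates.)
`r + 1`, `1 ≤ r`: let `𝓑'`, `X'` be the sets for `r`;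
`𝓑 = 𝓑' ∪ ⋃_(p', q' ∈ 𝓑') 𝓑 p' q'`, `X = X' ∪ {v | ∃ u ∈ ⋃_(p', q' ∈ 𝓑') X p' q', v ∈ Bll r u}`; sizes:
`c_(r + 1) = c_r + c_r ^ 2 * c₁ * (b + 1) ^ r` is enough (`bll_card`).  Let `v ∈ Zp p q`, `v ∉ X` and
`u ∈ Bll (r + 1) v`, `u ∉ Bll r v`: there is `w ∈ Bll r v` with `Exc w u`.  `w ∉ Bll (r - 1) v` (`bll_step`), so `w ≠ v`
(`1 ≤ r`) and `w` has a mate `t ∈ Bll (r - 1) v` (definition of `Bll r`; `w = t` is impossible).  `bl w, bl t ∈ 𝓑'`,
`w ∈ Zp (bl w) (bl t)`.  `w ∉ X (bl w) (bl t)`: otherwise `v ∈ X` (`bll_symm`).  A12: `bl u ∈ 𝓑 (bl w) (bl t)`. -/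
def S_BallB : Prop := ∀ n b m r : ℕ, ∃ c : ℕ, ∀ (V : Type) [Finite V] (S : St V n)
  (G : SimpleGraph V) (p q : V), ExcB S G b → FF2 G → NoSp G m →
  ∃ 𝓑 X : Set V, 𝓑.ncard ≤ c ∧ X.ncard ≤ c ∧
    ∀ v ∈ Zp S G p q, v ∉ X → ∀ u ∈ Bll S G r v, bl S u ∈ 𝓑

/-- **A14** (200 lines).  Few long geodesics of exceptional pairs in few blocks (uses `FF10`, no other statement).

Proof. `m₁ = m + 16`, `M = c ^ 10 * m₁`, `d = M * (b + 1) ^ 19 + 1`.  Suppose `d < |K|`.  (1) There are `v 0, .., v (M - 1) ∈ K`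
with `v l ∉ Bll 19 (v k)` for `k ≠ l` (greedy, `bll_card`, `bll_symm`).  (2) For every `k` there is
`u ∈ Bll 9 (v k)`, `u ∉ Bll 8 (v k)`; so there are `u 0 k = v k, u 1 k, .., u 9 k` with `Exc (u j k) (u (j + 1) k)` and
`u j k ∈ Bll j (v k)`, `u (j + 1) k ∉ Bll j (v k)` (go back from `u`: if `u ∈ Bll (j + 1) v`, `u ∉ Bll j v` then there is
`w ∈ Bll j v` with `Exc w u`, and `w ∉ Bll (j - 1) v` by `bll_step`; for `j = 0`: `w = v`).  So `u j k ≠ u j' k` for
`j ≠ j'`, and `¬ Exc (u j k) (u j' k)` for `j + 2 ≤ j'` (otherwise `u j' k ∈ Bll (j + 1) (v k)`).  For `k ≠ l`: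
`u j k ≠ u j' l`, `¬ Exc (u j k) (u j' l)` (otherwise `v l ∈ Bll 19 (v k)` by `bll_add`, `bll_symm`, `bll_mono`).
(3) Pigeonhole: `m₁` indices for which the nodes `bl (u j k) = P j` are constant (`u j k ∈ Bll 9 (v k)`, `𝓑` has at most
`c` elements; functions `Fin 10 → 𝓑`).
(4) For `k ≠ l` the adjacency in `G` of `u j k` and `u j' l` is the one in `S.G`; it is `S.G.Adj (P j) (P j')` if the
classes of `P j`, `P j'` are different (`adj_bl`), and `S.t (S.c (P j)) = true` otherwise (`St.typ`).  Call it `e j j'`;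
it is symmetric.  For `j + 2 ≤ j'`, `k = l` it is the same (no exceptional pair).  For `j' = j + 1`, `k = l`: `Exc`, so the
classes are different, the types are different (`ExcB.typ`), and the adjacency is the negation of `e j (j + 1)`.  If
`e j (j + 1)` is false then the rails `j, j + 1` are a thin spider of size `m`, against `NoSp`.  So `HRa G 10 16 x F` with
`F c = e (c / 16) (c % 16)` for `c < 256`, `F (256 + 16 j + j') = e j j'` for `j' ≠ j + 1` and `false` for `j' = j + 1`.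
`FF10`: contradiction. -/
def S_Geo : Prop := ∀ n b m c : ℕ, ∃ d : ℕ, ∀ (V : Type) [Finite V] (S : St V n)
  (G : SimpleGraph V) (𝓑 K : Set V), ExcB S G b → FF10 G → NoSp G m → 𝓑.ncard ≤ c →
  (∀ v ∈ K, ∀ u ∈ Bll S G 9 v, bl S u ∈ 𝓑) → (∀ v ∈ K, Bll S G 9 v ≠ Bll S G 8 v) → K.ncard ≤ d

/-- **A15** (170 lines).  **Few exceptional pairs between two blocks** (uses A13, A14, and `Rep.cr_types` of
`Rep/Cut.lean` as the hypothesis `hc`).

Proof. `c` the number of A13 for `r = 9`, `c₀ = c`, `d` the number of A14 for `c`, `β₀ = β c`,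
`bb = c + d + (β₀ + 1) * (b + 1) ^ 8 + β₀ + 1`.  Suppose `bb < |Zp p q|`.  A13: `𝓑`, `X`.  `K = Zp p q \ X`; all balls
`Bll 9 v`, `v ∈ K`, are in blocks of `𝓑`.  A14: at most `d` elements `v ∈ K` satisfy `Bll 9 v ≠ Bll 8 v`.  Let `K₂` be
the set of the other ones: more than `(β₀ + 1) * (b + 1) ^ 8 + β₀` elements.  Choose `A ⊆ K₂` with `β₀ + 1` elements,
`X' = ⋃_(v ∈ A) Bll 8 v`, `|X'| ≤ (β₀ + 1) * (b + 1) ^ 8`, `A ⊆ X'`.  `X'` is closed under `Exc` (`bll_step` and
`Bll 9 v = Bll 8 v`).  `(Types G X').encard ≤ c`: let `x, x' ∈ X'` with `bl x = bl x'` and `y ∉ X'`: `G.Adj x y` iff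
`S.G.Adj x y` (`¬ Exc x y`); if `S.c y ≠ S.c x`: iff `S.G.Adj x' y` (`tw_of_bl`); otherwise iff
`S.t (S.c x) = true` (`St.typ`, `x ≠ y`); the same for `x'`.  So the types are images of elements of `𝓑`.  So
`LK.cr G X' ≤ c` and by `Link` `|X'| ≤ β₀` or `|X'ᶜ| ≤ β₀`; but `|X'| ≥ |A| = β₀ + 1` and `X'ᶜ ⊇ K₂ \ X'` has more
than `β₀` elements: contradiction. -/
def S_BBm : Prop := ∀ (n b m : ℕ) (β : ℕ → ℕ), ∃ c₀ bb : ℕ, ∀ (V : Type) [Finite V] (S : St V n)
  (G : SimpleGraph V), (∀ (X : Set V) (k : ℕ), (Types G X).encard ≤ k → LK.cr G X ≤ k) →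
  ExcB S G b → FF2 G → FF10 G → NoSp G m → Rep.Link β c₀ G → BBd S G bb

/-! ## 5. Few double vertices -/

/-- **A16** (90 lines).  Alternating sequences on the line cross the boundary (uses A1).

Proof. For every `k ∈ I` let `y k ∈ bd E F` be given by A1.  Case `e = true`: `z k` comes before `a k` for `k ∈ I`: A1 for
`(i, j)`, `u = z k ∈ vs F`, `w = a k ∈ vs (E \ F)`: `z k ≤ y k ≤ a k`.  For `k < l` in `I`: `a k` comes before
`z l`, so `y k ≤ a k < z l ≤ y l` and `y k ≠ y l` (`bef_trans`, `bef_irrefl`).  Case `e = false`: `a k` comes before `z k`: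
A1 for `(j, i)` and `bef_symm`: `a k ≤ y k ≤ z k`; for `k < l`: `z l` comes before `a k`, so
`y l ≤ z l < a k ≤ y k`.  So `y` is injective on `I`. -/
def S_Alt : Prop := ∀ (V : Type) [Finite V] (n : ℕ) (S : St V n) (G : SimpleGraph V)
  [Fintype (Nod S)] [DecidableEq (Nod S)] (F : Finset (Nod S × Nod S)) (i j : Fin n) (N : ℕ)
  (I : Finset ℕ) (z a : ℕ → Nod S) (e : Bool), i ≠ j → F ⊆ (BGr S G).Ed Finset.univ →
  (bd ((BGr S G).Ed Finset.univ) F).card ≤ N →
  (∀ k ∈ I, S.c (z k).1 = i ∧ S.c (a k).1 = j ∧ z k ∈ vs F ∧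
    a k ∈ vs ((BGr S G).Ed Finset.univ \ F)) →
  (∀ k ∈ I, ∀ l ∈ I, (S.G.Adj (z k).1 (a l).1 ↔ (k ≤ l ↔ e = true))) → I.card ≤ N

/-- **A17** (170 lines).  **Few double vertices** (uses A10, A16).

Proof. Let `E = Ed univ`.  For `w ∈ Dbl F` with mates `z, z'`: `(nd w, nd z) ∈ F`, so `nd w, nd z ∈ vs F`;
`(nd w, nd z') ∈ E \ F` (`exc_mem`), so `nd w, nd z' ∈ vs (E \ F)`; `nd w ∈ bd E F`.  So it is enough to bound the number
of the `w ∈ Dbl F` with a fixed node `nd w = q`; let there be more than `D₁`,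
`D₁ = 2 * N * bb + (2 * bb + 1) * (M + 1)`, `M` the number of A10 for `m' = 2 * N + 1`; then `D = N * D₁`.
(1) For every node `p'` at most `bb` of the `w` have a given mate in the block `p'` (they are in `Zp q p'`).  Leave out the
`w` with `nd z ∈ bd E F` or `nd z' ∈ bd E F`: at most `2 * N * bb`.  So `nd z ∈ vs F`, `∉ vs (E \ F)`, and
`nd z' ∈ vs (E \ F)`, `∉ vs F`; in particular `z ≠ z'`.  (2) Greedy: `M` of the `w` with pairwise different `bl z` and
pairwise different `bl z'`.  (3) A10 for `v = w k`, `w = z' k`, `z = z k`: `κ, a, i, i', j` with `2 N + 1` indices.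
Let `A k = nd (a k)`, `Z k = nd (z (κ k))`, `Z' k = nd (z' (κ k))`; `adj_bl`: the relations of `Z k, A l` and of
`Z' k, A l` in `S.G` are (`k ≤ l` iff `s i j = true`).  (4) For every `k` the loop of `A k` is in `F` or in `E \ F`.  Let
`I` be the set of the `k` with `A k ∈ vs (E \ F)`: A16 for `(i, j)`, `F`, `Z`, `A`, `e = s i j`: `|I| ≤ N`.  Let `I'` be
the set of the `k` with `A k ∈ vs F`: A16 for `(i', j)`, `E \ F`, `Z'`, `A`, `e = s i j`: `E \ (E \ F) = F`,
`bd E (E \ F) = bd E F`: `|I'| ≤ N`.  But `I ∪ I'` has `2 N + 1` elements. -/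
def S_DBm : Prop := ∀ n b m bb N : ℕ, ∃ D : ℕ, ∀ (V : Type) [Finite V] (S : St V n)
  (G : SimpleGraph V) [Fintype (Nod S)] [DecidableEq (Nod S)] (F : Finset (Nod S × Nod S)),
  ExcB S G b → FF2 G → NoSp G m → BBd S G bb → F ⊆ (BGr S G).Ed Finset.univ →
  (bd ((BGr S G).Ed Finset.univ) F).card ≤ N → (Dbl S G F).ncard ≤ D

/-! ## 6. The layout -/

/-- **A18** (60 lines).  **The layout** (uses A4, A6, A7, A15, A17).

Proof. `c₀, bb` from A15, `D` from A17, `K = n * (N + 1) ^ n + ((b + 1) * D + N * N * bb) + bb + 1`.  A4 for all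
`F' ⊆ E = Ed univ` with `|bd E F'| ≤ N`; A6 (`Lay.mono`); A7 for `F = E`; `AF E = univ` (`des_mem`). -/
def S_LayA : Prop := ∀ (n b m N : ℕ) (β : ℕ → ℕ), ∃ c₀ K : ℕ, ∀ (V : Type) [Finite V]
  (S : St V n) (G : SimpleGraph V) [Fintype (Nod S)] [DecidableEq (Nod S)],
  (∀ (X : Set V) (k : ℕ), (Types G X).encard ≤ k → LK.cr G X ≤ k) →
  ExcB S G b → FF2 G → FF10 G → NoSp G m → Rep.Link β c₀ G →
  Carv ((BGr S G).Ed Finset.univ) N ((BGr S G).Ed Finset.univ) → Lay G K Set.univ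

end Pool.Agent.MPd439b2.BT
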