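import Pool.Agent.Lib.MP_d439b2_co.BT.SpecG
import Pool.Agent.Lib.MP_d439b2_co.BT.SpecA
import Pool.Agent.Lib.MP_d439b2_co.CE.Spec
import Pool.Agent.Lib.MP_d439b2_co.Rep.RowX3

/-!
# MP_d439b2_co, BT, Spec F: from the rainbows (F1) and the good intervals (CE) to the layout (helper85)

`S_F1`, `S_F1C` are proved by helper40 (folder `F1/`); `fgA` is the adapter from `S_F1` and `CE.S_Good` to the facts `FG`
for the block graph.
-/

set_option autoImplicit false

namespace Pool.Agent.MPd439b2.BT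

open Pool.Agent.MPd439b2 Pool.Agent.MPd439b2.X2 Pool.Agent.MPd439b2.VX

/-- **The context** for `F1` -/
structure FCx {V : Type} {n : ℕ} (S : St V n) (G : SimpleGraph V) (b m : ℕ) : Prop where
  ex : ExcB S G b
  hH : ¬ IMS (KA 3 3 ![{0}, {1}, {0, 2}]) G Set.univ
  hJ : ¬ IMS (F9.JS ![0, 1, 1] 2) G Set.univ
  no : Rep.NoT {(false, false, false), (true, false, false), (true, true, true)} m G

/-- **F1** (helper40).  For a stable base class there are no large preserving bundles, and a large rainbow of the block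
graph gives a rainbow `CE.Rain` of the staircase structure, the legs of which are in the blocks of the ends of its
arcs -/
def S_F1 : Prop := ∀ n b m₀ R m : ℕ, ∃ M : ℕ, ∀ (V : Type) [Finite V] (S : St V n)
  (G : SimpleGraph V) (i : Fin n), FCx S G b m₀ → S.t i = false → ∀ r A B χ, r ≤ R →
  ¬ Ps (BGr S G) i M r A B χ ∧
  (Rb (BGr S G) i M r A B χ → ∃ (σ : Bool) (Q : ℕ → ℕ → V) (κ κ' : ℕ → ℕ), CE.Rain S G i σ m Q ∧
    (∀ k < m, κ k < M ∧ κ' k < M) ∧
    ∀ k < m, bl S (CE.LL σ Q k) = (A (κ k) 0).1 ∧ bl S (CE.RL σ Q k) = (A (κ' k) r).1)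

/-- **F1 for cliques** (helper40).  There are no large preserving bundles and no large rainbows all chains of which are
clique classes -/
def S_F1C : Prop := ∀ n b m₀ R : ℕ, ∃ M : ℕ, ∀ (V : Type) [Finite V] (S : St V n)
  (G : SimpleGraph V) (i : Fin n), FCx S G b m₀ → ∀ r A B χ, r ≤ R → (∀ j ≤ r, S.t (χ j) = true) →
  ¬ Ps (BGr S G) i M r A B χ ∧ ¬ Rb (BGr S G) i M r A B χ

/-- **The facts for the block graph** -/
def S_FGB : Prop := ∀ n b m₀ : ℕ, ∃ m₁ m₂ : ℕ → ℕ, ∀ (V : Type) [Finite V] (S : St V n)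
  (G : SimpleGraph V), FCx S G b m₀ →
  (∀ R i, S.t i = false → FG (BGr S G) i (m₁ R) (m₂ R) R) ∧
  ∀ R i r A B χ, r ≤ R → (∀ j ≤ r, S.t (χ j) = true) →
    ¬ Ps (BGr S G) i (m₁ R) r A B χ ∧ ¬ Rb (BGr S G) i (m₁ R) r A B χ

/-- **The block graph has a branch decomposition of bounded width** -/
def S_CarvF : Prop := ∀ n b m₀ : ℕ, ∃ N : ℕ, ∀ (V : Type) [Finite V] (S : St V n)
  (G : SimpleGraph V) [Fintype (Nod S)] [DecidableEq (Nod S)], FCx S G b m₀ →
  Carv ((BGr S G).Ed Finset.univ) N ((BGr S G).Ed Finset.univ)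

/-- **The layout** -/
def S_LayF : Prop := ∀ (n b m₀ : ℕ) (β : ℕ → ℕ), ∃ c₀ K : ℕ, ∀ (V : Type) [Finite V] (S : St V n)
  (G : SimpleGraph V), FCx S G b m₀ → Rep.Link β c₀ G → Lay G K Set.univ

end Pool.Agent.MPd439b2.BT
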