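import Pool.Agent.Lib.MP_d439b2_co.BT.SpecB

/-!
# MP_d439b2_co, BT, Spec G: the core argument with good intervals (helper85)

Every `S_...` is a statement to be proved in its own file `BT/<Name>.lean`; the docstring contains the complete
proof.  Pure theory of the block graphs `VX.BG`.  Instead of good arcs (`BT/SpecB.lean`) we use good intervals: every
rainbow of size `m₂` has in its middle an interval which is not left by rainbows of size `m₁`.  This is note 3162,
Claims B and C.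
-/

set_option autoImplicit false

namespace Pool.Agent.MPd439b2.BT

open Pool.Agent.MPd439b2
open Pool.Agent.MPd439b2.VX

section defsG

variable {α : Type} {n : ℕ}

/-- **Good interval**: no rainbow of size `m` (with at most `R` steps) has exactly one family of ends in
`{x | p ≤ ρ x < q}` -/
def Gd (G : BG α n) (i : Fin n) (m R p q : ℕ) : Prop :=
  ∀ r A B χ, r ≤ R → Rb G i m r A B χ →
    (¬ ∀ k < m, p ≤ G.ρ (A k 0) ∧ G.ρ (A k 0) < q ∧ q ≤ G.ρ (A k r)) ∧
    ¬ ∀ k < m, G.ρ (A k 0) < p ∧ p ≤ G.ρ (A k r) ∧ G.ρ (A k r) < q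

/-- **The facts** for the base chain `i`: no preserving bundles of size `m₁`; every rainbow of size `m₂` has a good
interval in its middle -/
structure FG (G : BG α n) (i : Fin n) (m₁ m₂ R : ℕ) : Prop where
  prs : ∀ r A B χ, r ≤ R → ¬ Ps G i m₁ r A B χ
  good : ∀ r A B χ, r ≤ R → Rb G i m₂ r A B χ → ∃ p q, G.ρ (A 0 0) < p ∧ p ≤ G.ρ (A (m₂ - 1) 0) ∧
    G.ρ (A (m₂ - 1) r) < q ∧ q ≤ G.ρ (A 0 r) ∧ Gd G i m₁ R p q

/-- **The context of the core argument**: the facts, and every interval `J` of the chain `i` with at least `M` elements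
of `S` inside and outside has a rainbow of size `m₁ + m₂` which leaves it -/
structure CtG (G : BG α n) (i : Fin n) [DecidableEq α] (S : Finset α) (m₁ m₂ R M : ℕ) : Prop where
  fg : FG G i m₁ m₂ R
  pos : 1 ≤ M
  cS : ∀ x ∈ S, G.c x = i
  bal : ∀ J : Finset α, (∀ x ∈ J, G.c x = i) → G.Int J → M ≤ (S ∩ J).card → M ≤ (S \ J).card →
    ∃ r A B χ, r ≤ R ∧ Rb G i (m₁ + m₂) r A B χ ∧ Leav G J (m₁ + m₂) r A

/-- `S` is linked in the chain `i` (with a factor `q`): a part `J` of the chain `i` with `q M` elements of `S` inside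
and outside has `M` disjoint paths to the rest of the chain -/
def LkS (G : BG α n) [Fintype α] [DecidableEq α] (T : Finset (Fin n)) (i : Fin n) (S : Finset α)
    (q : ℕ) : Prop :=
  ∀ (J : Finset α) (M : ℕ), q * M ≤ (S ∩ J).card → q * M ≤ (S \ J).card →
    ∃ ν p, GT.Lkg (G.Gm T) (Finset.univ.filter fun x => G.c x = i ∧ x ∈ J)
      (Finset.univ.filter fun x => G.c x = i ∧ x ∉ J) M ν p

/-- the block graph with the cross edges between chains of `T` only -/
def res (G : BG α n) (T : Finset (Fin n)) : BG α n where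
  c := G.c
  ρ := G.ρ
  X x y := G.c x ∈ T ∧ G.c y ∈ T ∧ G.X x y
  inj := G.inj
  sym _ _ h := ⟨h.2.1, h.1, G.sym _ _ h.2.2⟩
  ne _ _ h := G.ne _ _ h.2.2

end defsG

/-- **G1** (30 lines).  The restricted block graph.

Proof. `Con` does not depend on `X`, so `Con` is the same for `G` and `res G T`; `Gm T` is the same graph
(`SimpleGraph.ext`: both say `c x ∈ T`, `c y ∈ T` and one of three conditions); `Ed T'` is the same set for `T' ⊆ T`
(the same argument, `BG.mem_Ed`).  A bundle of `res G T` is a bundle of `G` (`stp`), its chains are in `T`: for `j < r` by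
`stp` for `k = 0` (`c (B 0 j) = χ j`, `cB`), for `j = r` by `stp` for `r - 1` (`c (A 0 r) = χ r`, `cA`). -/
def S_Res : Prop := ∀ (α : Type) (n : ℕ) (G : BG α n) (T : Finset (Fin n)),
  (∀ T' ⊆ T, (res G T).Gm T' = G.Gm T') ∧
  (∀ [Fintype α], ∀ T' ⊆ T, (res G T).Ed T' = G.Ed T') ∧
  ∀ (i : Fin n) (m r : ℕ) (A B : ℕ → ℕ → α) (χ : ℕ → Fin n), VTr (res G T) i m r A B χ →
    VTr G i m r A B χ ∧ (1 ≤ m → ∀ j ≤ r, χ j ∈ T)

/-- **G2** (40 lines).  The facts for the restricted block graph (uses G1).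

Proof. `ρ`, `c` are the same.  A rainbow (preserving bundle) of `res G T` is one of `G` by G1.  So `Gd G` implies
`Gd (res G T)`, and `FG` follows. -/
def S_ResF : Prop := ∀ (α : Type) (n : ℕ) (G : BG α n) (T : Finset (Fin n)) (i : Fin n)
  (m₁ m₂ R : ℕ), FG G i m₁ m₂ R → FG (res G T) i m₁ m₂ R

/-- **G3** (70 lines).  Bundles from linked sets, in the restricted block graph (uses G1, `VX.S_Bun`, `S_MonB` of
`BT/SpecB.lean`).

Proof. `m' = max m 1`; `M₁` the number of `S_MonB` for `m'`, `M₂` the number of `VX.S_Bun` for `n, g, M₁`;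
`M = max 1 (q * M₂)`.  `LkS` gives a linkage in `G.Gm T = (res G T).Gm T` of size `M₂` from `J` to the rest of the chain.
`Carv ((res G T).Ed (T.erase i)) g _` by G1.  `VX.S_Bun` for `res G T`: `r ≤ n + 4 g + 1` and a bundle of size `M₁` with
`A k 0 ∈ J` and one of the two alternatives (`J` is in the chain `i`).  `S_MonB`: a preserving bundle, or a rainbow
which leaves `J`, of size `m'`; restrict the size to `m` (`S_SubT` with `κ = id`, or directly: all conditions are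
for `k < m`). -/
def S_BunT : Prop := ∀ n g m q : ℕ, 2 ≤ g → ∃ M : ℕ, 1 ≤ M ∧ ∀ (α : Type) [Fintype α]
  [DecidableEq α] (G : BG α n) (T : Finset (Fin n)) (i : Fin n) (S J : Finset α), i ∈ T →
  Carv (G.Ed (T.erase i)) g (G.Ed (T.erase i)) → LkS G T i S q → (∀ x ∈ J, G.c x = i) → G.Int J →
  M ≤ (S ∩ J).card → M ≤ (S \ J).card →
  ∃ r A B χ, r ≤ n + 4 * g + 1 ∧ (Ps (res G T) i m r A B χ ∨
    (Rb (res G T) i m r A B χ ∧ Leav (res G T) J m r A))

/-- **G4** (60 lines).  A good interval is small or big (uses `S_SubT` of `BT/SpecB.lean`).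

Proof. Let `J = {x | c x = i, p ≤ ρ x < q}`, an interval.  `S ∩ J` is the first set of the conclusion and `S \ J` the second
one (`cS`).  If both have at least `M` elements, `bal` gives a rainbow of size `m₁ + m₂` which leaves `J`; let
`κ = id`, size `m₁` (`S_SubT`).  First alternative of `Leav`: `p ≤ ρ (A k 0) < q`, and `q ≤ ρ (A k r)`: otherwise
`A k r ∈ J` (`p ≤ ρ (A k 0) < ρ (A k r) < q` by `bet`; `c (A k r) = i`), and then `ρ (A k r) < ρ (A k r)`.  Second
alternative: `p ≤ ρ (A k r) < q`, and `ρ (A k 0) < p`: otherwise `A k 0 ∈ J`, and `ρ (A k 0) < ρ (A k 0)`.  Both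
contradict `Gd`. -/
def S_Dich : Prop := ∀ (α : Type) [Fintype α] [DecidableEq α] (n : ℕ) (G : BG α n) (i : Fin n)
  (S : Finset α) (m₁ m₂ R M : ℕ), CtG G i S m₁ m₂ R M → ∀ p q, Gd G i m₁ R p q →
    (S.filter fun x => p ≤ G.ρ x ∧ G.ρ x < q).card < M ∨
      (S.filter fun x => ¬ (p ≤ G.ρ x ∧ G.ρ x < q)).card < M

/-- **G5** (170 lines).  **The core argument** (uses `S_SubT`, `S_Thr` of `BT/SpecB.lean` and G4).

Proof. Suppose `8 M ≤ |S|`.  `S_Thr`: `p` with `|{x ∈ S | ρ x < p}| = 2 M`, `q` with `|{x ∈ S | ρ x < q}| = 6 M` (add `1` to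
the numbers of `S_Thr`); so `p < q`, `|{x ∈ S | p ≤ ρ x < q}| = 4 M`, `|{x ∈ S | q ≤ ρ x}| ≥ 2 M`.  Let `Q` be larger than
all `ρ x`.  For a number `t ≤ Q` let `U t` be the set of the numbers `u ≤ Q` such that `u = t`, or `t < u` and there is
`l ≤ t` with `Gd G i m₁ R l u` and fewer than `M` elements `x ∈ S` with `l ≤ ρ x < u`.  Let `p'` be the largest element
of `U p` and `q'` the largest element of `U q`.  There are fewer than `M` elements `x ∈ S` with `p ≤ ρ x < p'`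
(`1 ≤ M`), and the same for `q, q'`.  `J = {x | c x = i, p' ≤ ρ x < q'}` is an interval with at least
`4 M - M ≥ M` elements of `S` (those with `p ≤ ρ x < q` and not `ρ x < p'`; `q ≤ q'`), and at least `2 M` elements of
`S` are outside (`ρ x < p ≤ p'`).  `CtG.bal` gives a rainbow of size `m₁ + m₂` which leaves `J`.  `FG.good` for its
first `m₂` arcs (`S_SubT`, `κ = id`) gives `l, u` with `ρ (A 0 0) < l ≤ ρ (A (m₂ - 1) 0)`,
`ρ (A (m₂ - 1) r) < u ≤ ρ (A 0 r)` and `Gd l u`.  (If `m₂ = 0` the first part is impossible.)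
(I) To the right: `p' ≤ ρ (A k 0) < q'` and `q' ≤ ρ (A k r)` for all `k` (otherwise `A k r ∈ J`).
The `2 M` elements of `S` with `ρ x < p` satisfy `ρ x < p ≤ p' ≤ ρ (A 0 0) < l`, so by G4 there are fewer than `M`
elements of `S` with `l ≤ ρ x < u`.
(Ia) `l ≤ q`: `q ≤ q' ≤ ρ (A (m₂ - 1) r) < u ≤ ρ (A 0 r) ≤ Q`, so `u ∈ U q`, so `u ≤ q'`: contradiction.
(Ib) `q < l`: `q < l ≤ ρ (A (m₂ - 1) 0) < q'`, so by the definition of `U q` there is `l' ≤ q` with `Gd l' q'`.  For
`m₂ ≤ k < m₂ + m₁`: `l' ≤ q < l ≤ ρ (A (m₂ - 1) 0) < ρ (A k 0) < q' ≤ ρ (A k r)`: a contradiction to `Gd l' q'` (first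
part) for the subfamily `k ↦ m₂ + k` (`S_SubT`).
(II) To the left: `p' ≤ ρ (A k r) < q'` and `ρ (A k 0) < p'` for all `k` (otherwise `A k 0 ∈ J`).  At least
`2 M - (M - 1) ≥ M` elements of `S` satisfy `q' ≤ ρ x`, and `u ≤ ρ (A 0 r) < q'`, so by G4 there are fewer than `M`
elements of `S` with `l ≤ ρ x < u`.
(IIa) `l ≤ p`: `p ≤ p' ≤ ρ (A (m₂ - 1) r) < u < q' ≤ Q`, so `u ∈ U p`, `u ≤ p'`: contradiction.
(IIb) `p < l`: `p < l ≤ ρ (A (m₂ - 1) 0) < p'`, so there is `l' ≤ p` with `Gd l' p'`.  For `m₂ ≤ k < m₂ + m₁`: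
`l' ≤ p < l ≤ ρ (A (m₂ - 1) 0) < ρ (A k 0) < p' ≤ ρ (A k r)`: a contradiction to `Gd l' p'` (first part). -/
def S_CoreG : Prop := ∀ (α : Type) [Fintype α] [DecidableEq α] (n : ℕ) (G : BG α n) (i : Fin n)
  (S : Finset α) (m₁ m₂ R M : ℕ), CtG G i S m₁ m₂ R M → S.card < 8 * M

/-- **The system** (proved by helper32 in `VX/Sys2.lean`, up to the form): as `VX.S_Sys`; moreover the base chain `i` is in
the set `st` if `T` contains a chain of `st` -/
def S_SysQ (q : ℕ) : Prop := ∀ (n : ℕ) (f : ℕ → ℕ), ∃ N : ℕ, ∀ (α : Type) [Fintype α]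
  [DecidableEq α] (B : BG α n) (st : Fin n → Prop), Carv (B.Ed Finset.univ) N (B.Ed Finset.univ) ∨
    ∃ (T : Finset (Fin n)) (i : Fin n) (g : ℕ) (S : Finset α), i ∈ T ∧ 2 ≤ g ∧ g ≤ N ∧
      Carv (B.Ed (T.erase i)) g (B.Ed (T.erase i)) ∧ (∀ x ∈ S, B.c x = i) ∧ f g ≤ S.card ∧
      LkS B T i S q ∧ ((∃ j ∈ T, st j) → st i)

/-- **G6** (120 lines).  **Branch decompositions of bounded width** (uses G1, G2, G3, G5, `S_Thr` and `S_SysQ q`).

Proof. For `2 ≤ g` let `R = n + 4 g + 1` and `M g` the number of G3 for `n, g, m₁ R + m₂ R + 1, q`; `f g = 8 * M g`; `N` from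
`S_SysQ q`.  In its second alternative:
Case 1, `st i`.  `FG G i (m₁ R) (m₂ R) R`, so `FG (res G T) ..` by G2.  `CtG (res G T) i S (m₁ R) (m₂ R) R (M g)`: `bal` by
G3 (restrict the size from `m₁ + m₂ + 1` to `m₁ + m₂`; the preserving bundle is impossible by `FG.prs`, restrict the
size to `m₁`).  G5 contradicts `8 * M g ≤ |S|`.
Case 2, not `st i`.  Then no chain of `T` is in `st`.  Let `M = M g`; `S_Thr`: `t` with
`|{x ∈ S | ρ x ≤ t}| = M`; `J = {x | c x = i, ρ x ≤ t}` is an interval with `|S ∩ J| = M`, `|S \ J| ≥ 7 M`.  G3 gives a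
preserving bundle or a rainbow of `res G T` of size `m₁ R + m₂ R + 1 ≥ 1`.  By G1 it is one of `G`, and its chains are in
`T`, so not in `st`; restrict the size to `m₁ R`: a contradiction to the last hypothesis. -/
def S_CarvG : Prop := ∀ q : ℕ, S_SysQ q → ∀ (n : ℕ) (m₁ m₂ : ℕ → ℕ), ∃ N : ℕ, ∀ (α : Type)
  [Fintype α] [DecidableEq α] (G : BG α n) (st : Fin n → Prop),
  (∀ R i, st i → FG G i (m₁ R) (m₂ R) R) →
  (∀ R i r A B χ, r ≤ R → (∀ j ≤ r, ¬ st (χ j)) →
    ¬ Ps G i (m₁ R) r A B χ ∧ ¬ Rb G i (m₁ R) r A B χ) →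
  Carv (G.Ed Finset.univ) N (G.Ed Finset.univ)

end Pool.Agent.MPd439b2.BT
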